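import Pool.Agent.Lib.MP_061452_co.Sum

set_option autoImplicit false

namespace Pool.Agent.Lib.MP_061452_co

open Function

theorem ind_split (P Q : Prop) : ind P = ind (Q ∧ P) + ind (¬ Q ∧ P) := by
  by_cases hP : P <;> by_cases hQ : Q <;> simp [ind, hP, hQ]

theorem ind_bool {P Q W : Prop} {a b : Bool} (h1 : P ↔ W ∧ a = b) (h2 : Q ↔ W ∧ (!a) = b) :
    ind P + ind Q = ind W := by
  rw [ind_congr h1, ind_congr h2]
  by_cases hW : W <;> cases a <;> cases b <;> simp [ind, hW]

variable {α : Type} [DecidableEq α] {σ : Equiv.Perm α} {g : α}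

/-- The terminal position: the partner of the base point is its successor. -/
theorem terminal [Fintype α] {r : α → ℕ} (hr : ∀ p, p ≠ g → r (σ.symm p) < r p)
    (hne : σ g ≠ g) {Ω : (α → Bool) → (α → α) → Prop}
    (h1 : ∀ c ρ, LV σ g c ρ → Ω c ρ → ρ g = σ g)
    (h2 : Ω (fun p => decide (p ≠ g)) (Equiv.swap g (σ g))) :
    Tot σ g (fun c ρ => ind (Ω c ρ)) = 1 := by
  have hs : ∀ p, p ≠ σ g → σ.symm p ≠ g := fun p hp e => hp (by rw [← e]; simp)
  have hLV : LV σ g (fun p => decide (p ≠ g)) (Equiv.swap g (σ g)) := by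
    refine ⟨fun p => by simp, fun p => ?_, by simpa using hs g hne.symm⟩
    by_cases e1 : p = g
    · rw [e1, Equiv.swap_apply_left]; simp [hne, hs g hne.symm]
    by_cases e2 : p = σ g
    · rw [e2, Equiv.swap_apply_right]; simp [hne, hne.symm]
    rw [Equiv.swap_apply_of_ne_of_ne e1 e2]; simp [e1, hs p e2]
  have hC : Conn σ (fun p => decide (p ≠ g)) (Equiv.swap g (σ g)) := by
    set θ := the σ (fun p => decide (p ≠ g)) (Equiv.swap g (σ g)) with hθ
    have k1 : ∀ n p, r p = n → p ≠ g → Rel (gam σ) θ (p, true) (σ g, true) := by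
      intro n
      induction n using Nat.strong_induction_on with
      | _ n ih =>
        intro p hp e1
        by_cases e2 : p = σ g
        · rw [e2]; exact Rel.refl _ _ _
        have a1 : θ (p, true) = (p, false) := by
          rw [hθ, the_fix (Equiv.swap_apply_of_ne_of_ne e1 e2)]; rfl
        have a2 : Rel (gam σ) θ (p, true) (p, false) := a1 ▸ Rel.the _ _ _
        have a3 : Rel (gam σ) θ (p, false) (σ.symm p, true) := Rel.gam _ _ _
        exact (a2.trans a3).trans (ih _ (hp ▸ hr p e1) _ rfl (hs p e2))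
    have k2 : ∀ x, col σ (fun p => decide (p ≠ g)) x = true → Rel (gam σ) θ x (σ g, true) := by
      rintro ⟨p, s⟩ hx
      cases s
      · exact (Rel.gam _ _ _).trans (k1 _ _ rfl (by simpa using hx))
      · exact k1 _ _ rfl (by simpa using hx)
    have k3 : ∀ x, col σ (fun p => decide (p ≠ g)) x = false → Rel (gam σ) θ x (g, true) := by
      rintro ⟨p, s⟩ hx
      cases s
      · have : σ.symm p = g := by simpa using hx
        rw [← this]; exact Rel.gam _ _ _
      · have : p = g := by simpa using hx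
        rw [this]; exact Rel.refl _ _ _
    intro x y _ _ hxy
    cases hx : col σ (fun p => decide (p ≠ g)) x
    · exact (k3 x hx).trans (k3 y (hxy ▸ hx)).symm
    · exact (k2 x hx).trans (k2 y (hxy ▸ hx)).symm
  unfold Tot
  rw [Finset.sum_eq_single ((fun p => decide (p ≠ g)), (Equiv.swap g (σ g) : α → α))]
  · beta_reduce
    rw [ind_pos ⟨hLV, hC⟩, ind_pos h2, one_mul]
  · rintro ⟨c, ρ⟩ _ hne'
    beta_reduce
    by_cases hv : Valid σ g c ρ
    swap
    · rw [ind_neg hv, zero_mul]
    by_cases hO : Ω c ρ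
    swap
    · rw [ind_neg hO, mul_zero]
    exfalso
    apply hne'
    obtain ⟨h, hc⟩ := hv
    have e1 := h1 c ρ h hO
    have e2 : ρ (σ g) = g := by rw [← e1, h.1 g]
    have ug : ρ g ≠ g := by rw [e1]; exact hne
    have uj : ρ (σ g) ≠ σ g := by rw [e2]; exact hne.symm
    have cg : c g = false := by
      have := h.used ug
      rw [h.2.2] at this
      revert this; cases c g <;> simp
    have cj' : c (σ g) = true := by
      have := h.used uj
      rw [Equiv.symm_apply_apply, cg] at this
      revert this; cases c (σ g) <;> simp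
    have t1 : the σ c ρ (g, true) = (σ g, false) := by rw [the_used ug, e1]; simp [cg, cj']
    have t2 : the σ c ρ (σ g, false) = (g, true) := by rw [← t1, the_invol h]
    have clo : ∀ f : α × Bool → α × Bool, Involutive f → f (g, true) = (σ g, false) →
        ∀ x, (f x = (g, true) ∨ f x = (σ g, false)) = (x = (g, true) ∨ x = (σ g, false)) := by
      intro f hf e x
      have e' : f (σ g, false) = (g, true) := by rw [← e, hf]
      apply propext
      constructor
      · rintro (k | k)
        · right; rw [← hf x, k, e]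
        · left; rw [← hf x, k, e']
      · rintro (k | k)
        · right; rw [k, e]
        · left; rw [k, e']
    have ctrue : ∀ p, p ≠ g → c p = true := by
      intro p hp
      by_contra hn
      have hr := hc (g, true) (p, true) trivial trivial (by simp [cg, hn])
      have := Rel.inv (fun x => x = (g, true) ∨ x = (σ g, false))
        (clo _ gam_invol (gam_true g)) (clo _ (the_invol h) t1) hr
      simp [hp] at this
    refine Prod.ext (funext fun p => ?_) (funext fun p => ?_)
    · by_cases e : p = g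
      · simp [e, cg]
      · simp [e, ctrue p e]
    · show ρ p = Equiv.swap g (σ g) p
      by_cases e : p = g
      · rw [e, e1, Equiv.swap_apply_left]
      by_cases e' : p = σ g
      · rw [e', e2, Equiv.swap_apply_right]
      rw [Equiv.swap_apply_of_ne_of_ne e e', h.2.1, ctrue p e, ctrue _ (hs p e')]
  · intro h; exact absurd (Finset.mem_univ _) h

/-- Every chord is used or monochromatic, and points on no chord are unused unless excepted. -/
def Base (π : α → α) (X : α → Prop) (c : α → Bool) (ρ : α → α) : Prop :=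
  (∀ p, π p ≠ p → ρ p = π p ∨ (ρ p = p ∧ ρ (π p) = π p ∧ c p = c (π p))) ∧
    ∀ p, π p = p → ¬ X p → ρ p = p

/-- Removing the chord at `i`. -/
def rem (π : α → α) (i : α) : α → α := fun p => if p = i ∨ p = π i then p else π p

variable {π : α → α} {X X' : α → Prop} {c c' : α → Bool} {ρ : α → α} {i j : α}

theorem rem_i : rem π i i = i := by simp [rem]
theorem rem_i' : rem π i (π i) = π i := by simp [rem]
theorem rem_o {p : α} (h1 : p ≠ i) (h2 : p ≠ π i) : rem π i p = π p := by simp [rem, h1, h2]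
theorem rem_fix {p : α} (h : π p = p) : rem π i p = p := by
  unfold rem; split_ifs; exacts [rfl, h]

theorem rem_invol (hπ : Involutive π) : Involutive (rem π i) := by
  intro p
  by_cases e1 : p = i
  · rw [e1, rem_i, rem_i]
  by_cases e2 : p = π i
  · rw [e2, rem_i', rem_i']
  rw [rem_o e1 e2, rem_o (fun e => e2 (by rw [← e, hπ p])) (fun e => e1 (hπ.injective e)), hπ p]

omit [DecidableEq α] in
theorem Base.loc (h : Base π X c ρ) (hc : ∀ p, ρ p = p → c p = c' p) : Base π X c' ρ := by
  refine ⟨fun p hp => ?_, h.2⟩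
  rcases h.1 p hp with k | ⟨k1, k2, k3⟩
  · exact Or.inl k
  · exact Or.inr ⟨k1, k2, by rw [← hc _ k1, ← hc _ k2, k3]⟩

omit [DecidableEq α] in
theorem Base.mono (h : Base π X c ρ) (hX : ∀ p, π p = p → X p → ¬ X' p → ρ p = p) :
    Base π X' c ρ := by
  refine ⟨h.1, fun p hp hx => ?_⟩
  by_cases k : X p
  · exact hX p hp k hx
  · exact h.2 p hp k

theorem Base.flp (hπ : Involutive π) (hj : π j = j) (h : Base π X c ρ) :
    Base π X (flp j c) ρ := by
  refine ⟨fun p hp => ?_, h.2⟩
  rcases h.1 p hp with k | ⟨k1, k2, k3⟩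
  · exact Or.inl k
  · refine Or.inr ⟨k1, k2, ?_⟩
    rw [flp_ne (fun e => hp (by rw [e, hj])), flp_ne (fun e => hp (by rw [← hπ p, e, hj, hj])), k3]

theorem Base.transport (h : Base π X c ρ) (i j : α) :
    Base (cj i j π) (fun p => X (Equiv.swap i j p)) (c ∘ Equiv.swap i j) (cj i j ρ) := by
  refine ⟨fun p hp => ?_, fun p hp hx => ?_⟩
  · rw [Ne, cj_fix] at hp
    rcases h.1 _ hp with k | ⟨k1, k2, k3⟩
    · left; simp only [cj, k]
    · right
      refine ⟨(cj_fix _ _ _ _).2 k1, ?_, ?_⟩
      · simp only [cj, Equiv.swap_apply_self, k2]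
      · simp only [cj, comp, Equiv.swap_apply_self, k3]
  · rw [cj_fix] at hp ⊢
    exact h.2 _ hp hx

theorem base_chord (hπ : Involutive π) (hi : π i ≠ i) (x1 : ¬ X i) (x2 : ¬ X (π i)) :
    (ρ i = i ∧ Base π X c ρ) ↔ (Base (rem π i) X c ρ ∧ c i = c (π i)) := by
  constructor
  · rintro ⟨e, h⟩
    rcases h.1 i hi with k | ⟨_, k2, k3⟩
    · exact absurd (k.symm.trans e) hi
    refine ⟨⟨fun p hp => ?_, fun p hp hx => ?_⟩, k3⟩
    · have e1 : p ≠ i := fun e => hp (by rw [e, rem_i])
      have e2 : p ≠ π i := fun e => hp (by rw [e, rem_i'])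
      rw [rem_o e1 e2] at hp ⊢
      exact h.1 p hp
    · by_cases e1 : p = i
      · rw [e1, e]
      by_cases e2 : p = π i
      · rw [e2, k2]
      rw [rem_o e1 e2] at hp
      exact h.2 p hp hx
  · rintro ⟨h, k3⟩
    have k1 := h.2 i rem_i x1
    have k2 := h.2 (π i) rem_i' x2
    refine ⟨k1, fun p hp => ?_, fun p hp hx => h.2 p (rem_fix hp) hx⟩
    by_cases e1 : p = i
    · rw [e1]; exact Or.inr ⟨k1, k2, k3⟩
    by_cases e2 : p = π i
    · rw [e2, hπ i]; exact Or.inr ⟨k2, k1, k3.symm⟩
    have := h.1 p (by rw [rem_o e1 e2]; exact hp)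
    rwa [rem_o e1 e2] at this

/-- Undoing a merge at the end of a chord. -/
theorem base_unmerge_chord (hπ : Involutive π) (hi : π i ≠ i) (hj : π j = j) (hg : π g = g)
    (hig : i ≠ g) (hjg : j ≠ g) (hρ : Involutive ρ)
    (ri : ρ i = i) (rj : ρ j = j) (rg : ρ g ≠ g) (xg : X g) (xj : X j) (xg' : X' g)
    (xi' : X' (π i)) (hX : ∀ p, p ≠ i → p ≠ j → p ≠ g → p ≠ π i → (X p ↔ X' p)) :
    Base π X c (unmerge i j g ρ) ↔ (ρ g = π i ∧ Base (rem π i) X' c ρ) := by
  obtain ⟨f1, f2⟩ := unmerge_facts hig hjg hρ ri rj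
  have oth : ρ g = π i → ∀ p, π p ≠ p → p ≠ i → p ≠ π i →
      unmerge i j g ρ p = ρ p ∧ unmerge i j g ρ (π p) = ρ (π p) := by
    intro e p hp e1 e2
    refine ⟨unmerge_o e1 (fun k => hp (by rw [k, hj])) (fun k => hp (by rw [k, hg]))
      (by rw [e]; exact e2), unmerge_o (fun k => e2 (by rw [← k, hπ p]))
      (fun k => hp (by rw [← hπ p, k, hj, hj])) (fun k => hp (by rw [← hπ p, k, hg, hg]))
      (by rw [e]; exact fun k => e1 (hπ.injective k))⟩
  constructor
  · intro h
    have e : ρ g = π i := by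
      rcases h.1 i hi with k | ⟨k, _⟩
      · rwa [unmerge_i] at k
      · rw [unmerge_i] at k; exact absurd k f1
    refine ⟨e, fun p hp => ?_, fun p hp hx => ?_⟩
    · have e1 : p ≠ i := fun e => hp (by rw [e, rem_i])
      have e2 : p ≠ π i := fun e => hp (by rw [e, rem_i'])
      rw [rem_o e1 e2] at hp ⊢
      have := h.1 p hp
      rwa [(oth e p hp e1 e2).1, (oth e p hp e1 e2).2] at this
    · by_cases e1 : p = i
      · rw [e1, ri]
      by_cases e2 : p = j
      · rw [e2, rj]
      have e3 : p ≠ g := fun k => hx (k ▸ xg')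
      have e4 : p ≠ π i := fun k => hx (k ▸ xi')
      rw [rem_o e1 e4] at hp
      have := h.2 p hp (fun k => hx ((hX p e1 e2 e3 e4).1 k))
      rwa [unmerge_o e1 e2 e3 (by rw [e]; exact e4)] at this
  · rintro ⟨e, h⟩
    refine ⟨fun p hp => ?_, fun p hp hx => ?_⟩
    · by_cases e1 : p = i
      · left; rw [e1, unmerge_i, e]
      by_cases e2 : p = π i
      · left; rw [e2, hπ i, unmerge_k e (e ▸ f1) (e ▸ f2) (e ▸ rg)]
      rw [(oth e p hp e1 e2).1, (oth e p hp e1 e2).2]
      have := h.1 p (by rw [rem_o e1 e2]; exact hp)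
      rwa [rem_o e1 e2] at this
    · have e1 : p ≠ i := fun k => hi (k ▸ hp)
      have e2 : p ≠ j := fun k => hx (k ▸ xj)
      have e3 : p ≠ g := fun k => hx (k ▸ xg)
      have e4 : p ≠ π i := fun k => hi (by rw [k, hπ i] at hp; exact hp.symm)
      rw [unmerge_o e1 e2 e3 (by rw [e]; exact e4)]
      exact h.2 p (rem_fix hp) (fun k => hx ((hX p e1 e2 e3 e4).2 k))

/-- Undoing a merge when the four points lie on no chord. -/
theorem base_unmerge_free (hπ : Involutive π) (hi : π i = i) (hj : π j = j) (hg : π g = g)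
    (hk : π (ρ g) = ρ g) (ri : ρ i = i) (rj : ρ j = j) (xi : X i) (xj : X j) (xg : X g)
    (xk : X (ρ g)) (xg' : X' g) (xk' : X' (ρ g))
    (hX : ∀ p, p ≠ i → p ≠ j → p ≠ g → p ≠ ρ g → (X p ↔ X' p)) :
    Base π X c (unmerge i j g ρ) ↔ Base π X' c ρ := by
  have oth : ∀ p, π p ≠ p → unmerge i j g ρ p = ρ p := by
    intro p hp
    exact unmerge_o (fun k => hp (by rw [k, hi])) (fun k => hp (by rw [k, hj]))
      (fun k => hp (by rw [k, hg])) (fun k => hp (by rw [k, hk]))
  have oth' : ∀ p, π p ≠ p → unmerge i j g ρ (π p) = ρ (π p) :=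
    fun p hp => oth _ (by rw [hπ p]; exact hp.symm)
  constructor
  · intro h
    refine ⟨fun p hp => ?_, fun p hp hx => ?_⟩
    · have := h.1 p hp
      rwa [oth p hp, oth' p hp] at this
    · by_cases e1 : p = i
      · rw [e1, ri]
      by_cases e2 : p = j
      · rw [e2, rj]
      have e3 : p ≠ g := fun k => hx (k ▸ xg')
      have e4 : p ≠ ρ g := fun k => hx (k ▸ xk')
      have := h.2 p hp (fun k => hx ((hX p e1 e2 e3 e4).1 k))
      rwa [unmerge_o e1 e2 e3 e4] at this
  · intro h
    refine ⟨fun p hp => ?_, fun p hp hx => ?_⟩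
    · rw [oth p hp, oth' p hp]; exact h.1 p hp
    · have e1 : p ≠ i := fun k => hx (k ▸ xi)
      have e2 : p ≠ j := fun k => hx (k ▸ xj)
      have e3 : p ≠ g := fun k => hx (k ▸ xg)
      have e4 : p ≠ ρ g := fun k => hx (k ▸ xk)
      rw [unmerge_o e1 e2 e3 e4]
      exact h.2 p hp (fun k => hx ((hX p e1 e2 e3 e4).2 k))

/-- The number of chord ends. -/
def ends [Fintype α] (π : α → α) : ℕ := (Finset.univ.filter (fun p => π p ≠ p)).card

theorem ends_rem [Fintype α] (hi : π i ≠ i) : ends (rem π i) < ends π := by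
  apply Finset.card_lt_card
  rw [Finset.ssubset_iff_of_subset]
  · exact ⟨i, by simpa using hi, by simp [rem_i]⟩
  · intro p hp
    simp only [Finset.mem_filter, Finset.mem_univ, true_and] at hp ⊢
    exact fun e => hp (rem_fix e)

theorem ends_cj [Fintype α] : ends (cj i j π) = ends π := by
  unfold ends
  refine Finset.card_bij' (fun p _ => Equiv.swap i j p) (fun p _ => Equiv.swap i j p) ?_ ?_ ?_ ?_
  · intro p hp
    simp only [Finset.mem_filter, Finset.mem_univ, true_and] at hp ⊢
    rwa [Ne, cj_fix] at hp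
  · intro p hp
    simp only [Finset.mem_filter, Finset.mem_univ, true_and] at hp ⊢
    rwa [Ne, cj_fix, Equiv.swap_apply_self]
  · intro p _; simp
  · intro p _; simp

end Pool.Agent.Lib.MP_061452_co
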