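import Pool.Agent.Lib.MP_061452_co.ParF

set_option autoImplicit false

namespace Pool.Agent.Lib.MP_061452_co

open Function

variable {α : Type} [DecidableEq α] {σ : Equiv.Perm α} {g : α}

/-- The base point is joined to `h`, and the block is monochromatic and unused, or two of its
points are joined and the rest has colour `b`. -/
def Fb (b : Bool) (g : α) (π : α → α) (h : α) (B : Finset α) (c : α → Bool) (ρ : α → α) : Prop :=
  ρ g = h ∧ ((Base π (fun p => p = g ∨ p = h) c ρ ∧ ∀ p ∈ B, ∀ q ∈ B, c p = c q) ∨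
    ∃ a ∈ B, ρ a ∈ B ∧ ρ a ≠ a ∧ Base π (fun p => p = g ∨ p = h ∨ p = a ∨ p = ρ a) c ρ ∧
      ∀ p ∈ B, p ≠ a → p ≠ ρ a → c p = b)

/-- The colouring read on the reversed circle, with the two colours exchanged. -/
def rev (σ : Equiv.Perm α) (c : α → Bool) : α → Bool := fun p => !c (σ p)

omit [DecidableEq α] in
theorem col_rev (c : α → Bool) (x : α × Bool) :
    col σ (rev σ c) x = !col σ.symm c (x.1, !x.2) := by
  obtain ⟨p, s⟩ := x
  cases s <;> simp [col, rev]

omit [DecidableEq α] in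
theorem gam_rev (x : α × Bool) :
    gam σ (x.1, !x.2) = ((gam σ.symm x).1, !(gam σ.symm x).2) := by
  obtain ⟨p, s⟩ := x
  cases s <;> simp [gam]

omit [DecidableEq α] in
theorem rev_fix {c : α → Bool} {ρ : α → α} (h : LV σ.symm g c ρ) {p : α} (hp : ρ p = p) :
    rev σ c p = !c p := by
  have := (h.2.1 p).1 hp
  rw [Equiv.symm_symm] at this
  simp [rev, this]

theorem the_rev {c : α → Bool} {ρ : α → α} (h : LV σ.symm g c ρ) (x : α × Bool) :
    the σ (rev σ c) ρ (x.1, !x.2) = ((the σ.symm c ρ x).1, !(the σ.symm c ρ x).2) := by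
  obtain ⟨p, s⟩ := x
  by_cases e : ρ p = p
  · simp [the, e]
  · have e' : ρ (ρ p) ≠ ρ p := by rw [h.1 p]; exact Ne.symm e
    have k := mt (h.2.1 (ρ p)).2 e'
    rw [Equiv.symm_symm] at k
    have k2 := col_rev (σ := σ) c (p, !s)
    simp only [Bool.not_not] at k2
    simp only [the, e, if_false, k2, rev]
    revert k
    cases c (σ (ρ p)) <;> cases c (ρ p) <;> cases col σ.symm c (p, s) <;> simp

theorem valid_rev {c : α → Bool} {ρ : α → α} (h : Valid σ.symm g c ρ) (hg : ρ g ≠ g) :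
    Valid σ g (rev σ c) ρ := by
  obtain ⟨h, hc⟩ := h
  refine ⟨⟨h.1, fun p => ?_, ?_⟩, ?_⟩
  · rw [h.2.1 p, Equiv.symm_symm]
    simp only [rev, Equiv.apply_symm_apply]
    cases c p <;> cases c (σ p) <;> simp
  · have k := mt (h.2.1 g).2 hg
    rw [h.2.2] at k
    simp only [rev, Equiv.apply_symm_apply]
    revert k; cases c g <;> simp
  · have tr : ∀ x y, Rel (gam σ.symm) (the σ.symm c ρ) x y →
        Rel (gam σ) (the σ (rev σ c) ρ) (x.1, !x.2) (y.1, !y.2) := by
      intro x y k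
      induction k with
      | rel x y k =>
        rcases k with k | k
        · rw [k, ← gam_rev]; exact Rel.gam _ _ _
        · rw [k, ← the_rev h]; exact Rel.the _ _ _
      | refl x => exact Rel.refl _ _ _
      | symm x y _ ih => exact ih.symm
      | trans x y z _ _ i1 i2 => exact i1.trans i2
    intro x y _ _ hxy
    rw [col_rev, col_rev] at hxy
    have := tr _ _ (hc (x.1, !x.2) (y.1, !y.2) trivial trivial (Bool.not_inj hxy))
    simpa using this

theorem exists_F_both [Fintype α] {r : α → ℕ} (hr : ∀ p, p ≠ g → r (σ.symm p) < r p)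
    {π : α → α} {h : α} {B : Finset α} (hs : StrF g π h B) (b : Bool) :
    ∃ c ρ, Valid σ g c ρ ∧ Fb b g π h B c ρ := by
  cases b
  swap
  · exact exists_F hr hs
  obtain ⟨N, hN⟩ : ∃ N, ∀ p, r p < N :=
    ⟨Finset.univ.sup r + 1, fun p => Nat.lt_succ_of_le (Finset.le_sup (Finset.mem_univ p))⟩
  have hr' : ∀ p, p ≠ g → (fun p => if p = g then 0 else N - r p) (σ.symm.symm p) <
      (fun p => if p = g then 0 else N - r p) p := by
    intro p hp
    rw [Equiv.symm_symm]
    have a1 := hN p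
    by_cases e : σ p = g
    · simp only [e, hp, if_true, if_false]; omega
    · have a2 := hr _ e
      have a3 := hN (σ p)
      rw [Equiv.symm_apply_apply] at a2
      simp only [e, hp, if_false]; omega
  obtain ⟨c, ρ, hv, hF⟩ := exists_F (σ := σ.symm)
    (r := fun p => if p = g then 0 else N - r p) hr' hs
  have ug : ρ g ≠ g := by rw [hF.1]; exact hs.2.2.1
  have bs : ∀ X : α → Prop, Base π X c ρ → Base π X (rev σ c) ρ := by
    intro X k
    refine ⟨fun p hp => (k.1 p hp).imp_right fun j => ⟨j.1, j.2.1, ?_⟩, k.2⟩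
    rw [rev_fix hv.1 j.1, rev_fix hv.1 j.2.1, j.2.2]
  have n1 : ∀ p ∈ B, p ≠ g := fun p hp e => hs.1.2.2.1 (e ▸ hp)
  have n2 : ∀ p ∈ B, p ≠ h := fun p hp e => hs.2.2.2 (e ▸ hp)
  refine ⟨rev σ c, ρ, valid_rev hv ug, hF.1, ?_⟩
  rcases hF.2 with ⟨k, m⟩ | ⟨a, k1, k2, k3, k, m⟩
  · refine Or.inl ⟨bs _ k, fun p hp q hq => ?_⟩
    have f : ∀ p ∈ B, ρ p = p := fun p hp =>
      k.2 p (hs.1.2.2.2 p hp) (fun e => e.elim (n1 p hp) (n2 p hp))
    rw [rev_fix hv.1 (f p hp), rev_fix hv.1 (f q hq), m p hp q hq]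
  · refine Or.inr ⟨a, k1, k2, k3, bs _ k, fun p hp e1 e2 => ?_⟩
    have f : ρ p = p := k.2 p (hs.1.2.2.2 p hp)
      (fun e => e.elim (n1 p hp) (fun e => e.elim (n2 p hp) (fun e => e.elim e1 e2)))
    rw [rev_fix hv.1 f, m p hp e1 e2]; rfl

end Pool.Agent.Lib.MP_061452_co
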