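import Pool.Agent.Lib.MP_061452_co.Defs

set_option autoImplicit false

namespace Pool.Agent.Lib.MP_061452_co

open Function

section dihedral
variable {Z : Type} {G T : Equiv.Perm Z}

theorem refl_zpow (hG : G * G = 1) (hT : T * T = 1) (k : ℤ) (x : Z) :
    T (((T * G) ^ k) x) = ((T * G) ^ (-k)) (T x) := by
  have hTinv : T⁻¹ = T := inv_eq_of_mul_eq_one_right hT
  have hGinv : G⁻¹ = G := inv_eq_of_mul_eq_one_right hG
  have hconj : T * (T * G) * T⁻¹ = (T * G)⁻¹ := by
    rw [mul_inv_rev, hTinv, hGinv, ← mul_assoc, hT, one_mul]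
  have h1 : T * (T * G) ^ k * T⁻¹ = (T * G) ^ (-k) := by rw [← conj_zpow, hconj, inv_zpow']
  rw [← h1, Equiv.Perm.mul_apply, Equiv.Perm.mul_apply]
  simp

theorem not_sameCycle (hG : G * G = 1) (hT : T * T = 1) (fG : ∀ x, G x ≠ x) (fT : ∀ x, T x ≠ x)
    (x : Z) : ¬ (T * G).SameCycle x (T x) := by
  rintro ⟨m, hm⟩
  rcases Int.even_or_odd' m with ⟨k, rfl | rfl⟩
  · apply fT (((T * G) ^ k) x)
    rw [refl_zpow hG hT, ← hm, ← Equiv.Perm.mul_apply, ← zpow_add]
    congr 2; ring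
  · apply fG (((T * G) ^ k) x)
    apply T.injective
    rw [refl_zpow hG hT, ← hm, ← Equiv.Perm.mul_apply ((T * G) ^ (-k)), ← zpow_add,
      show -k + (2 * k + 1) = 1 + k by ring, zpow_add, zpow_one]
    rfl

end dihedral

variable {V E : Type}

theorem exists_other_edge {ends : E → Sym2 V} {S : Set E} {v : V} (h : deg ends S v = 2) {e : E}
    (he : e ∈ S ∧ v ∈ ends e) : ∃ e', (e' ∈ S ∧ v ∈ ends e') ∧ e' ≠ e ∧
      ∀ f, f ∈ S ∧ v ∈ ends f → f = e ∨ f = e' := by
  obtain ⟨a, b, hab, hs⟩ := Set.ncard_eq_two.1 h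
  have m : ∀ f, (f ∈ S ∧ v ∈ ends f) ↔ f = a ∨ f = b := fun f => by
    have : f ∈ {e : E | e ∈ S ∧ v ∈ ends e} ↔ f ∈ ({a, b} : Set E) := by rw [hs]
    simpa using this
  rcases (m e).1 he with rfl | rfl
  · exact ⟨b, (m b).2 (Or.inr rfl), hab.symm, fun f hf => (m f).1 hf⟩
  · exact ⟨a, (m a).2 (Or.inl rfl), hab, fun f hf => ((m f).1 hf).symm⟩

theorem deg_ne_zero [Fintype E] {ends : E → Sym2 V} {S : Set E} {v : V} (h : Touches ends S v) :
    deg ends S v ≠ 0 := by
  obtain ⟨e, he⟩ := h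
  exact Set.ncard_ne_zero_of_mem (a := e) he

/-- A cyclic enumeration of the vertices and edges of a circuit. -/
theorem exists_enum [Fintype V] [Fintype E] {ends : E → Sym2 V} (hl : ∀ e, ¬ (ends e).IsDiag)
    {S : Set E} (hS : IsCircuit ends S) {x : V} (hx : Touches ends S x) :
    ∃ (α : Type) (_ : Fintype α) (σ : Equiv.Perm α) (g : α) (r : α → ℕ) (v : α → V) (ε : α → E),
      v g = x ∧ Injective v ∧ Injective ε ∧ (∀ e, e ∈ S ↔ ∃ p, ε p = e) ∧
      (∀ p, ends (ε p) = s(v p, v (σ p))) ∧ ∀ p, p ≠ g → r (σ.symm p) < r p := by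
  classical
  let D := {d : V × E // d.2 ∈ S ∧ d.1 ∈ ends d.2}
  have two : ∀ d : D, deg ends S d.1.1 = 2 := fun d =>
    (hS.2.1 d.1.1).resolve_left (deg_ne_zero ⟨_, d.2⟩)
  choose oe hoe using fun d : D => exists_other_edge (two d) d.2
  let θ : D → D := fun d => ⟨(d.1.1, oe d), (hoe d).1⟩
  let γ : D → D := fun d => ⟨(Sym2.Mem.other d.2.2, d.1.2), d.2.1, Sym2.other_mem d.2.2⟩
  have hθ : Involutive θ := by
    intro d
    apply Subtype.ext
    refine Prod.ext rfl ?_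
    rcases (hoe d).2.2 _ (hoe (θ d)).1 with k | k
    · exact k
    · exact absurd k (hoe (θ d)).2.1
  have hγ : Involutive γ := by
    intro d
    apply Subtype.ext
    exact Prod.ext (Sym2.other_invol d.2.2 _) rfl
  have fθ : ∀ d, θ d ≠ d := fun d h => (hoe d).2.1 (congrArg (fun z : D => z.1.2) h)
  have fγ : ∀ d, γ d ≠ d := fun d h =>
    Sym2.other_ne (hl _) d.2.2 (congrArg (fun z : D => z.1.1) h)
  have sameV : ∀ d d' : D, d.1.1 = d'.1.1 → d' = d ∨ d' = θ d := by
    intro d d' h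
    rcases (hoe d).2.2 d'.1.2 ⟨d'.2.1, h ▸ d'.2.2⟩ with k | k
    · left; exact Subtype.ext (Prod.ext h.symm k)
    · right; exact Subtype.ext (Prod.ext h.symm k)
  have sameE : ∀ d d' : D, d.1.2 = d'.1.2 → d' = d ∨ d' = γ d := by
    intro d d' h
    have h1 : d'.1.1 ∈ ends d.1.2 := h ▸ d'.2.2
    rw [← Sym2.other_spec d.2.2, Sym2.mem_iff] at h1
    rcases h1 with k | k
    · left; exact Subtype.ext (Prod.ext k h.symm)
    · right; exact Subtype.ext (Prod.ext k h.symm)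
  let G : Equiv.Perm D := hγ.toPerm γ
  let T : Equiv.Perm D := hθ.toPerm θ
  have hG : G * G = 1 := by ext1 d; exact hγ d
  have hT : T * T = 1 := by ext1 d; exact hθ d
  let ψ := T * G
  have nsc : ∀ d, ¬ ψ.SameCycle d (θ d) := not_sameCycle hG hT fγ fθ
  obtain ⟨e0, he0⟩ := hx
  let d0 : D := ⟨(x, e0), he0⟩
  have e1 : ∀ d, γ d = θ (ψ d) := fun d => (hθ (γ d)).symm
  have e2 : ∀ d, ψ (γ d) = θ d := fun d => congrArg θ (hγ d)
  have cover : ∀ d : D, ψ.SameCycle d0 d ∨ ψ.SameCycle d0 (θ d) := by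
    have step : ∀ a b : V, Relation.ReflTransGen
        (SimpleGraph.fromRel (fun a b : V => ∃ e ∈ S, ends e = s(a, b))).Adj a b →
        (∃ d : D, d.1.1 = a ∧ ψ.SameCycle d0 d) → ∃ d : D, d.1.1 = b ∧ ψ.SameCycle d0 d := by
      intro a b hab ha
      induction hab with
      | refl => exact ha
      | @tail b c _ hbc ih =>
        obtain ⟨d, hd, hs⟩ := ih
        rw [SimpleGraph.fromRel_adj] at hbc
        obtain ⟨e, he, hee⟩ : ∃ e ∈ S, ends e = s(b, c) := by
          rcases hbc.2 with k | ⟨e, he, k⟩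
          · exact k
          · exact ⟨e, he, by rw [k, Sym2.eq_swap]⟩
        let d1 : D := ⟨(b, e), he, by rw [hee]; simp⟩
        let d2 : D := ⟨(c, e), he, by rw [hee]; simp⟩
        have h12 : d2 = γ d1 := (sameE d1 d2 rfl).resolve_left
          (fun k => hbc.1 (congrArg (fun z : D => z.1.1) k).symm)
        rcases sameV d d1 hd with k | k
        · refine ⟨ψ d1, ?_, by rw [k]; exact Equiv.Perm.sameCycle_apply_right.2 hs⟩
          show (γ d1).1.1 = c
          rw [← h12]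
        · refine ⟨d2, rfl, ?_⟩
          rw [← Equiv.Perm.sameCycle_apply_right, h12, e2, k, hθ d]
          exact hs
    intro d
    obtain ⟨d', h1, h2⟩ := step x d.1.1 ((SimpleGraph.reachable_iff_reflTransGen _ _).1
      (hS.2.2 _ _ ⟨e0, he0⟩ ⟨_, d.2⟩)) ⟨d0, rfl, Equiv.Perm.SameCycle.refl _ _⟩
    rcases sameV d d' h1.symm with k | k
    · left; rwa [← k]
    · right; rwa [← k]
  let α := {d : D // ψ.SameCycle d0 d}
  let σ : Equiv.Perm α := ψ.subtypePerm (fun d => Equiv.Perm.sameCycle_apply_right)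
  let g : α := ⟨d0, Equiv.Perm.SameCycle.refl _ _⟩
  have hreach : ∀ p : α, ∃ k : ℕ, (σ ^ k) g = p := by
    intro p
    obtain ⟨k, hk⟩ := p.2.exists_nat_pow_eq
    refine ⟨k, Subtype.ext ?_⟩
    rw [← hk]
    clear hk
    induction k with
    | zero => rfl
    | succ k ih => rw [pow_succ', pow_succ', Equiv.Perm.mul_apply, Equiv.Perm.mul_apply, ← ih]; rfl
  refine ⟨α, inferInstance, σ, g, fun p => Nat.find (hreach p), fun p => p.1.1.1,
    fun p => p.1.1.2, rfl, fun p q h => ?_, fun p q h => ?_, fun e => ⟨fun he => ?_, ?_⟩,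
    fun p => ?_, fun p hp => ?_⟩
  · rcases sameV p.1 q.1 h with k | k
    · exact Subtype.ext k.symm
    · exact absurd (p.2.symm.trans (k ▸ q.2)) (nsc p.1)
  · rcases sameE p.1 q.1 h with k | k
    · exact Subtype.ext k.symm
    · rw [e1] at k
      exact absurd ((Equiv.Perm.sameCycle_apply_right.2 p.2).symm.trans (k ▸ q.2)) (nsc (ψ p.1))
  · let d : D := ⟨((ends e).out.1, e), he, Sym2.out_fst_mem _⟩
    rcases cover d with k | k
    · exact ⟨⟨d, k⟩, rfl⟩
    · rw [← e2, Equiv.Perm.sameCycle_apply_right] at k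
      exact ⟨⟨γ d, k⟩, rfl⟩
  · rintro ⟨p, rfl⟩; exact p.1.2.1
  · exact (Sym2.other_spec p.1.2.2).symm
  · have h1 := Nat.find_spec (hreach p)
    rcases h0 : Nat.find (hreach p) with _ | k
    · rw [h0] at h1; exact absurd h1.symm hp
    · rw [h0, pow_succ', Equiv.Perm.mul_apply] at h1
      have : (σ ^ k) g = σ.symm p := by rw [← h1]; simp
      have := Nat.find_min' (hreach (σ.symm p)) this
      beta_reduce
      omega

end Pool.Agent.Lib.MP_061452_co
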