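import Mathlib

set_option autoImplicit false

namespace Pool.Agent.Lib.MP_061452_co

variable {V E : Type}

/-- The number of edges of `X` at the vertex `v`. -/
noncomputable def deg (ends : E → Sym2 V) (X : Set E) (v : V) : ℕ :=
  {e : E | e ∈ X ∧ v ∈ ends e}.ncard

/-- The vertex `v` is an end of an edge of `X`. -/
def Touches (ends : E → Sym2 V) (X : Set E) (v : V) : Prop := ∃ e ∈ X, v ∈ ends e

/-- Any two ends of edges of `X` are joined by a walk along edges of `X`. -/
def Joined (ends : E → Sym2 V) (X : Set E) : Prop :=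
  ∀ u v : V, Touches ends X u → Touches ends X v →
    (SimpleGraph.fromRel (fun a b : V => ∃ e ∈ X, ends e = s(a, b))).Reachable u v

/-- The edge set of a connected 2-regular subgraph. -/
def IsCircuit (ends : E → Sym2 V) (X : Set E) : Prop :=
  X.Nonempty ∧ (∀ v : V, deg ends X v = 0 ∨ deg ends X v = 2) ∧ Joined ends X

/-- The edge set of a path with distinct ends `x` and `y`. -/
def IsPath (ends : E → Sym2 V) (P : Set E) (x y : V) : Prop :=
  x ≠ y ∧ deg ends P x = 1 ∧ deg ends P y = 1 ∧
    (∀ v : V, v ≠ x → v ≠ y → deg ends P v = 0 ∨ deg ends P v = 2) ∧ Joined ends P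

/-- The graph obtained by deleting all ends of edges of `X`. -/
def Outside (ends : E → Sym2 V) (X : Set E) : SimpleGraph V :=
  SimpleGraph.fromRel (fun a b : V =>
    ¬ Touches ends X a ∧ ¬ Touches ends X b ∧ ∃ e : E, ends e = s(a, b))

/-- The vertices of `X` adjacent to the component of `q` in the graph outside `X`. -/
def Attach (ends : E → Sym2 V) (X : Set E) (q : V) : Set V :=
  {a : V | Touches ends X a ∧ ∃ q' : V, ¬ Touches ends X q' ∧ (Outside ends X).Reachable q q' ∧
    ∃ e : E, ends e = s(q', a)}

/-- Every Tutte bridge of the union of `S` and `F` has all its attachments on `F`, or all on the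
symmetric difference of `S` and `F`. -/
def BridgesAttach (ends : E → Sym2 V) (S F : Set E) : Prop :=
  (∀ e : E, e ∉ S ∪ F → (∀ a ∈ ends e, Touches ends (S ∪ F) a) →
    (∀ a ∈ ends e, Touches ends F a) ∨ ∀ a ∈ ends e, Touches ends (symmDiff S F) a) ∧
  ∀ q : V, ¬ Touches ends (S ∪ F) q →
    (∀ a ∈ Attach ends (S ∪ F) q, Touches ends F a) ∨
      ∀ a ∈ Attach ends (S ∪ F) q, Touches ends (symmDiff S F) a

end Pool.Agent.Lib.MP_061452_co
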