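import Pool.Agent.Lib.MP_061452_co.Real

set_option autoImplicit false

namespace Pool.Agent.Lib.MP_061452_co

open Function

variable {V E : Type} {ends : E → Sym2 V}

theorem touches_single {e : E} {x : V} : Touches ends {e} x ↔ x ∈ ends e :=
  ⟨fun ⟨_, he, k⟩ => he ▸ k, fun k => ⟨e, rfl, k⟩⟩

theorem deg_single {e : E} {x : V} (h : x ∈ ends e) : deg ends {e} x = 1 := by
  unfold deg
  rw [Set.ncard_eq_one]
  exact ⟨e, Set.ext fun f => ⟨fun k => k.1, fun k => ⟨k, k ▸ h⟩⟩⟩

theorem path_single {e : E} {a b : V} (h : ends e = s(a, b)) (hab : a ≠ b) :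
    IsPath ends {e} a b := by
  refine ⟨hab, deg_single (by rw [h]; simp), deg_single (by rw [h]; simp),
    fun x h1 h2 => Or.inl (deg_eq_zero ?_), fun x y hx hy => ?_⟩
  · rw [touches_single, h]; simp [h1, h2]
  · have r := reach_edge (X := {e}) rfl h
    rw [touches_single, h, Sym2.mem_iff] at hx hy
    rcases hx with rfl | rfl <;> rcases hy with rfl | rfl
    exacts [.refl _, r, r.symm, .refl _]

theorem path_cons [Fintype E] {W : Set E} {e : E} {a b d : V} (hW : IsPath ends W b d)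
    (h : ends e = s(a, b)) (ha : ¬ Touches ends W a) : IsPath ends ({e} ∪ W) a d := by
  have hd : Disjoint {e} W := Set.disjoint_singleton_left.2
    (fun k => ha ⟨e, k, by rw [h]; simp⟩)
  have nb : a ≠ b := fun k => ha (k ▸ hW.left)
  have nd : a ≠ d := fun k => ha (k ▸ hW.right)
  have z : ∀ x, x ≠ a → x ≠ b → deg ends {e} x = 0 := fun x h1 h2 =>
    deg_eq_zero (by rw [touches_single, h]; simp [h1, h2])
  refine ⟨nd, ?_, ?_, fun x h1 h2 => ?_, ?_⟩
  · rw [deg_union hd, deg_single (by rw [h]; simp), deg_eq_zero ha]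
  · rw [deg_union hd, z d nd.symm hW.1.symm, hW.2.2.1]
  · rw [deg_union hd]
    by_cases k : x = b
    · rw [k, deg_single (by rw [h]; simp), hW.2.1]; simp
    · rw [z x h1 k, zero_add]; exact hW.2.2.2.1 x k h2
  · have key : ∀ x, Touches ends ({e} ∪ W) x → (SimpleGraph.fromRel
        (fun a b : V => ∃ e' ∈ ({e} ∪ W : Set E), ends e' = s(a, b))).Reachable x b := by
      intro x hx
      rcases touches_union.1 hx with k | k
      · rw [touches_single, h, Sym2.mem_iff] at k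
        rcases k with rfl | rfl
        · exact reach_edge (X := {e} ∪ W) (Or.inl rfl) h
        · exact .refl _
      · exact reach_mono Set.subset_union_right (hW.2.2.2.2 _ _ k hW.left)
    exact fun x y hx hy => (key x hx).trans (key y hy).symm

theorem outside_adj {X : Set E} {a b : V} (h : (Outside ends X).Adj a b) :
    ¬ Touches ends X a ∧ ¬ Touches ends X b ∧ ∃ e, ends e = s(a, b) := by
  rw [Outside, SimpleGraph.fromRel_adj] at h
  rcases h.2 with k | ⟨h1, h2, e, k⟩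
  · exact k
  · exact ⟨h2, h1, e, by rw [k, Sym2.eq_swap]⟩

theorem outside_mono {X Y : Set E} (h : X ⊆ Y) {a b : V} (k : (Outside ends Y).Reachable a b) :
    (Outside ends X).Reachable a b := by
  refine k.mono (fun a b hab => ?_)
  have := outside_adj hab
  exact (SimpleGraph.fromRel_adj _ _ _).2 ⟨hab.ne, Or.inl
    ⟨fun j => this.1 (j.mono h), fun j => this.2.1 (j.mono h), this.2.2⟩⟩

theorem path_walk [Fintype E] {X : Set E} {b z : V} {e0 : E} (h0 : ends e0 = s(b, z))
    (n0 : e0 ∉ X) (hb : ¬ Touches ends X b) (hz : Touches ends X z) {a : V}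
    (wk : (Outside ends X).Walk a b) (hp : wk.IsPath) :
    ∃ W, IsPath ends W a z ∧ Disjoint W X ∧ ∀ x, Touches ends W x → x = z ∨ x ∈ wk.support := by
  induction wk with
  | nil =>
    refine ⟨{e0}, path_single h0 (fun k => hb (k ▸ hz)), Set.disjoint_singleton_left.2 n0,
      fun x hx => ?_⟩
    rw [touches_single, h0, Sym2.mem_iff] at hx
    simpa using hx.symm
  | @cons a a' b hadj wk ih =>
    rw [SimpleGraph.Walk.cons_isPath_iff] at hp
    obtain ⟨W, h1, h2, h3⟩ := ih h0 hb hp.1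
    obtain ⟨k1, _, e, k3⟩ := outside_adj hadj
    refine ⟨{e} ∪ W, path_cons h1 k3 (fun k => ?_), Set.disjoint_union_left.2
      ⟨Set.disjoint_singleton_left.2 (fun k => k1 ⟨e, k, by rw [k3]; simp⟩), h2⟩, fun x hx => ?_⟩
    · rcases h3 a k with j | j
      exacts [k1 (j ▸ hz), hp.2 j]
    · rw [SimpleGraph.Walk.support_cons, List.mem_cons]
      rcases touches_union.1 hx with k | k
      · rw [touches_single, k3, Sym2.mem_iff] at k
        rcases k with rfl | rfl
        · exact Or.inr (Or.inl rfl)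
        · exact Or.inr (Or.inr wk.start_mem_support)
      · exact (h3 x k).imp_right Or.inr

theorem outside_reach {X : Set E} {a b : V} (k : (Outside ends X).Reachable a b)
    (ha : ¬ Touches ends X a) : ¬ Touches ends X b := by
  obtain ⟨wk⟩ := k
  induction wk with
  | nil => exact ha
  | cons hadj _ ih => exact ih (outside_adj hadj).2.1

/-- A path through the outside graph between two vertices of `X`. -/
theorem path_through [Fintype E] {X : Set E} {a b y z : V} {e0 e1 : E} (h0 : ends e0 = s(b, z))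
    (h1 : ends e1 = s(y, a)) (hz : Touches ends X z) (hy : Touches ends X y) (hyz : y ≠ z)
    (ha : ¬ Touches ends X a) (r : (Outside ends X).Reachable a b) :
    ∃ W, IsPath ends W y z ∧ Disjoint W X ∧ ∀ x, Touches ends W x →
      x = y ∨ x = z ∨ (Outside ends X).Reachable a x := by
  classical
  have hb := outside_reach r ha
  obtain ⟨wk, hp⟩ := r.exists_isPath
  obtain ⟨W, k1, k2, k3⟩ := path_walk h0 (fun k => hb ⟨e0, k, by rw [h0]; simp⟩) hb hz wk hp
  have sup : ∀ x, x ∈ wk.support → (Outside ends X).Reachable a x :=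
    fun x hx => ⟨wk.takeUntil x hx⟩
  refine ⟨{e1} ∪ W, path_cons k1 h1 (fun k => ?_), Set.disjoint_union_left.2
    ⟨Set.disjoint_singleton_left.2 (fun k => ha ⟨e1, k, by rw [h1]; simp⟩), k2⟩, fun x hx => ?_⟩
  · rcases k3 y k with j | j
    exacts [hyz j, outside_reach (sup y j) ha hy]
  · rcases touches_union.1 hx with k | k
    · rw [touches_single, h1, Sym2.mem_iff] at k
      rcases k with rfl | rfl
      · exact Or.inl rfl
      · exact Or.inr (Or.inr (.refl _))
    · exact Or.inr ((k3 x k).imp_right (sup x))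

theorem exists_third [Fintype E] (hc : ∀ v : V, {e : E | v ∈ ends e}.ncard = 3) {S : Set E}
    (hS : IsCircuit ends S) {x : V} (hx : Touches ends S x) :
    ∃ t w, t ∉ S ∧ ends t = s(x, w) ∧ ∀ e, e ∉ S → x ∈ ends e → e = t := by
  have h1 := (hS.2.1 x).resolve_left (deg_ne_zero hx)
  have h2 : deg ends (S ∪ Sᶜ) x = 3 := by
    rw [← hc x, Set.union_compl_self]; simp [deg]
  rw [deg_union disjoint_compl_right, h1] at h2
  obtain ⟨t, ht⟩ := Set.ncard_eq_one.1 (show deg ends Sᶜ x = 1 by omega)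
  have m : t ∈ {e : E | e ∈ Sᶜ ∧ x ∈ ends e} := by rw [ht]; rfl
  refine ⟨t, Sym2.Mem.other m.2, m.1, (Sym2.other_spec m.2).symm, fun e h1 h2 => ?_⟩
  have : e ∈ {e : E | e ∈ Sᶜ ∧ x ∈ ends e} := ⟨h1, h2⟩
  rwa [ht] at this

variable {α : Type}

/-- The third edge at each vertex of the circuit, and its other end. -/
def Third (ends : E → Sym2 V) (S : Set E) (v : α → V) (t : α → E) (w : α → V) : Prop :=
  ∀ p, t p ∉ S ∧ ends (t p) = s(v p, w p) ∧ ∀ e, e ∉ S → v p ∈ ends e → e = t p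

/-- Two points are attachments of the same bridge of `X`. -/
def Same (ends : E → Sym2 V) (X : Set E) (t : α → E) (w : α → V) (p q : α) : Prop :=
  t p = t q ∨ (¬ Touches ends X (w p) ∧ (Outside ends X).Reachable (w p) (w q))

variable {S X : Set E} {σ : Equiv.Perm α} {v : α → V} {ε : α → E} {g : α} {c : α → Bool}
  {ρ : α → α} {t : α → E} {w : α → V}

theorem Third.chord (h : Enum ends S σ v ε) (ht : Third ends S v t w) {p q : α} (e : t p = t q) :
    q = p ∨ w p = v q := by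
  have : v q ∈ ends (t p) := by rw [e, (ht q).2.1]; simp
  rw [(ht p).2.1, Sym2.mem_iff] at this
  exact this.imp (fun k => h.1 k) Eq.symm

theorem Third.other (ht : Third ends S v t w) {p : α} {e : E}
    {z : V} (he : e ∉ S) (hz : ends e = s(z, v p)) : t p = e ∧ w p = z := by
  have e1 : e = t p := (ht p).2.2 e he (by rw [hz]; simp)
  refine ⟨e1.symm, ?_⟩
  have e2 := (ht p).2.1
  rw [← e1, hz, Sym2.eq_swap, Sym2.congr_right] at e2
  exact e2.symm

theorem same_equiv (h : Enum ends S σ v ε) (ht : Third ends S v t w) (hX : S ⊆ X) :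
    Equivalence (Same ends X t w) := by
  have hon : ∀ p, Touches ends X (v p) := fun p => (h.touches.2 ⟨p, rfl⟩).mono hX
  refine ⟨fun p => Or.inl rfl, ?_, ?_⟩
  · rintro p q (k | ⟨k1, k2⟩)
    exacts [Or.inl k.symm, Or.inr ⟨outside_reach k2 k1, k2.symm⟩]
  · rintro p q r (k | ⟨k1, k2⟩) (j | ⟨j1, j2⟩)
    · exact Or.inl (k.trans j)
    · rcases ht.chord h k.symm with e | e
      · rw [e]; exact Or.inr ⟨j1, j2⟩
      · exact absurd (e ▸ hon p) j1
    · rcases ht.chord h j with e | e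
      · rw [e]; exact Or.inr ⟨k1, k2⟩
      · exact absurd (e ▸ hon r) (outside_reach k2 k1)
    · exact Or.inr ⟨k1, k2.trans j2⟩

theorem same_path [Fintype E] (h : Enum ends S σ v ε) (ht : Third ends S v t w) (hX : S ⊆ X)
    {p q : α} (hpq : p ≠ q) (hs : Same ends X t w p q) :
    ∃ W, IsPath ends W (v p) (v q) ∧ Disjoint W S ∧ ∀ x, Touches ends W x →
      x = v p ∨ x = v q ∨ (¬ Touches ends X (w p) ∧ (Outside ends X).Reachable (w p) x) := by
  have hon : ∀ p, Touches ends X (v p) := fun p => (h.touches.2 ⟨p, rfl⟩).mono hX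
  have nv : v p ≠ v q := fun k => hpq (h.1 k)
  rcases hs with k | ⟨k1, k2⟩
  · have e := (ht.chord h k).resolve_left hpq.symm
    have e2 := (ht p).2.1
    rw [e] at e2
    refine ⟨{t p}, path_single e2 nv, Set.disjoint_singleton_left.2 (ht p).1, fun x hx => ?_⟩
    rw [touches_single, e2, Sym2.mem_iff] at hx
    exact hx.imp_right Or.inl
  · obtain ⟨W, h1, h2, h3⟩ := path_through (e0 := t q) (by rw [(ht q).2.1, Sym2.eq_swap])
      (ht p).2.1 (hon q) (hon p) nv k1 k2
    exact ⟨W, h1, h2.mono_right hX, fun x hx =>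
      (h3 x hx).imp_right (Or.imp_right (fun j => ⟨k1, j⟩))⟩

theorem symm_choice {β : Type} (hρ : Involutive ρ) (Q : α → β → Prop) (U : α → Prop)
    (h1 : ∀ p, U p → ∃ b, Q p b) (h2 : ∀ p b, U p → Q p b → Q (ρ p) b) [Nonempty β] :
    ∃ W : α → β, ∀ p, U p → W (ρ p) = W p ∧ Q p (W p) := by
  have key : ∀ z : Sym2 α, ∃ b, ∀ p, U p → z = s(p, ρ p) → Q p b := by
    intro z
    by_cases k : ∃ p, U p ∧ z = s(p, ρ p)
    · obtain ⟨p, hp, rfl⟩ := k
      obtain ⟨b, hb⟩ := h1 p hp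
      refine ⟨b, fun q _ e => ?_⟩
      rcases Sym2.eq_iff.1 e with ⟨e1, _⟩ | ⟨_, e2⟩
      · exact e1 ▸ hb
      · exact e2 ▸ h2 p b hp hb
    · exact ⟨Classical.arbitrary β, fun p hp e => absurd ⟨p, hp, e⟩ k⟩
  choose f hf using key
  exact ⟨fun p => f s(p, ρ p), fun p hp => ⟨by beta_reduce; rw [hρ p, Sym2.eq_swap], hf _ p hp rfl⟩⟩

/-- From a valid state that respects the bridges to a pair of circuits in the graph. -/
theorem realise [Fintype E] [DecidableEq α] (hl : ∀ e, ¬ (ends e).IsDiag)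
    (hc : ∀ v : V, {e : E | v ∈ ends e}.ncard = 3) (hS : IsCircuit ends S)
    (h : Enum ends S σ v ε) (ht : Third ends S v t w) (hv : Valid σ g c ρ) {P : Set E}
    {Root : α → Prop} (hP1 : Disjoint P S)
    (hP2 : ∀ p, Root p → ρ p ≠ p ∧ Root (ρ p) ∧ IsPath ends P (v p) (v (ρ p)))
    (hP3 : ∀ p q, Root p → Root q → q = p ∨ q = ρ p) (hP4 : P = ∅ ∨ ∃ p, Root p)
    (h1 : ∀ p, ρ p ≠ p → ¬ Root p → Same ends (S ∪ P) t w p (ρ p))
    (h2 : ∀ p q, ρ p ≠ p → ρ q ≠ q → ¬ Root p → ¬ Root q → Same ends (S ∪ P) t w p q →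
      q = p ∨ q = ρ p)
    (h3 : ∀ p q, ρ p = p → ρ q = q → Same ends (S ∪ P) t w p q → c p = c q)
    {p0 : α} (h0 : ρ p0 ≠ p0) :
    ∃ F, P ⊆ F ∧ F ≠ S ∧ IsCircuit ends F ∧ IsCircuit ends (symmDiff S F) ∧
      BridgesAttach ends S F := by
  classical
  have hρ := hv.1.1
  have eqv := same_equiv h ht (X := S ∪ P) Set.subset_union_left
  have hon : ∀ p, Touches ends (S ∪ P) (v p) :=
    fun p => (h.touches.2 ⟨p, rfl⟩).mono Set.subset_union_left
  have nr : ∀ p, ¬ Root p → ¬ Root (ρ p) := fun p hp k => hp (hρ p ▸ (hP2 _ k).2.1)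
  obtain ⟨W0, hW0⟩ := symm_choice hρ (fun p W => IsPath ends W (v p) (v (ρ p)) ∧ Disjoint W S ∧
      ∀ x, Touches ends W x → x = v p ∨ x = v (ρ p) ∨ (¬ Touches ends (S ∪ P) (w p) ∧
        (Outside ends (S ∪ P)).Reachable (w p) x)) (fun p => ρ p ≠ p ∧ ¬ Root p)
    (fun p hp => same_path h ht Set.subset_union_left hp.1.symm (h1 p hp.1 hp.2))
    (fun p W hp k => by
      rw [hρ p]
      refine ⟨k.1.symm, k.2.1, fun x hx => ?_⟩
      rcases k.2.2 x hx with j | j | ⟨j1, j2⟩
      · exact Or.inr (Or.inl j)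
      · exact Or.inl j
      · rcases h1 p hp.1 hp.2 with e | ⟨_, e⟩
        · exact absurd (((ht.chord h e).resolve_left hp.1) ▸ hon _) j1
        · exact Or.inr (Or.inr ⟨outside_reach e j1, e.symm.trans j2⟩))
  let W : α → Set E := fun p => if Root p then P else W0 p
  have Wr : ∀ p, Root p → W p = P := fun p hp => if_pos hp
  have Wn : ∀ p, ¬ Root p → W p = W0 p := fun p hp => if_neg hp
  have cross : ∀ p q, Root p → ρ q ≠ q → ¬ Root q → ∀ x, Touches ends P x →
      ¬ Touches ends (W0 q) x := by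
    intro p q hp hq hq' x hx k
    have av : ∀ r, ¬ Root r → x ≠ v r := fun r hr e =>
      (hP2 p hp).2.2.avoid hc hS hP1 (h.touches.2 ⟨r, rfl⟩) (fun j => hr (h.1 j ▸ hp))
        (fun j => hr (h.1 j ▸ (hP2 p hp).2.1)) (e ▸ hx)
    rcases (hW0 q ⟨hq, hq'⟩).2.2.2 x k with j | j | ⟨j1, j2⟩
    exacts [av _ hq' j, av _ (nr q hq') j,
      outside_reach j2 j1 (hx.mono Set.subset_union_right)]
  have hW : Paths ends S v ρ W := by
    refine ⟨fun p hp => ?_, fun p q hp hq e1 e2 x k1 k2 => ?_⟩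
    · by_cases r : Root p
      · rw [Wr p r, Wr _ (hP2 p r).2.1]; exact ⟨rfl, hP1, (hP2 p r).2.2⟩
      · rw [Wn p r, Wn _ (nr p r)]
        exact ⟨(hW0 p ⟨hp, r⟩).1, (hW0 p ⟨hp, r⟩).2.2.1, (hW0 p ⟨hp, r⟩).2.1⟩
    · by_cases r : Root p <;> by_cases r' : Root q
      · exact (hP3 p q r r').elim e1 e2
      · rw [Wr p r] at k1; rw [Wn q r'] at k2; exact cross p q r hq r' x k1 k2
      · rw [Wn p r] at k1; rw [Wr q r'] at k2; exact cross q p r' hp r x k2 k1
      rw [Wn p r] at k1; rw [Wn q r'] at k2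
      rcases (hW0 p ⟨hp, r⟩).2.2.2 x k1 with j | j | ⟨j1, j2⟩ <;>
        rcases (hW0 q ⟨hq, r'⟩).2.2.2 x k2 with i | i | ⟨i1, i2⟩
      · exact e1 (h.1 (i.symm.trans j))
      · exact e2 (by rw [← h.1 (i.symm.trans j), hρ q])
      · exact outside_reach i2 i1 (j ▸ hon _)
      · exact e2 (h.1 (i.symm.trans j))
      · exact e1 (hρ.injective (h.1 (i.symm.trans j)))
      · exact outside_reach i2 i1 (j ▸ hon _)
      · exact outside_reach j2 j1 (i ▸ hon _)
      · exact outside_reach j2 j1 (i ▸ hon _)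
      · exact (h2 p q hp hq r r' (Or.inr ⟨j1, j2.trans i2.symm⟩)).elim e1 e2
  have PR : P ⊆ Rset ρ W := by
    rcases hP4 with e | ⟨p, hp⟩
    · rw [e]; exact Set.empty_subset _
    · exact fun e he => ⟨p, (hP2 p hp).1, by rw [Wr p hp]; exact he⟩
  have PU : S ∪ P ⊆ S ∪ Rset ρ W := Set.union_subset_union_right _ PR
  refine ⟨Aset c ρ ε W true, fun e he => Or.inl (PR he), fun e => ?_,
    circuit_Aset hl hc hS h hv hW h0 true, ?_, ?_⟩
  · obtain ⟨f, hf, _⟩ := (hW.1 p0 h0).2.2.left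
    exact Set.disjoint_left.1 (hW.1 p0 h0).2.1 hf (e ▸ Or.inl ⟨p0, h0, hf⟩)
  · rw [symmDiff_Aset h hW]; exact circuit_Aset hl hc hS h hv hW h0 false
  unfold BridgesAttach
  rw [symmDiff_Aset h hW, union_Aset h]
  refine ⟨fun e he ha => attach_Aset h hW ha (fun p q hp hq k1 k2 => h3 p q hp hq (Or.inl ?_)),
    fun q0 hq0 => attach_Aset h hW (fun a ha => ha.1) (fun p q hp hq k1 k2 => h3 p q hp hq ?_)⟩
  · have n : e ∉ S := fun k => he (Or.inl k)
    rw [← (ht p).2.2 e n k1, ← (ht q).2.2 e n k2]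
  · obtain ⟨_, a, a1, a2, e, a3⟩ := k1
    obtain ⟨_, b, b1, b2, f, b3⟩ := k2
    have e1 := (ht.other (fun k => a1 ⟨e, Or.inl k, by rw [a3]; simp⟩) a3).2
    have e2 := (ht.other (fun k => b1 ⟨f, Or.inl k, by rw [b3]; simp⟩) b3).2
    refine Or.inr ⟨by rw [e1]; exact fun k => a1 (k.mono PU), ?_⟩
    rw [e1, e2]
    exact outside_mono PU (a2.symm.trans b2)

end Pool.Agent.Lib.MP_061452_co
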