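import Pool.Agent.Lib.MP_061452_co.ParV

set_option autoImplicit false

namespace Pool.Agent.Lib.MP_061452_co

open Function

variable {α : Type} [DecidableEq α] {σ : Equiv.Perm α} {g : α}

/-- The base point is joined to `h`, and the block is monochromatic and unused, or two of its
points are joined and the rest has colour true. -/
def Fp (g : α) (π : α → α) (h : α) (B : Finset α) (c : α → Bool) (ρ : α → α) : Prop :=
  ρ g = h ∧ ((Base π (fun p => p = g ∨ p = h) c ρ ∧ ∀ p ∈ B, ∀ q ∈ B, c p = c q) ∨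
    ∃ a ∈ B, ρ a ∈ B ∧ ρ a ≠ a ∧ Base π (fun p => p = g ∨ p = h ∨ p = a ∨ p = ρ a) c ρ ∧
      ∀ p ∈ B, p ≠ a → p ≠ ρ a → c p = true)

/-- The structure with a second distinguished point. -/
def StrF (g : α) (π : α → α) (h : α) (B : Finset α) : Prop :=
  Str g π B ∧ π h = h ∧ h ≠ g ∧ h ∉ B

variable {π : α → α} {B : Finset α} {c : α → Bool} {ρ : α → α} {i j h : α}

omit [DecidableEq α] in
theorem Fp_loc (hs : StrF g π h B) : Loc (Fp g π h B) := by
  intro c c' ρ hc k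
  have n1 : ∀ p ∈ B, p ≠ g := fun p hp e => hs.1.2.2.1 (e ▸ hp)
  have n2 : ∀ p ∈ B, p ≠ h := fun p hp e => hs.2.2.2 (e ▸ hp)
  refine ⟨k.1, ?_⟩
  rcases k.2 with ⟨b, m⟩ | ⟨a, ha, k1, k2, b, m⟩
  · have f : ∀ p ∈ B, c p = c' p := fun p hp => hc p (b.2 p (hs.1.2.2.2 p hp)
      (fun e => e.elim (n1 p hp) (n2 p hp)))
    exact Or.inl ⟨b.loc hc, fun p hp q hq => by rw [← f p hp, ← f q hq]; exact m p hp q hq⟩
  · refine Or.inr ⟨a, ha, k1, k2, b.loc hc, fun p hp e1 e2 => ?_⟩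
    rw [← hc p (b.2 p (hs.1.2.2.2 p hp) (by simp [n1 p hp, n2 p hp, e1, e2]))]
    exact m p hp e1 e2

theorem Fp.transport (k : Fp g π h B c ρ) (hig : i ≠ g) (hjg : j ≠ g) :
    Fp g (cj i j π) (Equiv.swap i j h) (B.image (Equiv.swap i j)) (c ∘ Equiv.swap i j)
      (cj i j ρ) := by
  have e : Equiv.swap i j g = g := Equiv.swap_apply_of_ne_of_ne hig.symm hjg.symm
  refine ⟨by simp only [cj, e, k.1], ?_⟩
  rcases k.2 with ⟨b, m⟩ | ⟨a, ha, k1, k2, b, m⟩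
  · refine Or.inl ⟨(b.transport i j).mono (fun p _ hx hn => absurd ?_ hn),
      fun p hp q hq => m _ (mem_image_swap.1 hp) _ (mem_image_swap.1 hq)⟩
    simpa only [Equiv.swap_apply_eq_iff, e] using hx
  · have e2 : cj i j ρ (Equiv.swap i j a) = Equiv.swap i j (ρ a) := by
      simp only [cj, Equiv.swap_apply_self]
    refine Or.inr ⟨Equiv.swap i j a, Finset.mem_image_of_mem _ ha,
      by rw [e2]; exact Finset.mem_image_of_mem _ k1,
      by rw [e2]; exact fun k => k2 ((Equiv.swap i j).injective k),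
      (b.transport i j).mono (fun p _ hx hn => absurd ?_ hn), fun p hp e3 e4 => ?_⟩
    · rw [e2]; simpa only [Equiv.swap_apply_eq_iff, e] using hx
    · rw [e2] at e4
      exact m _ (mem_image_swap.1 hp) (fun k => e3 (Equiv.swap_apply_eq_iff.1 k))
        (fun k => e4 (Equiv.swap_apply_eq_iff.1 k))

theorem Fp_swap (hig : i ≠ g) (hjg : j ≠ g) :
    Fp g π j B (c ∘ Equiv.swap i j) (cj i j ρ) ↔
      Fp g (cj i j π) i (B.image (Equiv.swap i j)) c ρ := by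
  constructor
  · intro h
    have := h.transport hig hjg
    rwa [comp_swap_swap, cj_cj, Equiv.swap_apply_right] at this
  · intro h
    have := h.transport hig hjg
    rwa [image_swap_swap, cj_cj, Equiv.swap_apply_left] at this

theorem StrF.swap (hs : StrF g π j B) (hig : i ≠ g) :
    StrF g (cj i j π) i (B.image (Equiv.swap i j)) :=
  ⟨hs.1.swap hig hs.2.2.1, by rw [cj_fix, Equiv.swap_apply_left]; exact hs.2.1, hig,
    by rw [mem_image_swap, Equiv.swap_apply_left]; exact hs.2.2.2⟩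

theorem Fp_flp (hπ : Involutive π) (hi : π i = i) (hB : i ∉ B) :
    Fp g π h B (flp i c) ρ ↔ Fp g π h B c ρ := by
  have key : ∀ c, Fp g π h B c ρ → Fp g π h B (flp i c) ρ := by
    intro c k
    have f : ∀ p ∈ B, flp i c p = c p := fun p hp => flp_ne (fun e : p = i => hB (e ▸ hp)) c
    refine ⟨k.1, ?_⟩
    rcases k.2 with ⟨b, m⟩ | ⟨a, ha, k1, k2, b, m⟩
    · exact Or.inl ⟨b.flp hπ hi, fun p hp q hq => by rw [f p hp, f q hq]; exact m p hp q hq⟩
    · exact Or.inr ⟨a, ha, k1, k2, b.flp hπ hi, fun p hp e1 e2 => by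
        rw [f p hp]; exact m p hp e1 e2⟩
  exact ⟨fun h => by have := key _ h; rwa [flp_flp] at this, key c⟩

omit [DecidableEq α] in
theorem Fp.fix (k : Fp g π h B c ρ) {p : α} (hp : π p = p) (h1 : p ≠ g) (h2 : p ≠ h)
    (h3 : p ∉ B) : ρ p = p := by
  rcases k.2 with ⟨b, _⟩ | ⟨a, ha, k1, _, b, _⟩
  · exact b.2 p hp (fun e => e.elim h1 h2)
  · refine b.2 p hp ?_
    rintro (e | e | e | e)
    exacts [h1 e, h2 e, h3 (e ▸ ha), h3 (e ▸ k1)]

omit [DecidableEq α] in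
theorem chord_ne (hπ : Involutive π) (hi : π i ≠ i) {p : α} (hp : π p = p) :
    i ≠ p ∧ π i ≠ p :=
  ⟨fun e => hi (by rw [e, hp]), fun e => hi (by rw [← hπ i, e, hp, hp])⟩

theorem Fp_chord (hs : StrF g π h B) (hi : π i ≠ i) :
    (ρ i = i ∧ Fp g π h B c ρ) ↔ (Fp g (rem π i) h B c ρ ∧ c i = c (π i)) := by
  have n1 := chord_ne hs.1.1 hi hs.1.2.1
  have n2 := chord_ne hs.1.1 hi hs.2.1
  have key1 := base_chord (X := fun p => p = g ∨ p = h) (c := c) (ρ := ρ) hs.1.1 hi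
    (fun e => e.elim n1.1 n2.1) (fun e => e.elim n1.2 n2.2)
  have key2 := fun a (ha : a ∈ B) (k1 : ρ a ∈ B) =>
    base_chord (X := fun p => p = g ∨ p = h ∨ p = a ∨ p = ρ a) (c := c) (ρ := ρ) hs.1.1 hi
    (by simp [n1.1, n2.1, (chord_ne hs.1.1 hi (hs.1.2.2.2 _ ha)).1,
      (chord_ne hs.1.1 hi (hs.1.2.2.2 _ k1)).1])
    (by simp [n1.2, n2.2, (chord_ne hs.1.1 hi (hs.1.2.2.2 _ ha)).2,
      (chord_ne hs.1.1 hi (hs.1.2.2.2 _ k1)).2])
  constructor
  · rintro ⟨e, k⟩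
    rcases k.2 with ⟨b, m⟩ | ⟨a, ha, k1, k2, b, m⟩
    · have := key1.1 ⟨e, b⟩
      exact ⟨⟨k.1, Or.inl ⟨this.1, m⟩⟩, this.2⟩
    · have := (key2 a ha k1).1 ⟨e, b⟩
      exact ⟨⟨k.1, Or.inr ⟨a, ha, k1, k2, this.1, m⟩⟩, this.2⟩
  · rintro ⟨k, e⟩
    rcases k.2 with ⟨b, m⟩ | ⟨a, ha, k1, k2, b, m⟩
    · have := key1.2 ⟨b, e⟩
      exact ⟨this.1, k.1, Or.inl ⟨this.2, m⟩⟩
    · have := (key2 a ha k1).2 ⟨b, e⟩
      exact ⟨this.1, k.1, Or.inr ⟨a, ha, k1, k2, this.2, m⟩⟩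

theorem Fp_unmerge_chord (hs : StrF g π j B) (hi : π i ≠ i) (hρ : Involutive ρ) :
    ((ρ i = i ∧ ρ j = j ∧ ρ g ≠ g) ∧ Fp g π j B c (unmerge i j g ρ)) ↔
      Fp g (rem π i) (π i) B c ρ := by
  have n1 := chord_ne hs.1.1 hi hs.1.2.1
  have n2 := chord_ne hs.1.1 hi hs.2.1
  have n3 : ∀ p ∈ B, i ≠ p ∧ π i ≠ p := fun p hp => chord_ne hs.1.1 hi (hs.1.2.2.2 p hp)
  have hjg := hs.2.2.1
  have um : ρ g = π i → ∀ a ∈ B, unmerge i j g ρ a = ρ a := fun e a ha =>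
    unmerge_o (n3 a ha).1.symm (fun k => hs.2.2.2 (k ▸ ha)) (fun k => hs.1.2.2.1 (k ▸ ha))
      (by rw [e]; exact (n3 a ha).2.symm)
  have key1 := fun ri rj rg => base_unmerge_chord (X := fun p => p = g ∨ p = j)
    (X' := fun p => p = g ∨ p = π i) (c := c) hs.1.1 hi hs.2.1 hs.1.2.1 n1.1 hjg hρ ri rj rg
    (Or.inl rfl) (Or.inr rfl) (Or.inl rfl) (Or.inr rfl)
    (fun p _ e2 e3 e4 => by simp [e2, e3, e4])
  have key2 := fun a b ri rj rg => base_unmerge_chord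
    (X := fun p => p = g ∨ p = j ∨ p = a ∨ p = b)
    (X' := fun p => p = g ∨ p = π i ∨ p = a ∨ p = b) (c := c) hs.1.1 hi hs.2.1 hs.1.2.1 n1.1 hjg
    hρ ri rj rg (Or.inl rfl) (Or.inr (Or.inl rfl)) (Or.inl rfl) (Or.inr (Or.inl rfl))
    (fun p _ e2 e3 e4 => by simp [e2, e3, e4])
  constructor
  · rintro ⟨⟨ri, rj, rg⟩, k⟩
    rcases k.2 with ⟨b, m⟩ | ⟨a, ha, k1, k2, b, m⟩
    · obtain ⟨e, b'⟩ := (key1 ri rj rg).1 b
      exact ⟨e, Or.inl ⟨b', m⟩⟩
    · obtain ⟨e, b'⟩ := (key2 _ _ ri rj rg).1 b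
      rw [um e a ha] at k1 k2 b' m
      exact ⟨e, Or.inr ⟨a, ha, k1, k2, b', m⟩⟩
  · intro k
    have ri : ρ i = i := k.fix rem_i n1.1 hi.symm (fun e => (n3 i e).1 rfl)
    have rj : ρ j = j := k.fix (rem_fix hs.2.1) hjg n2.2.symm hs.2.2.2
    have rg : ρ g ≠ g := by rw [k.1]; exact n1.2
    refine ⟨⟨ri, rj, rg⟩, unmerge_g n1.1 hjg, ?_⟩
    rcases k.2 with ⟨b, m⟩ | ⟨a, ha, k1, k2, b, m⟩
    · exact Or.inl ⟨(key1 ri rj rg).2 ⟨k.1, b⟩, m⟩
    · refine Or.inr ⟨a, ha, ?_⟩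
      rw [um k.1 a ha]
      exact ⟨k1, k2, (key2 _ _ ri rj rg).2 ⟨k.1, b⟩, m⟩

theorem Fp_unmerge_block (hs : StrF g π j B) (hi : i ∈ B) (hρ : Involutive ρ) :
    ((ρ i = i ∧ ρ j = j ∧ ρ g ≠ g) ∧ Fp g π j B c (unmerge i j g ρ)) ↔
      Vp g π (B.erase i) c ρ := by
  have hig : i ≠ g := fun e => hs.1.2.2.1 (e ▸ hi)
  have hij : i ≠ j := fun e => hs.2.2.2 (e ▸ hi)
  have hjg := hs.2.2.1
  have pi := hs.1.2.2.2 i hi
  have key := fun (hk : ρ g ∈ B) ri rj => base_unmerge_free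
    (X := fun p => p = g ∨ p = j ∨ p = i ∨ p = ρ g) (X' := fun p => p = g ∨ p = ρ g) (c := c)
    hs.1.1 pi hs.2.1 hs.1.2.1 (hs.1.2.2.2 _ hk) ri rj (by simp) (by simp) (by simp) (by simp)
    (by simp) (by simp) (fun p e1 e2 e3 e4 => by simp [e1, e2, e3, e4])
  constructor
  · rintro ⟨⟨ri, rj, rg⟩, k⟩
    obtain ⟨f1, f2⟩ := unmerge_facts hig hjg hρ ri rj
    rcases k.2 with ⟨b, m⟩ | ⟨a, ha, k1, k2, b, m⟩
    · have := b.2 i pi (fun e => e.elim hig hij)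
      rw [unmerge_i] at this
      exact absurd this f1
    have hinv := unmerge_invol hij hig hjg hρ ri rj rg
    by_cases e1 : i = a
    · subst e1
      rw [unmerge_i] at k1 b m
      exact ⟨Finset.mem_erase.2 ⟨f1, k1⟩, (key k1 ri rj).1 b, fun p hp hne =>
        m p (Finset.mem_of_mem_erase hp) (Finset.mem_erase.1 hp).1 hne⟩
    by_cases e2 : i = unmerge i j g ρ a
    · have e3 : a = ρ g := by rw [← hinv a, ← e2, unmerge_i]
      rw [← e2, e3] at b m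
      rw [e3] at ha
      refine ⟨Finset.mem_erase.2 ⟨f1, ha⟩, (key ha ri rj).1 (b.mono (fun p _ hx hn => ?_)),
        fun p hp hne => m p (Finset.mem_of_mem_erase hp) hne (Finset.mem_erase.1 hp).1⟩
      exact absurd (by tauto) hn
    · have := b.2 i pi (by simp only [not_or]; exact ⟨hig, hij, e1, e2⟩)
      rw [unmerge_i] at this
      exact absurd this f1
  · intro k
    have k1 := Finset.mem_erase.1 k.1
    have ri : ρ i = i := k.fix pi hig k1.1.symm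
    have rj : ρ j = j := k.fix hs.2.1 hjg (fun e => hs.2.2.2 (e ▸ k1.2))
    have rg : ρ g ≠ g := fun e => hs.1.2.2.1 (e ▸ k1.2)
    refine ⟨⟨ri, rj, rg⟩, unmerge_g hig hjg, Or.inr ⟨i, hi, ?_⟩⟩
    rw [unmerge_i]
    exact ⟨k1.2, k1.1, (key k1.2 ri rj).2 k.2.1, fun p hp e1 e2 =>
      k.2.2 p (Finset.mem_erase.2 ⟨e1, hp⟩) e2⟩

theorem Fp_erase (hs : StrF g π h B) (hi : i ∈ B) {q : α} (hq : q ∈ B.erase i)
    (hρ : Involutive ρ) (ri : ρ i = i) :
    Fp g π h B c ρ ↔ Fp g π h (B.erase i) c ρ ∧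
      c i = if ∀ p ∈ B, ρ p = p then c q else true := by
  have sub : ∀ p, p ∈ B.erase i → p ∈ B := fun p => Finset.mem_of_mem_erase
  have all : Base π (fun p => p = g ∨ p = h) c ρ → ∀ p ∈ B, ρ p = p := fun b p hp =>
    b.2 p (hs.1.2.2.2 p hp)
      (fun e => e.elim (fun e => hs.1.2.2.1 (e ▸ hp)) (fun e => hs.2.2.2 (e ▸ hp)))
  constructor
  · intro k
    rcases k.2 with ⟨b, m⟩ | ⟨a, ha, k1, k2, b, m⟩
    · rw [if_pos (all b)]
      exact ⟨⟨k.1, Or.inl ⟨b, fun p hp q hq => m p (sub p hp) q (sub q hq)⟩⟩,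
        m i hi q (sub q hq)⟩
    · rw [if_neg (fun e => k2 (e a ha))]
      have e1 : a ≠ i := fun e => k2 (by rw [e, ri])
      have e2 : ρ a ≠ i := fun e => e1 (by rw [← hρ a, e, ri])
      exact ⟨⟨k.1, Or.inr ⟨a, Finset.mem_erase.2 ⟨e1, ha⟩, Finset.mem_erase.2 ⟨e2, k1⟩, k2, b,
        fun p hp => m p (sub p hp)⟩⟩, m i hi e1.symm e2.symm⟩
  · rintro ⟨k, e⟩
    refine ⟨k.1, ?_⟩
    rcases k.2 with ⟨b, m⟩ | ⟨a, ha, k1, k2, b, m⟩
    · rw [if_pos (all b)] at e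
      have f : ∀ p ∈ B, c p = c q := fun p hp => by
        by_cases e' : p = i
        · rw [e', e]
        · exact m p (Finset.mem_erase.2 ⟨e', hp⟩) q hq
      exact Or.inl ⟨b, fun p hp p' hp' => by rw [f p hp, f p' hp']⟩
    · rw [if_neg (fun e => k2 (e a (sub a ha)))] at e
      refine Or.inr ⟨a, sub a ha, sub _ k1, k2, b, fun p hp e1 e2 => ?_⟩
      by_cases e' : p = i
      · rw [e', e]
      · exact m p (Finset.mem_erase.2 ⟨e', hp⟩) e1 e2

theorem Fp_erase_fix (hs : StrF g π h B) (hi : i ∈ B) (k : Fp g π h (B.erase i) c ρ) :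
    ρ i = i :=
  k.fix (hs.1.2.2.2 i hi) (fun e => hs.1.2.2.1 (e ▸ hi)) (fun e => hs.2.2.2 (e ▸ hi))
    (Finset.notMem_erase i B)

theorem Fp_single (hs : StrF g π h B) (hi : i ∈ B) (hB : B.erase i = ∅) (ri : ρ i = i) :
    Fp g π h B (flp i c) ρ ↔ Fp g π h B c ρ := by
  have one : ∀ p ∈ B, p = i := fun p hp => by
    by_contra e
    have : p ∈ B.erase i := Finset.mem_erase.2 ⟨e, hp⟩
    rw [hB] at this; simp at this
  have key : ∀ c, Fp g π h B c ρ → Fp g π h B (flp i c) ρ := by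
    intro c k
    refine ⟨k.1, ?_⟩
    rcases k.2 with ⟨b, _⟩ | ⟨a, ha, _, k2, _⟩
    · exact Or.inl ⟨b.flp hs.1.1 (hs.1.2.2.2 i hi), fun p hp q hq => by rw [one p hp, one q hq]⟩
    · exact absurd (by rw [one a ha, ri]) k2
  exact ⟨fun h => by have := key _ h; rwa [flp_flp] at this, key c⟩

omit [DecidableEq α] in
theorem Fp_partner (hρ : Involutive ρ) (k : Fp g π j B c ρ) : ρ j = g := by rw [← k.1, hρ g]

theorem Fp_D2 (hjg : j ≠ g) (hρ : Involutive ρ) :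
    ind (ρ i ≠ i ∧ ρ j = j) * (ind (Fp g π j B c ρ) + ind (Fp g π j B (flp j c) ρ)) = 0 := by
  by_cases rj : ρ j = j
  · rw [ind_neg (P := Fp g π j B c ρ) (fun k => hjg (rj.symm.trans (Fp_partner hρ k))),
      ind_neg (P := Fp g π j B (flp j c) ρ) (fun k => hjg (rj.symm.trans (Fp_partner hρ k)))]
    simp
  · rw [ind_neg (fun v => rj v.2), zero_mul]

omit [DecidableEq α] in
theorem Fp_D3 {W : Prop} {c' : α → Bool} (hjg : j ≠ g) (hρ : Involutive ρ)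
    (h1 : ρ i = i → ind (Fp g π j B c ρ) + ind (Fp g π j B c' ρ) = ind W) (h2 : W → ρ i = i)
    (h3 : W → ρ g = j) :
    ind (ρ i = i ∧ ρ j ≠ j) * (ind (Fp g π j B c ρ) + ind (Fp g π j B c' ρ)) = ind W := by
  by_cases ri : ρ i = i
  · rw [h1 ri, ← ind_and]
    refine ind_congr ⟨fun v => v.2, fun w => ⟨⟨ri, ?_⟩, w⟩⟩
    rw [← h3 w, hρ g, h3 w]; exact hjg.symm
  · rw [ind_neg (fun v => ri v.1), zero_mul, ind_neg (fun w => ri (h2 w))]

theorem count_F [Fintype α] {r : α → ℕ} (hr : ∀ p, p ≠ g → r (σ.symm p) < r p)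
    (π : α → α) (j : α) (B : Finset α) (hs : StrF g π j B) :
    Tot σ g (fun c ρ => ind (Fp g π j B c ρ)) = 1 := by
  generalize hn : ends π + B.card = n
  induction n using Nat.strong_induction_on generalizing π j B with
  | _ n ih =>
  generalize hm : r j = m
  induction m using Nat.strong_induction_on generalizing π j B with
  | _ m ih2 =>
  have hjg := hs.2.2.1
  by_cases hg : j = σ g
  · subst hg
    refine terminal hr hjg (fun c ρ _ h => h.1) ⟨Equiv.swap_apply_left _ _,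
      Or.inl ⟨⟨fun p hp => Or.inr ?_, fun p _ hx => ?_⟩, fun p hp q hq => ?_⟩⟩
    · have a1 := chord_ne hs.1.1 hp hs.1.2.1
      have a2 := chord_ne hs.1.1 hp hs.2.1
      exact ⟨Equiv.swap_apply_of_ne_of_ne a1.1 a2.1, Equiv.swap_apply_of_ne_of_ne a1.2 a2.2,
        by simp [a1.1, a1.2]⟩
    · exact Equiv.swap_apply_of_ne_of_ne (fun e => hx (Or.inl e)) (fun e => hx (Or.inr e))
    · have h1 : p ≠ g := fun e => hs.1.2.2.1 (e ▸ hp)
      have h2 : q ≠ g := fun e => hs.1.2.2.1 (e ▸ hq)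
      simp [h1, h2]
  have hlt := hr j hjg
  set i := σ.symm j with hi
  have hji : j = σ i := by rw [hi]; simp
  have hij : i ≠ j := fun e => by rw [e] at hlt; exact lt_irrefl _ hlt
  have hig : i ≠ g := fun e => hg (by rw [← e, ← hji])
  have sw := swap_lemma hji hij hig hjg (Fp_loc hs) (fun c ρ hρ h => Or.inr (Fp_partner hρ h))
  have e1 : Tot σ g (fun c ρ => ind (Fp g π j B (c ∘ Equiv.swap i j) (cj i j ρ))) = 1 := by
    rw [Tot_congr (fun c ρ _ => ind_congr (Fp_swap hig hjg)),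
      ih2 _ (hm ▸ hlt) _ _ _ (hs.swap hig) ?_ rfl]
    rw [ends_cj, Finset.card_image_of_injective _ (Equiv.swap i j).injective, hn]
  rw [e1] at sw
  suffices hz : Tot σ g (fun c ρ => ind (ρ i ≠ i ∧ ρ j = j) *
      (ind (Fp g π j B c ρ) + ind (Fp g π j B (flp j c) ρ)) +
      ind (ρ i = i ∧ ρ j ≠ j) * (ind (Fp g π j B c ρ) + ind (Fp g π j B (flp i c) ρ)) +
      ind (ρ i = i ∧ ρ j = j ∧ ρ g ≠ g) * ind (Fp g π j B c (unmerge i j g ρ))) = 0 by
    rw [hz] at sw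
    linear_combination sw - zmod2_add_self 1
  by_cases hπ : π i = i
  swap
  · have n1 := chord_ne hs.1.1 hπ hs.1.2.1
    have n2 := chord_ne hs.1.1 hπ hs.2.1
    have n3 : i ∉ B := fun e => hπ (hs.1.2.2.2 i e)
    have n4 : π i ∉ B := fun e => (chord_ne hs.1.1 hπ (hs.1.2.2.2 _ e)).2 rfl
    have c1 := ends_rem hπ
    rw [Tot_congr (f' := fun c ρ => ind (Fp g (rem π i) j B c ρ) +
      ind (Fp g (rem π i) (π i) B c ρ)), Tot_add,
      ih _ (by omega) _ _ _ ⟨hs.1.rem, rem_fix hs.2.1, hjg, hs.2.2.2⟩ rfl,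
      ih _ (by omega) _ _ _ ⟨hs.1.rem, rem_i', n1.2, n4⟩ rfl, zmod2_add_self]
    intro c ρ hv
    rw [Fp_D2 hjg hv.1.1, zero_add, ← ind_and, ind_congr (Fp_unmerge_chord hs hπ hv.1.1),
      Fp_D3 (W := Fp g (rem π i) j B c ρ) hjg hv.1.1 (fun ri => ?_)
        (fun w => w.fix rem_i hig hij n3) (fun w => w.1)]
    refine ind_bool (a := c i) (b := c (π i)) ?_ ?_
    · rw [← Fp_chord hs hπ]; exact (and_iff_right ri).symm
    · rw [← flp_self i c, ← flp_ne hπ c, ← Fp_flp (rem_invol hs.1.1) rem_i n3 (c := c),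
        ← Fp_chord hs hπ]
      exact (and_iff_right ri).symm
  by_cases hiB : i ∈ B
  swap
  · rw [← Tot_zero (σ := σ) (g := g)]
    refine Tot_congr (fun c ρ hv => ?_)
    rw [Fp_D2 hjg hv.1.1, ind_congr (Fp_flp hs.1.1 hπ hiB), zmod2_add_self, ← ind_and, mul_zero,
      zero_add, zero_add, ind_neg]
    rintro ⟨⟨ri, rj, _⟩, h⟩
    have := h.fix hπ hig hij hiB
    rw [unmerge_i] at this
    exact (unmerge_facts hig hjg hv.1.1 ri rj).1 this
  rcases (B.erase i).eq_empty_or_nonempty with hB | ⟨q, hq⟩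
  · rw [← Tot_zero (σ := σ) (g := g)]
    refine Tot_congr (fun c ρ hv => ?_)
    rw [Fp_D2 hjg hv.1.1, zero_add, ← ind_and, ind_congr (Fp_unmerge_block hs hiB hv.1.1),
      Fp_D3 (W := False) hjg hv.1.1 (fun ri => ?_) False.elim False.elim, ind_neg id, ind_neg]
    · simp
    · intro k; have := k.1; rw [hB] at this; simp at this
    · rw [ind_congr (Fp_single hs hiB hB ri), zmod2_add_self, ind_neg id]
  · have c2 := Finset.card_erase_lt_of_mem hiB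
    rw [Tot_congr (f' := fun c ρ => ind (Fp g π j (B.erase i) c ρ) +
      ind (Vp g π (B.erase i) c ρ)), Tot_add,
      ih _ (by omega) _ _ _ ⟨hs.1.erase, hs.2.1, hjg,
        fun e => hs.2.2.2 (Finset.mem_of_mem_erase e)⟩ rfl,
      count_V hr _ _ hs.1.erase, ind_pos ⟨q, hq⟩, zmod2_add_self]
    intro c ρ hv
    rw [Fp_D2 hjg hv.1.1, zero_add, ← ind_and, ind_congr (Fp_unmerge_block hs hiB hv.1.1),
      Fp_D3 (W := Fp g π j (B.erase i) c ρ) hjg hv.1.1 (fun ri => ?_)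
        (Fp_erase_fix hs hiB) (fun w => w.1)]
    refine ind_bool (Fp_erase hs hiB hq hv.1.1 ri) ?_
    rw [Fp_erase hs hiB hq hv.1.1 ri, Fp_flp hs.1.1 hπ (Finset.notMem_erase i B), flp_self,
      flp_ne (Finset.mem_erase.1 hq).1]

/-- There is a valid state of the required kind. -/
theorem exists_F [Fintype α] {r : α → ℕ} (hr : ∀ p, p ≠ g → r (σ.symm p) < r p)
    (hs : StrF g π h B) : ∃ c ρ, Valid σ g c ρ ∧ Fp g π h B c ρ := by
  by_contra hn
  have h1 := count_F hr π h B hs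
  rw [Tot_congr (f' := fun _ _ => 0) (fun c ρ hv => ind_neg (fun k => hn ⟨c, ρ, hv, k⟩)),
    Tot_zero] at h1
  exact absurd h1 (by decide)

end Pool.Agent.Lib.MP_061452_co
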