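import Pool.Agent.Lib.MP_061452_co.Base

set_option autoImplicit false

namespace Pool.Agent.Lib.MP_061452_co

open Function

variable {α : Type} [DecidableEq α] {σ : Equiv.Perm α} {g : α}

/-- Chords, a base point and a block of points on no chord. -/
def Str (g : α) (π : α → α) (B : Finset α) : Prop :=
  Involutive π ∧ π g = g ∧ g ∉ B ∧ ∀ p ∈ B, π p = p

/-- The base point is joined to a point of the block, the rest of the block has colour true. -/
def Vp (g : α) (π : α → α) (B : Finset α) (c : α → Bool) (ρ : α → α) : Prop :=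
  ρ g ∈ B ∧ Base π (fun p => p = g ∨ p = ρ g) c ρ ∧ ∀ p ∈ B, p ≠ ρ g → c p = true

variable {π : α → α} {B : Finset α} {c : α → Bool} {ρ : α → α} {i j : α}

theorem mem_image_swap {p : α} : p ∈ B.image (Equiv.swap i j) ↔ Equiv.swap i j p ∈ B := by
  rw [Finset.mem_image]
  constructor
  · rintro ⟨q, hq, rfl⟩; simpa using hq
  · intro h; exact ⟨_, h, by simp⟩

theorem image_swap_swap : (B.image (Equiv.swap i j)).image (Equiv.swap i j) = B := by
  ext p; simp only [mem_image_swap, Equiv.swap_apply_self]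

theorem comp_swap_swap : (c ∘ Equiv.swap i j) ∘ Equiv.swap i j = c := by
  funext p; simp

theorem Str.swap (h : Str g π B) (hig : i ≠ g) (hjg : j ≠ g) :
    Str g (cj i j π) (B.image (Equiv.swap i j)) := by
  have e : Equiv.swap i j g = g := Equiv.swap_apply_of_ne_of_ne hig.symm hjg.symm
  refine ⟨cj_invol h.1, by rw [cj_fix, e]; exact h.2.1, by rw [mem_image_swap, e]; exact h.2.2.1,
    fun p hp => ?_⟩
  rw [cj_fix]; exact h.2.2.2 _ (mem_image_swap.1 hp)

theorem Str.rem (h : Str g π B) : Str g (rem π i) B :=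
  ⟨rem_invol h.1, rem_fix h.2.1, h.2.2.1, fun p hp => rem_fix (h.2.2.2 p hp)⟩

theorem Str.erase (h : Str g π B) : Str g π (B.erase j) :=
  ⟨h.1, h.2.1, fun k => h.2.2.1 (Finset.mem_of_mem_erase k),
    fun p hp => h.2.2.2 p (Finset.mem_of_mem_erase hp)⟩

theorem Str.insert (h : Str g π B) (hj : π j = j) (hjg : j ≠ g) : Str g π (insert j B) := by
  refine ⟨h.1, h.2.1, fun k => ?_, fun p hp => ?_⟩
  · rcases Finset.mem_insert.1 k with k | k
    exacts [hjg k.symm, h.2.2.1 k]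
  · rcases Finset.mem_insert.1 hp with k | k
    exacts [k ▸ hj, h.2.2.2 p k]

omit [DecidableEq α] in
theorem Vp.fix (h : Vp g π B c ρ) {p : α} (hp : π p = p) (h1 : p ≠ g) (h2 : p ≠ ρ g) :
    ρ p = p := h.2.1.2 p hp (fun k => k.elim h1 h2)

omit [DecidableEq α] in
theorem Vp_loc (hs : Str g π B) : Loc (Vp g π B) := by
  intro c c' ρ hc h
  refine ⟨h.1, h.2.1.loc hc, fun p hp hne => ?_⟩
  rw [← hc p (h.fix (hs.2.2.2 p hp) (fun e => hs.2.2.1 (e ▸ hp)) hne)]
  exact h.2.2 p hp hne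

theorem Vp.transport (h : Vp g π B c ρ) (hig : i ≠ g) (hjg : j ≠ g) :
    Vp g (cj i j π) (B.image (Equiv.swap i j)) (c ∘ Equiv.swap i j) (cj i j ρ) := by
  have e : Equiv.swap i j g = g := Equiv.swap_apply_of_ne_of_ne hig.symm hjg.symm
  have e2 : cj i j ρ g = Equiv.swap i j (ρ g) := by simp only [cj, e]
  refine ⟨by rw [mem_image_swap, e2, Equiv.swap_apply_self]; exact h.1,
    (h.2.1.transport i j).mono (fun p _ hx hn => absurd ?_ hn), fun p hp hne => ?_⟩
  · rcases hx with k | k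
    · left; rw [Equiv.swap_apply_eq_iff, e] at k; exact k
    · right; rw [Equiv.swap_apply_eq_iff] at k; rw [e2]; exact k
  · refine h.2.2 _ (mem_image_swap.1 hp) (fun k => hne ?_)
    rw [Equiv.swap_apply_eq_iff] at k; rw [e2]; exact k

theorem Vp_swap (hig : i ≠ g) (hjg : j ≠ g) :
    Vp g π B (c ∘ Equiv.swap i j) (cj i j ρ) ↔
      Vp g (cj i j π) (B.image (Equiv.swap i j)) c ρ := by
  constructor
  · intro h
    have := h.transport hig hjg
    rwa [comp_swap_swap, cj_cj] at this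
  · intro h
    have := h.transport hig hjg
    rwa [image_swap_swap, cj_cj] at this

theorem Vp_flp (hπ : Involutive π) (hj : π j = j) (hB : j ∉ B) :
    Vp g π B (flp j c) ρ ↔ Vp g π B c ρ := by
  have key : ∀ c, Vp g π B c ρ → Vp g π B (flp j c) ρ := fun c h =>
    ⟨h.1, h.2.1.flp hπ hj, fun p hp hne => by
      rw [flp_ne (fun e : p = j => hB (e ▸ hp))]; exact h.2.2 p hp hne⟩
  exact ⟨fun h => by have := key _ h; rwa [flp_flp] at this, key c⟩

theorem Vp_erase (hj : j ∈ B) :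
    (ρ g ≠ j ∧ Vp g π B c ρ) ↔ (Vp g π (B.erase j) c ρ ∧ c j = true) := by
  constructor
  · rintro ⟨hne, h⟩
    exact ⟨⟨Finset.mem_erase.2 ⟨hne, h.1⟩, h.2.1,
      fun p hp => h.2.2 p (Finset.mem_of_mem_erase hp)⟩, h.2.2 j hj hne.symm⟩
  · rintro ⟨h, hc⟩
    refine ⟨(Finset.mem_erase.1 h.1).1, Finset.mem_of_mem_erase h.1, h.2.1, fun p hp hne => ?_⟩
    by_cases e : p = j
    · rw [e, hc]
    · exact h.2.2 p (Finset.mem_erase.2 ⟨e, hp⟩) hne

theorem Vp_chord (hs : Str g π B) (hi : π i ≠ i) :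
    (ρ i = i ∧ Vp g π B c ρ) ↔ (Vp g (rem π i) B c ρ ∧ c i = c (π i)) := by
  have key : ρ g ∈ B → ((ρ i = i ∧ Base π (fun p => p = g ∨ p = ρ g) c ρ) ↔
      (Base (rem π i) (fun p => p = g ∨ p = ρ g) c ρ ∧ c i = c (π i))) := by
    intro hg
    have f := hs.2.2.2 _ hg
    refine base_chord hs.1 hi ?_ ?_
    · rintro (k | k)
      · exact hi (by rw [k, hs.2.1])
      · exact hi (by rw [k, f])
    · rintro (k | k)
      · exact hi (by rw [← hs.1 i, k, hs.2.1, hs.2.1])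
      · exact hi (by rw [← hs.1 i, k, f, f])
  constructor
  · rintro ⟨e, h⟩
    have := (key h.1).1 ⟨e, h.2.1⟩
    exact ⟨⟨h.1, this.1, h.2.2⟩, this.2⟩
  · rintro ⟨h, e⟩
    have := (key h.1).2 ⟨h.2.1, e⟩
    exact ⟨this.1, h.1, this.2, h.2.2⟩

theorem Vp_unmerge (hs : Str g π B) (hi : π i ≠ i) (hj : j ∈ B) (hρ : Involutive ρ) :
    ((ρ i = i ∧ ρ j = j ∧ ρ g ≠ g) ∧ Vp g π B c (unmerge i j g ρ)) ↔
      (ρ g = π i ∧ Vp g (rem π i) (insert (π i) (B.erase j)) c ρ) := by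
  have hig : i ≠ g := fun e => hi (by rw [e, hs.2.1])
  have hjg : j ≠ g := fun e => hs.2.2.1 (e ▸ hj)
  have pj := hs.2.2.2 j hj
  have n1 : π i ≠ g := fun e => hi (by rw [← hs.1 i, e, hs.2.1, hs.2.1])
  have n2 : π i ≠ j := fun e => hi (by rw [← hs.1 i, e, pj, pj])
  have n3 : π i ∉ B := fun e => hi (by have := hs.2.2.2 _ e; rw [hs.1 i] at this; exact this.symm)
  have key : ρ i = i → ρ j = j → ρ g ≠ g →
      (Base π (fun p => p = g ∨ p = unmerge i j g ρ g) c (unmerge i j g ρ) ↔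
        (ρ g = π i ∧ Base (rem π i) (fun p => p = g ∨ p = π i) c ρ)) := by
    intro ri rj rg
    refine base_unmerge_chord hs.1 hi pj hs.2.1 hig hjg hρ ri rj rg (Or.inl rfl)
      (Or.inr (unmerge_g hig hjg).symm) (Or.inl rfl) (Or.inr rfl) (fun p _ e2 e3 e4 => ?_)
    rw [unmerge_g hig hjg]; simp [e2, e3, e4]
  constructor
  · rintro ⟨⟨ri, rj, rg⟩, h⟩
    obtain ⟨e, hb⟩ := (key ri rj rg).1 h.2.1
    refine ⟨e, by rw [e]; exact Finset.mem_insert_self _ _, by rw [e]; exact hb,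
      fun p hp hne => ?_⟩
    rcases Finset.mem_insert.1 hp with k | k
    · exact absurd (k.trans e.symm) hne
    · rw [Finset.mem_erase] at k
      exact h.2.2 p k.2 (by rw [unmerge_g hig hjg]; exact k.1)
  · rintro ⟨e, h⟩
    have ri : ρ i = i := h.fix rem_i hig (by rw [e]; exact hi.symm)
    have rj : ρ j = j := h.fix (rem_fix pj) hjg (by rw [e]; exact n2.symm)
    have rg : ρ g ≠ g := by rw [e]; exact n1
    refine ⟨⟨ri, rj, rg⟩, by rw [unmerge_g hig hjg]; exact hj,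
      (key ri rj rg).2 ⟨e, by have := h.2.1; rwa [e] at this⟩, fun p hp hne => ?_⟩
    rw [unmerge_g hig hjg] at hne
    exact h.2.2 p (Finset.mem_insert_of_mem (Finset.mem_erase.2 ⟨hne, hp⟩))
      (by rw [e]; exact fun k => n3 (k ▸ hp))

theorem Vp_partner (hs : Str g π B) (hj : j ∈ B) (hρ : Involutive ρ) (h : Vp g π B c ρ) :
    ρ j = j ∨ ρ j = g := by
  by_cases e : j = ρ g
  · right; rw [e, hρ g]
  · left; exact h.fix (hs.2.2.2 j hj) (fun k => hs.2.2.1 (k ▸ hj)) e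

theorem Vp_D2 (hs : Str g π B) (hj : j ∈ B) (hρ : Involutive ρ) :
    ind (ρ i ≠ i ∧ ρ j = j) * (ind (Vp g π B c ρ) + ind (Vp g π B (flp j c) ρ)) =
      ind (¬ ρ i = i ∧ Vp g π (B.erase j) c ρ) := by
  have hjg : j ≠ g := fun e => hs.2.2.1 (e ▸ hj)
  by_cases rj : ρ j = j
  · have ne : ρ g ≠ j := fun e => hjg (by rw [← hρ g, e, rj])
    rw [ind_bool (W := Vp g π (B.erase j) c ρ) (a := c j) (b := true), ind_and, ind_and,
      ind_pos rj, mul_one]
    · rw [← Vp_erase hj]; exact (and_iff_right ne).symm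
    · rw [← flp_self j c, ← Vp_flp hs.1 (hs.2.2.2 j hj) (Finset.notMem_erase j B) (c := c),
        ← Vp_erase hj]
      exact (and_iff_right ne).symm
  · rw [ind_neg (fun v => rj v.2), zero_mul, ind_neg]
    rintro ⟨_, h⟩
    exact rj (h.fix (hs.2.2.2 j hj) hjg (Finset.mem_erase.1 h.1).1.symm)

theorem Vp_D3 (hs : Str g π B) (hi : π i ≠ i) (hj : j ∈ B) (hρ : Involutive ρ) :
    ind (ρ i = i ∧ ρ j ≠ j) * (ind (Vp g π B c ρ) + ind (Vp g π B (flp i c) ρ)) =
      ind (ρ g = j ∧ Vp g (rem π i) B c ρ) := by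
  have hjg : j ≠ g := fun e => hs.2.2.1 (e ▸ hj)
  have hiB : i ∉ B := fun e => hi (hs.2.2.2 i e)
  by_cases ri : ρ i = i
  · rw [ind_bool (W := Vp g (rem π i) B c ρ) (a := c i) (b := c (π i)), ← ind_and]
    · apply ind_congr
      constructor
      · rintro ⟨⟨_, rj⟩, h⟩
        refine ⟨?_, h⟩
        rw [← (Vp_partner hs.rem hj hρ h).resolve_left rj, hρ j]
      · rintro ⟨e, h⟩
        refine ⟨⟨ri, ?_⟩, h⟩
        rw [← e, hρ g, e]; exact hjg.symm
    · rw [← Vp_chord hs hi]; exact (and_iff_right ri).symm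
    · rw [← flp_self i c, ← flp_ne hi c, ← Vp_flp (rem_invol hs.1) rem_i hiB (c := c),
        ← Vp_chord hs hi]
      exact (and_iff_right ri).symm
  · rw [ind_neg (fun v => ri v.1), zero_mul, ind_neg]
    rintro ⟨e, h⟩
    exact ri (h.fix rem_i (fun k => hi (by rw [k, hs.2.1])) (fun k => hiB (k ▸ h.1)))

theorem Vp_step_chord (hs : Str g π B) (hi : π i ≠ i) (hj : j ∈ B) (hji : j = σ i)
    (hv : LV σ g c ρ) :
    ind (ρ i ≠ i ∧ ρ j = j) * (ind (Vp g π B c ρ) + ind (Vp g π B (flp j c) ρ)) +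
      ind (ρ i = i ∧ ρ j ≠ j) * (ind (Vp g π B c ρ) + ind (Vp g π B (flp i c) ρ)) +
      ind (ρ i = i ∧ ρ j = j ∧ ρ g ≠ g) * ind (Vp g π B c (unmerge i j g ρ)) =
    ind (Vp g (rem π i) B c ρ) + ind (Vp g (rem π i) (insert (π i) (B.erase j)) c ρ) +
      ind (Vp g π (B.erase j) c ρ) + ind (Vp g (rem π i) (B.erase j) c ρ) := by
  have hjg : j ≠ g := fun e => hs.2.2.1 (e ▸ hj)
  have n3 : π i ∉ B.erase j := fun e => hi (by
    have := hs.2.2.2 _ (Finset.mem_of_mem_erase e); rw [hs.1 i] at this; exact this.symm)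
  rw [Vp_D2 hs hj hv.1, Vp_D3 hs hi hj hv.1, ← ind_and, ind_congr (Vp_unmerge hs hi hj hv.1),
    ind_split (Vp g (rem π i) B c ρ) (ρ g = j),
    ind_split (Vp g (rem π i) (insert (π i) (B.erase j)) c ρ) (ρ g = π i),
    ind_split (Vp g π (B.erase j) c ρ) (ρ i = i), ind_congr (Vp_erase hj),
    ind_congr (Vp_erase (Finset.mem_insert_self _ _)), Finset.erase_insert n3,
    ind_congr (Vp_chord hs.erase hi)]
  have key : ind (Vp g (rem π i) (B.erase j) c ρ ∧ c j = true) +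
      ind (Vp g (rem π i) (B.erase j) c ρ ∧ c (π i) = true) +
      ind (Vp g (rem π i) (B.erase j) c ρ ∧ c i = c (π i)) +
      ind (Vp g (rem π i) (B.erase j) c ρ) = 0 := by
    by_cases hU : Vp g (rem π i) (B.erase j) c ρ
    · have rj := hU.fix (rem_fix (hs.2.2.2 j hj)) hjg (Finset.mem_erase.1 hU.1).1.symm
      have e := (hv.2.1 j).1 rj
      rw [hji, Equiv.symm_apply_apply, ← hji] at e
      rw [e]
      cases c j <;> cases c (π i) <;> simp [ind, hU] <;> decide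
    · simp [ind, hU]
  linear_combination -key

theorem Vp_step_free (hs : Str g π B) (hi : π i = i) (hiB : i ∉ B) (hig : i ≠ g) (hj : j ∈ B)
    (hρ : Involutive ρ) :
    ind (ρ i ≠ i ∧ ρ j = j) * (ind (Vp g π B c ρ) + ind (Vp g π B (flp j c) ρ)) +
      ind (ρ i = i ∧ ρ j ≠ j) * (ind (Vp g π B c ρ) + ind (Vp g π B (flp i c) ρ)) +
      ind (ρ i = i ∧ ρ j = j ∧ ρ g ≠ g) * ind (Vp g π B c (unmerge i j g ρ)) = 0 := by
  have hjg : j ≠ g := fun e => hs.2.2.1 (e ▸ hj)
  have z1 : ind (¬ ρ i = i ∧ Vp g π (B.erase j) c ρ) = 0 := ind_neg (fun v =>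
    v.1 (v.2.fix hi hig (fun k => hiB (Finset.mem_of_mem_erase (k ▸ v.2.1)))))
  have z3 : ind ((ρ i = i ∧ ρ j = j ∧ ρ g ≠ g) ∧ Vp g π B c (unmerge i j g ρ)) = 0 := by
    apply ind_neg
    rintro ⟨⟨ri, rj, _⟩, h⟩
    have := h.fix hi hig (fun k => hiB (k ▸ h.1))
    rw [unmerge_i] at this
    exact (unmerge_facts hig hjg hρ ri rj).1 this
  rw [Vp_D2 hs hj hρ, z1, ind_congr (Vp_flp hs.1 hi hiB), zmod2_add_self, ← ind_and, z3]
  simp

theorem count_V [Fintype α] {r : α → ℕ} (hr : ∀ p, p ≠ g → r (σ.symm p) < r p)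
    (π : α → α) (B : Finset α) (hs : Str g π B) :
    Tot σ g (fun c ρ => ind (Vp g π B c ρ)) = ind B.Nonempty := by
  generalize hn : ends π + B.card = n
  induction n using Nat.strong_induction_on generalizing π B with
  | _ n ih =>
  generalize hm : ∑ p ∈ B, r p = m
  induction m using Nat.strong_induction_on generalizing π B with
  | _ m ih2 =>
  rcases B.eq_empty_or_nonempty with rfl | hne
  · rw [ind_neg (by simp), ← Tot_zero (σ := σ) (g := g)]
    exact Tot_congr (fun c ρ _ => ind_neg (fun h => by simpa using h.1))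
  rw [ind_pos hne]
  by_cases hg : σ g ∈ B
  · have hne' : σ g ≠ g := fun e => hs.2.2.1 (e ▸ hg)
    refine terminal hr hne' (fun c ρ hv h => ?_) ⟨by simpa using hg, ⟨fun p hp => Or.inr ?_,
      fun p _ hx => ?_⟩, fun p hp _ => ?_⟩
    · by_contra hn
      have r1 := h.fix (hs.2.2.2 _ hg) hne' (Ne.symm hn)
      have r2 := (hv.2.1 _).1 r1
      have r3 := hv.used (p := g) (fun e => hs.2.2.1 (e ▸ h.1))
      rw [Equiv.symm_apply_apply, h.2.2 _ hg (Ne.symm hn)] at r2
      exact r3 (hv.2.2.trans r2.symm)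
    · have f := hs.2.2.2 _ hg
      have a1 : p ≠ g := fun e => hp (by rw [e, hs.2.1])
      have a2 : p ≠ σ g := fun e => hp (by rw [e, f])
      have a3 : π p ≠ g := fun e => hp (by rw [← hs.1 p, e, hs.2.1, hs.2.1])
      have a4 : π p ≠ σ g := fun e => hp (by rw [← hs.1 p, e, f, f])
      exact ⟨Equiv.swap_apply_of_ne_of_ne a1 a2, Equiv.swap_apply_of_ne_of_ne a3 a4,
        by simp [a1, a3]⟩
    · rw [Equiv.swap_apply_left] at hx
      exact Equiv.swap_apply_of_ne_of_ne (fun e => hx (Or.inl e)) (fun e => hx (Or.inr e))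
    · have : p ≠ g := fun e => hs.2.2.1 (e ▸ hp)
      simp [this]
  obtain ⟨j, hj, hmin⟩ := B.exists_min_image r hne
  have hjg : j ≠ g := fun e => hs.2.2.1 (e ▸ hj)
  have hlt := hr j hjg
  set i := σ.symm j with hi
  have hji : j = σ i := by rw [hi]; simp
  have hij : i ≠ j := fun e => by rw [e] at hlt; exact lt_irrefl _ hlt
  have hig : i ≠ g := fun e => hg (by rw [← e, ← hji]; exact hj)
  have hiB : i ∉ B := fun e => absurd (hmin i e) (not_le.2 hlt)
  have sw := swap_lemma hji hij hig hjg (Vp_loc hs) (fun c ρ hρ h => Vp_partner hs hj hρ h)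
  have e1 : Tot σ g (fun c ρ => ind (Vp g π B (c ∘ Equiv.swap i j) (cj i j ρ))) = 1 := by
    rw [Tot_congr (fun c ρ _ => ind_congr (Vp_swap hig hjg)),
      ih2 _ ?_ _ _ (hs.swap hig hjg) ?_ rfl, ind_pos (hne.image _)]
    · rw [← hm, Finset.sum_image (fun x _ y _ e => (Equiv.swap i j).injective e)]
      refine Finset.sum_lt_sum (fun p hp => ?_) ⟨j, hj, by simpa using hlt⟩
      by_cases e : p = j
      · rw [e]; simpa using hlt.le
      · rw [Equiv.swap_apply_of_ne_of_ne (fun k : p = i => hiB (k ▸ hp)) e]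
    · rw [ends_cj, Finset.card_image_of_injective _ (Equiv.swap i j).injective, hn]
  rw [e1] at sw
  by_cases hπ : π i = i
  · rw [Tot_congr (fun c ρ hv => Vp_step_free hs hπ hiB hig hj hv.1.1), Tot_zero] at sw
    linear_combination sw - zmod2_add_self 1
  · have c1 := ends_rem hπ
    have c2 := Finset.card_erase_lt_of_mem hj
    have c3 := Finset.card_insert_le (π i) (B.erase j)
    have n1 : π i ≠ g := fun e => hπ (by rw [← hs.1 i, e, hs.2.1, hs.2.1])
    rw [Tot_congr (fun c ρ hv => Vp_step_chord hs hπ hj hji hv.1), Tot_add, Tot_add, Tot_add,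
      ih _ (by omega) _ _ hs.rem rfl, ih _ (by omega) _ _ (hs.rem.erase.insert rem_i' n1) rfl,
      ih _ (by omega) _ _ hs.erase rfl, ih _ (by omega) _ _ hs.rem.erase rfl, ind_pos hne,
      ind_pos (Finset.insert_nonempty _ _)] at sw
    linear_combination sw + zmod2_add_self (ind (B.erase j).Nonempty)

end Pool.Agent.Lib.MP_061452_co
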