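import Pool.Agent.Lib.MP_061452_co.Swap

set_option autoImplicit false

namespace Pool.Agent.Lib.MP_061452_co

open Function

theorem ind_and (P Q : Prop) : ind (P ∧ Q) = ind P * ind Q := by
  by_cases hP : P <;> by_cases hQ : Q <;> simp [ind, hP, hQ]

theorem sum_ind_bij {S : Type} [Fintype S] (A B : S → Prop) (F : S → ZMod 2) (m u : S → S)
    (hm : ∀ s, A s → B (m s)) (hu : ∀ s, B s → A (u s)) (hum : ∀ s, A s → u (m s) = s)
    (hmu : ∀ s, B s → m (u s) = s) :
    ∑ s, ind (A s) * F s = ∑ s, ind (B s) * F (u s) := by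
  classical
  have e1 : ∀ (A : S → Prop) (F : S → ZMod 2),
      ∑ s, ind (A s) * F s = ∑ s ∈ Finset.univ.filter A, F s := by
    intro A F
    rw [Finset.sum_filter]
    refine Finset.sum_congr rfl (fun s _ => ?_)
    by_cases h : A s
    · rw [ind_pos h, if_pos h, one_mul]
    · rw [ind_neg h, if_neg h, zero_mul]
  rw [e1, e1]
  refine Finset.sum_nbij' m u ?_ ?_ ?_ ?_ ?_
  · intro s hs; simp only [Finset.mem_filter, Finset.mem_univ, true_and] at hs ⊢; exact hm s hs
  · intro s hs; simp only [Finset.mem_filter, Finset.mem_univ, true_and] at hs ⊢; exact hu s hs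
  · intro s hs; simp only [Finset.mem_filter, Finset.mem_univ, true_and] at hs; exact hum s hs
  · intro s hs; simp only [Finset.mem_filter, Finset.mem_univ, true_and] at hs; exact hmu s hs
  · intro s hs; simp only [Finset.mem_filter, Finset.mem_univ, true_and] at hs; rw [hum s hs]

variable {α : Type} [DecidableEq α]

/-- A state in which both colour classes are single circuits. -/
def Valid (σ : Equiv.Perm α) (g : α) (c : α → Bool) (ρ : α → α) : Prop :=
  LV σ g c ρ ∧ Conn σ c ρ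

/-- The sum of a function over all valid states. -/
noncomputable def Tot [Fintype α] (σ : Equiv.Perm α) (g : α)
    (f : (α → Bool) → (α → α) → ZMod 2) : ZMod 2 :=
  ∑ s : (α → Bool) × (α → α), ind (Valid σ g s.1 s.2) * f s.1 s.2

/-- Changing the colour of one point. -/
def flp (i : α) (c : α → Bool) : α → Bool := update c i (!c i)

/-- Conjugation by a transposition. -/
def cj (i j : α) (ρ : α → α) : α → α := fun p => Equiv.swap i j (ρ (Equiv.swap i j p))

/-- Joining the partners of `i` and `j`, the latter being `g`. -/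
def merge (i j g : α) (ρ : α → α) : α → α := fun p =>
  if p = i then i else if p = j then j else if p = g then ρ i else if p = ρ i then g else ρ p

/-- The inverse operation. -/
def unmerge (i j g : α) (ρ : α → α) : α → α := fun p =>
  if p = i then ρ g else if p = j then g else if p = g then j else if p = ρ g then i else ρ p

variable {σ : Equiv.Perm α} {g : α}

theorem Tot_congr [Fintype α] {f f' : (α → Bool) → (α → α) → ZMod 2}
    (h : ∀ c ρ, Valid σ g c ρ → f c ρ = f' c ρ) : Tot σ g f = Tot σ g f' := by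
  refine Finset.sum_congr rfl (fun s _ => ?_)
  by_cases hv : Valid σ g s.1 s.2
  · rw [h _ _ hv]
  · rw [ind_neg hv, zero_mul, zero_mul]

theorem Tot_add [Fintype α] (f f' : (α → Bool) → (α → α) → ZMod 2) :
    Tot σ g (fun c ρ => f c ρ + f' c ρ) = Tot σ g f + Tot σ g f' := by
  simp only [Tot, mul_add, Finset.sum_add_distrib]

theorem Tot_zero [Fintype α] : Tot σ g (fun _ _ => 0) = 0 := by simp [Tot]

theorem flp_self (i : α) (c : α → Bool) : flp i c i = !c i := by simp [flp]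
theorem flp_ne {i p : α} (h : p ≠ i) (c : α → Bool) : flp i c p = c p := by simp [flp, h]
theorem flp_flp (i : α) (c : α → Bool) : flp i (flp i c) = c := by
  funext p
  by_cases h : p = i
  · rw [h, flp_self, flp_self]; simp
  · rw [flp_ne h, flp_ne h]

theorem cj_cj (i j : α) (ρ : α → α) : cj i j (cj i j ρ) = ρ := by
  funext p; simp [cj]

theorem cj_invol {i j : α} {ρ : α → α} (h : Involutive ρ) : Involutive (cj i j ρ) := by
  intro p; simp [cj, h (Equiv.swap i j p)]

theorem cj_fix (i j : α) (ρ : α → α) (p : α) :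
    cj i j ρ p = p ↔ ρ (Equiv.swap i j p) = Equiv.swap i j p := by
  unfold cj
  rw [Equiv.swap_apply_eq_iff]

/-- The recolouring that goes with the exchange of two neighbouring points. -/
def recol (σ : Equiv.Perm α) (i j : α) (c : α → Bool) : α → Bool :=
  update c i (xor (c (σ.symm i)) (xor (c j) (c i)))

theorem recol_ne {i j p : α} (h : p ≠ i) (c : α → Bool) : recol σ i j c p = c p := by
  simp [recol, h]
theorem recol_self (i j : α) (c : α → Bool) :
    recol σ i j c i = xor (c (σ.symm i)) (xor (c j) (c i)) := by simp [recol]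

theorem recol_recol {i j : α} (hj : j = σ i) (hij : i ≠ j) (c : α → Bool) :
    recol σ i j (recol σ i j c) = c := by
  have hsi : σ.symm i ≠ i := fun e => hij (by rw [hj]; exact (Equiv.symm_apply_eq σ).1 e)
  funext p
  by_cases h : p = i
  · rw [h, recol_self, recol_ne hsi, recol_ne hij.symm, recol_self]
    cases c (σ.symm i) <;> cases c j <;> cases c i <;> rfl
  · rw [recol_ne h, recol_ne h]

theorem LV_recol {i j : α} (hj : j = σ i) (hij : i ≠ j) (hjg : j ≠ g) {c : α → Bool}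
    {ρ : α → α} (h : LV σ g c ρ) : LV σ g (recol σ i j c) (cj i j ρ) := by
  have hsi : σ.symm i ≠ i := fun e => hij (by rw [hj]; exact (Equiv.symm_apply_eq σ).1 e)
  have hsj : σ.symm j = i := by rw [hj]; simp
  have hs : ∀ p, p ≠ j → σ.symm p ≠ i := fun p hp e => hp (by rw [hj, ← e]; simp)
  refine ⟨cj_invol h.1, fun p => ?_, by rw [recol_ne (hs g hjg.symm)]; exact h.2.2⟩
  rw [cj_fix, h.2.1]
  by_cases e1 : p = i
  · rw [e1, Equiv.swap_apply_left, hsj, recol_ne hsi, recol_self]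
    cases c (σ.symm i) <;> cases c j <;> cases c i <;> simp
  by_cases e2 : p = j
  · rw [e2, Equiv.swap_apply_right, hsj, recol_ne hij.symm, recol_self]
    cases c (σ.symm i) <;> cases c j <;> cases c i <;> simp
  rw [Equiv.swap_apply_of_ne_of_ne e1 e2, recol_ne e1, recol_ne (hs p e2)]

theorem LV_flp {i j : α} (hj : j = σ i) (hij : i ≠ j) (hjg : j ≠ g) {c : α → Bool}
    {ρ ρ' : α → α} (h : LV σ g c ρ) (h' : Involutive ρ') (hi : ρ' i = i ↔ ρ i ≠ i)
    (hjj : ρ' j = j ↔ ρ j ≠ j) (ho : ∀ p, p ≠ i → p ≠ j → (ρ' p = p ↔ ρ p = p)) :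
    LV σ g (flp i c) ρ' := by
  have hsi : σ.symm i ≠ i := fun e => hij (by rw [hj]; exact (Equiv.symm_apply_eq σ).1 e)
  have hsj : σ.symm j = i := by rw [hj]; simp
  have hs : ∀ p, p ≠ j → σ.symm p ≠ i := fun p hp e => hp (by rw [hj, ← e]; simp)
  refine ⟨h', fun p => ?_, by rw [flp_ne (hs g hjg.symm)]; exact h.2.2⟩
  by_cases e1 : p = i
  · rw [e1, hi, Ne, h.2.1, flp_ne hsi, flp_self]
    cases c (σ.symm i) <;> cases c i <;> simp
  by_cases e2 : p = j
  · rw [e2, hjj, Ne, h.2.1, hsj, flp_ne hij.symm, flp_self]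
    cases c j <;> cases c i <;> simp
  rw [ho p e1 e2, h.2.1, flp_ne e1, flp_ne (hs p e2)]

section merging
variable {i j : α} {ρ : α → α}

theorem merge_i : merge i j g ρ i = i := by simp [merge]
theorem merge_j (hij : i ≠ j) : merge i j g ρ j = j := by simp [merge, hij.symm]
theorem merge_g (hig : i ≠ g) (hjg : j ≠ g) : merge i j g ρ g = ρ i := by
  simp [merge, hig.symm, hjg.symm]
theorem merge_k {k : α} (hk : ρ i = k) (h1 : k ≠ i) (h2 : k ≠ j) (h3 : k ≠ g) :
    merge i j g ρ k = g := by simp [merge, hk, h1, h2, h3]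
theorem merge_o {p : α} (h1 : p ≠ i) (h2 : p ≠ j) (h3 : p ≠ g) (h4 : p ≠ ρ i) :
    merge i j g ρ p = ρ p := by simp [merge, h1, h2, h3, h4]

theorem unmerge_i : unmerge i j g ρ i = ρ g := by simp [unmerge]
theorem unmerge_j (hij : i ≠ j) : unmerge i j g ρ j = g := by simp [unmerge, hij.symm]
theorem unmerge_g (hig : i ≠ g) (hjg : j ≠ g) : unmerge i j g ρ g = j := by
  simp [unmerge, hig.symm, hjg.symm]
theorem unmerge_k {k : α} (hk : ρ g = k) (h1 : k ≠ i) (h2 : k ≠ j) (h3 : k ≠ g) :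
    unmerge i j g ρ k = i := by simp [unmerge, hk, h1, h2, h3]
theorem unmerge_o {p : α} (h1 : p ≠ i) (h2 : p ≠ j) (h3 : p ≠ g) (h4 : p ≠ ρ g) :
    unmerge i j g ρ p = ρ p := by simp [unmerge, h1, h2, h3, h4]

omit [DecidableEq α] in
theorem merge_facts (hij : i ≠ j) (hig : i ≠ g) (h : Involutive ρ) (_hi : ρ i ≠ i)
    (hjj : ρ j = g) : ρ i ≠ j ∧ ρ i ≠ g ∧ ρ g = j :=
  ⟨fun e => hig (by rw [← h i, e, hjj]), fun e => hij (h.injective (by rw [e, hjj])),
    by rw [← hjj, h j]⟩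

omit [DecidableEq α] in
theorem unmerge_facts (hig : i ≠ g) (hjg : j ≠ g) (h : Involutive ρ) (hi : ρ i = i)
    (hjj : ρ j = j) : ρ g ≠ i ∧ ρ g ≠ j :=
  ⟨fun e => hig (h.injective (by rw [e, hi])), fun e => hjg (h.injective (by rw [e, hjj]))⟩

theorem merge_invol (hij : i ≠ j) (hig : i ≠ g) (hjg : j ≠ g) (h : Involutive ρ) (hi : ρ i ≠ i)
    (hjj : ρ j = g) : Involutive (merge i j g ρ) := by
  obtain ⟨f1, f2, f3⟩ := merge_facts hij hig h hi hjj
  intro p
  by_cases e1 : p = i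
  · rw [e1, merge_i, merge_i]
  by_cases e2 : p = j
  · rw [e2, merge_j hij, merge_j hij]
  by_cases e3 : p = g
  · rw [e3, merge_g hig hjg, merge_k rfl hi f1 f2]
  by_cases e4 : p = ρ i
  · rw [e4, merge_k rfl hi f1 f2, merge_g hig hjg]
  rw [merge_o e1 e2 e3 e4, merge_o, h p]
  · exact fun e => e4 (by rw [← e, h p])
  · exact fun e => e3 (by rw [← h p, e, hjj])
  · exact fun e => e2 (by rw [← h p, e, f3])
  · exact fun e => e1 (h.injective e)

theorem unmerge_invol (hij : i ≠ j) (hig : i ≠ g) (hjg : j ≠ g) (h : Involutive ρ)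
    (hi : ρ i = i) (hjj : ρ j = j) (hg : ρ g ≠ g) : Involutive (unmerge i j g ρ) := by
  obtain ⟨f1, f2⟩ := unmerge_facts hig hjg h hi hjj
  intro p
  by_cases e1 : p = i
  · rw [e1, unmerge_i, unmerge_k rfl f1 f2 hg]
  by_cases e2 : p = j
  · rw [e2, unmerge_j hij, unmerge_g hig hjg]
  by_cases e3 : p = g
  · rw [e3, unmerge_g hig hjg, unmerge_j hij]
  by_cases e4 : p = ρ g
  · rw [e4, unmerge_k rfl f1 f2 hg, unmerge_i]
  rw [unmerge_o e1 e2 e3 e4, unmerge_o, h p]
  · exact fun e => e1 (by rw [← h p, e, hi])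
  · exact fun e => e2 (by rw [← h p, e, hjj])
  · exact fun e => e4 (by rw [← e, h p])
  · exact fun e => e3 (h.injective e)

theorem unmerge_merge (hij : i ≠ j) (hig : i ≠ g) (hjg : j ≠ g) (h : Involutive ρ)
    (hi : ρ i ≠ i) (hjj : ρ j = g) : unmerge i j g (merge i j g ρ) = ρ := by
  obtain ⟨f1, f2, f3⟩ := merge_facts hij hig h hi hjj
  funext p
  by_cases e1 : p = i
  · rw [e1, unmerge_i, merge_g hig hjg]
  by_cases e2 : p = j
  · rw [e2, unmerge_j hij, hjj]
  by_cases e3 : p = g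
  · rw [e3, unmerge_g hig hjg, f3]
  by_cases e4 : p = ρ i
  · rw [e4, unmerge_k (merge_g hig hjg) hi f1 f2, h i]
  rw [unmerge_o e1 e2 e3 (by rw [merge_g hig hjg]; exact e4), merge_o e1 e2 e3 e4]

theorem merge_unmerge (hij : i ≠ j) (hig : i ≠ g) (hjg : j ≠ g) (h : Involutive ρ)
    (hi : ρ i = i) (hjj : ρ j = j) (hg : ρ g ≠ g) : merge i j g (unmerge i j g ρ) = ρ := by
  obtain ⟨f1, f2⟩ := unmerge_facts hig hjg h hi hjj
  funext p
  by_cases e1 : p = i
  · rw [e1, merge_i, hi]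
  by_cases e2 : p = j
  · rw [e2, merge_j hij, hjj]
  by_cases e3 : p = g
  · rw [e3, merge_g hig hjg, unmerge_i]
  by_cases e4 : p = ρ g
  · rw [e4, merge_k unmerge_i f1 f2 hg, h g]
  rw [merge_o e1 e2 e3 (by rw [unmerge_i]; exact e4), unmerge_o e1 e2 e3 e4]

theorem LV_merge {c : α → Bool} (hj : j = σ i) (hij : i ≠ j) (hig : i ≠ g) (hjg : j ≠ g)
    (h : LV σ g c ρ) (hi : ρ i ≠ i) (hjj : ρ j = g) : LV σ g (flp i c) (merge i j g ρ) := by
  obtain ⟨f1, f2, f3⟩ := merge_facts hij hig h.1 hi hjj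
  refine LV_flp hj hij hjg h (merge_invol hij hig hjg h.1 hi hjj) ?_ ?_ ?_
  · rw [merge_i]; simp [hi]
  · rw [merge_j hij, hjj]; simp [hjg.symm]
  · intro p e1 e2
    by_cases e3 : p = g
    · rw [e3, merge_g hig hjg, f3]; simp [f2, hjg]
    by_cases e4 : p = ρ i
    · rw [e4, merge_k rfl hi f1 f2, h.1 i]; simp [f2.symm, hi.symm]
    rw [merge_o e1 e2 e3 e4]

theorem LV_unmerge {c : α → Bool} (hj : j = σ i) (hij : i ≠ j) (hig : i ≠ g) (hjg : j ≠ g)
    (h : LV σ g c ρ) (hi : ρ i = i) (hjj : ρ j = j) (hg : ρ g ≠ g) :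
    LV σ g (flp i c) (unmerge i j g ρ) := by
  obtain ⟨f1, f2⟩ := unmerge_facts hig hjg h.1 hi hjj
  refine LV_flp hj hij hjg h (unmerge_invol hij hig hjg h.1 hi hjj hg) ?_ ?_ ?_
  · rw [unmerge_i]; simp [hi, f1]
  · rw [unmerge_j hij, hjj]; simp [hjg.symm]
  · intro p e1 e2
    by_cases e3 : p = g
    · rw [e3, unmerge_g hig hjg]; simp [hg, hjg]
    by_cases e4 : p = ρ g
    · rw [e4, unmerge_k rfl f1 f2 hg, h.1 g]; simp [f1.symm, hg.symm]
    rw [unmerge_o e1 e2 e3 e4]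

end merging

/-- The predicate depends on the colours only at unused points. -/
def Loc (Ω : (α → Bool) → (α → α) → Prop) : Prop :=
  ∀ c c' ρ, (∀ p, ρ p = p → c p = c' p) → Ω c ρ → Ω c' ρ

omit [DecidableEq α] in
theorem Loc.iff {Ω : (α → Bool) → (α → α) → Prop} (h : Loc Ω) {c c' : α → Bool} {ρ : α → α}
    (hc : ∀ p, ρ p = p → c p = c' p) : Ω c ρ ↔ Ω c' ρ :=
  ⟨h c c' ρ hc, h c' c ρ (fun p hp => (hc p hp).symm)⟩

theorem swap_point [Fintype α] {i j : α} (hj : j = σ i) (hij : i ≠ j) (hig : i ≠ g) (hjg : j ≠ g)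
    {Ω : (α → Bool) → (α → α) → Prop} (hloc : Loc Ω)
    (hΩ : ∀ c ρ, Involutive ρ → Ω c ρ → ρ j = j ∨ ρ j = g) (c : α → Bool) (ρ : α → α) :
    ind (Valid σ g c ρ) * ind (Ω c ρ) +
      ind (Valid σ g (recol σ i j c) (cj i j ρ)) * ind (Ω (recol σ i j c ∘ Equiv.swap i j) ρ) =
    ind (Valid σ g c ρ) * (ind (ρ i ≠ i ∧ ρ j = j) * (ind (Ω c ρ) + ind (Ω (flp j c) ρ)) +
      ind (ρ i = i ∧ ρ j ≠ j) * (ind (Ω c ρ) + ind (Ω (flp i c) ρ))) +
    ind (LV σ g c ρ ∧ ρ i ≠ i ∧ ρ j = g) *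
      (ind (Conn σ (flp i c) (merge i j g ρ)) * ind (Ω c ρ)) := by
  by_cases h : LV σ g c ρ
  swap
  · have h' : ¬ LV σ g (recol σ i j c) (cj i j ρ) := fun h' => h (by
      have := LV_recol hj hij hjg h'
      rwa [recol_recol hj hij, cj_cj] at this)
    rw [ind_neg (P := Valid σ g c ρ) (fun v => h v.1),
      ind_neg (P := Valid σ g _ _) (fun v => h' v.1),
      ind_neg (P := LV σ g c ρ ∧ _) (fun v => h v.1)]
    simp
  have h' := LV_recol hj hij hjg h
  have hsj : σ.symm j = i := by rw [hj]; simp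
  have v1 : Valid σ g c ρ ↔ Conn σ c ρ := and_iff_right h
  have v2 : Valid σ g (recol σ i j c) (cj i j ρ) ↔ Conn σ (recol σ i j c) (cj i j ρ) :=
    and_iff_right h'
  rw [ind_congr v1, ind_congr v2]
  have ci := h.2.1 i
  have cjj := h.2.1 j
  rw [hsj] at cjj
  have ro : ∀ p, p ≠ i → p ≠ j → (recol σ i j c ∘ Equiv.swap i j) p = c p := by
    intro p e1 e2
    simp only [comp, Equiv.swap_apply_of_ne_of_ne e1 e2, recol_ne e1]
  have ri : (recol σ i j c ∘ Equiv.swap i j) i = c j := by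
    simp only [comp, Equiv.swap_apply_left, recol_ne hij.symm]
  have rj : (recol σ i j c ∘ Equiv.swap i j) j = xor (c (σ.symm i)) (xor (c j) (c i)) := by
    simp only [comp, Equiv.swap_apply_right, recol_self]
  have cjo : ∀ p, p ≠ i → p ≠ j → p ≠ ρ i → p ≠ ρ j → cj i j ρ p = ρ p := by
    intro p e1 e2 e3 e4
    unfold cj
    rw [Equiv.swap_apply_of_ne_of_ne e1 e2, Equiv.swap_apply_of_ne_of_ne]
    · exact fun e => e3 (by rw [← e, h.1 p])
    · exact fun e => e4 (by rw [← e, h.1 p])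
  by_cases hi : ρ i = i <;> by_cases hjj : ρ j = j
  · have e1 : recol σ i j c = c := by
      funext p
      by_cases e : p = i
      · rw [e, recol_self, ci.1 hi, ← cjj.1 hjj]; simp
      · rw [recol_ne e]
    have e2 : cj i j ρ = ρ := by
      funext p
      by_cases e1 : p = i
      · simp [cj, e1, hi, hjj]
      by_cases e2 : p = j
      · simp [cj, e2, hi, hjj]
      exact cjo p e1 e2 (by rw [hi]; exact e1) (by rw [hjj]; exact e2)
    have e3 : Ω (recol σ i j c ∘ Equiv.swap i j) ρ ↔ Ω c ρ := by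
      refine hloc.iff (fun p _ => ?_)
      by_cases e1 : p = i
      · rw [e1, ri, cjj.1 hjj]
      by_cases e2 : p = j
      · rw [e2, rj, ci.1 hi, cjj.1 hjj]; simp
      exact ro p e1 e2
    rw [ind_congr e3, e1, e2, zmod2_add_self, ind_neg (P := ρ i ≠ i ∧ _) (fun v => v.1 hi),
      ind_neg (P := ρ i = i ∧ ρ j ≠ j) (fun v => v.2 hjj),
      ind_neg (P := LV σ g c ρ ∧ _) (fun v => v.2.1 hi)]
    simp
  · have hk : ρ j ≠ i := fun e => hij (h.1.injective (by rw [e, hi]))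
    have e1 : Conn σ (recol σ i j c) (cj i j ρ) ↔ Conn σ c ρ := by
      refine conn_slide (k := ρ j) h' h hj hij ?_ hk ?_ hi rfl ?_ ?_
      · simp [cj, Equiv.swap_apply_of_ne_of_ne hk hjj]
      · simp [cj, hi]
      · intro p e1 e2 e3
        exact (cjo p e1 e2 (by rw [hi]; exact e1) e3).symm
      · intro q hq; rw [recol_ne hq]
    have e3 : Ω (recol σ i j c ∘ Equiv.swap i j) ρ ↔ Ω (flp i c) ρ := by
      refine hloc.iff (fun p hp => ?_)
      by_cases e1 : p = i
      · rw [e1, ri, flp_self]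
        have := mt cjj.2 hjj
        revert this; cases c i <;> cases c j <;> simp
      have e2 : p ≠ j := fun e => hjj (e ▸ hp)
      rw [ro p e1 e2, flp_ne e1]
    rw [ind_congr e3, ind_congr e1, ind_neg (P := ρ i ≠ i ∧ _) (fun v => v.1 hi),
      ind_pos (P := ρ i = i ∧ _) ⟨hi, hjj⟩, ind_neg (P := LV σ g c ρ ∧ _) (fun v => v.2.1 hi)]
    ring
  · have hk : ρ i ≠ j := fun e => hij (h.1.injective (by rw [e, hjj]))
    have e1 : Conn σ c ρ ↔ Conn σ (recol σ i j c) (cj i j ρ) := by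
      refine conn_slide (k := ρ i) h h' hj hij rfl hi hjj ?_ ?_ ?_ ?_
      · simp [cj, hjj]
      · simp [cj, Equiv.swap_apply_of_ne_of_ne hi hk]
      · intro p e1 e2 e3
        exact cjo p e1 e2 e3 (by rw [hjj]; exact e2)
      · intro q hq; rw [recol_ne hq]
    have e3 : Ω (recol σ i j c ∘ Equiv.swap i j) ρ ↔ Ω (flp j c) ρ := by
      refine hloc.iff (fun p hp => ?_)
      by_cases e2 : p = j
      · rw [e2, rj, flp_self, ← cjj.1 hjj]
        have := mt ci.2 hi
        revert this; cases c i <;> cases c (σ.symm i) <;> simp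
      have e1 : p ≠ i := fun e => hi (e ▸ hp)
      rw [ro p e1 e2, flp_ne e2]
    rw [ind_congr e3, ← ind_congr e1, ind_pos (P := ρ i ≠ i ∧ _) ⟨hi, hjj⟩,
      ind_neg (P := ρ i = i ∧ _) (fun v => hi v.1),
      ind_neg (P := LV σ g c ρ ∧ _) (fun v => hjg (hjj.symm.trans v.2.2))]
    ring
  · have e3 : Ω (recol σ i j c ∘ Equiv.swap i j) ρ ↔ Ω c ρ := by
      refine hloc.iff (fun p hp => ?_)
      exact ro p (fun e => hi (e ▸ hp)) (fun e => hjj (e ▸ hp))
    have e1 : recol σ i j c = c := by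
      funext p
      by_cases e : p = i
      · rw [e, recol_self]
        have h1 := mt ci.2 hi
        have h2 := mt cjj.2 hjj
        revert h1 h2; cases c i <;> cases c j <;> cases c (σ.symm i) <;> simp
      · rw [recol_ne e]
    rw [ind_congr e3, ind_neg (P := ρ i ≠ i ∧ _) (fun v => hjj v.2),
      ind_neg (P := ρ i = i ∧ _) (fun v => hi v.1)]
    rw [e1] at h' ⊢
    by_cases hO : Ω c ρ
    swap
    · rw [ind_neg hO]; simp
    have hg : ρ j = g := (hΩ c ρ h.1 hO).resolve_left hjj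
    obtain ⟨f1, f2, f3⟩ := merge_facts hij hig h.1 hi hg
    have := conn_tri (k := ρ i) (l := g) h h' (LV_merge hj hij hig hjg h hi hg) hj hij rfl hg hi
      f1 hjg.symm
      (by simp [cj, hg, Equiv.swap_apply_of_ne_of_ne hig.symm hjg.symm])
      (by simp [cj, Equiv.swap_apply_of_ne_of_ne hi f1])
      (fun p e1 e2 e3 e4 => cjo p e1 e2 e3 (by rw [hg]; exact e4))
      merge_i (merge_j hij) (merge_k rfl hi f1 f2)
      (fun p e1 e2 e3 e4 => merge_o e1 e2 e4 e3) (fun q hq => flp_ne hq c)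
    rw [ind_pos (P := LV σ g c ρ ∧ _) ⟨h, hi, hg⟩, ← this]
    ring

/-- The effect of exchanging two neighbouring points on the count of valid states. -/
theorem swap_lemma [Fintype α] {i j : α} (hj : j = σ i) (hij : i ≠ j) (hig : i ≠ g)
    (hjg : j ≠ g) {Ω : (α → Bool) → (α → α) → Prop} (hloc : Loc Ω)
    (hΩ : ∀ c ρ, Involutive ρ → Ω c ρ → ρ j = j ∨ ρ j = g) :
    Tot σ g (fun c ρ => ind (Ω c ρ)) +
      Tot σ g (fun c ρ => ind (Ω (c ∘ Equiv.swap i j) (cj i j ρ))) =
    Tot σ g (fun c ρ => ind (ρ i ≠ i ∧ ρ j = j) * (ind (Ω c ρ) + ind (Ω (flp j c) ρ)) +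
      ind (ρ i = i ∧ ρ j ≠ j) * (ind (Ω c ρ) + ind (Ω (flp i c) ρ)) +
      ind (ρ i = i ∧ ρ j = j ∧ ρ g ≠ g) * ind (Ω c (unmerge i j g ρ))) := by
  have hinv : Involutive (fun s : (α → Bool) × (α → α) => (recol σ i j s.1, cj i j s.2)) := by
    intro s; simp only [recol_recol hj hij, cj_cj]
  have s1 : Tot σ g (fun c ρ => ind (Ω (c ∘ Equiv.swap i j) (cj i j ρ))) =
      ∑ s : (α → Bool) × (α → α), ind (Valid σ g (recol σ i j s.1) (cj i j s.2)) *
        ind (Ω (recol σ i j s.1 ∘ Equiv.swap i j) s.2) := by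
    unfold Tot
    rw [← Equiv.sum_comp (hinv.toPerm _)]
    refine Finset.sum_congr rfl (fun s _ => ?_)
    simp only [Involutive.coe_toPerm, cj_cj]
  have s2 : ∑ s : (α → Bool) × (α → α), ind (LV σ g s.1 s.2 ∧ s.2 i ≠ i ∧ s.2 j = g) *
      (ind (Conn σ (flp i s.1) (merge i j g s.2)) * ind (Ω s.1 s.2)) =
      Tot σ g (fun c ρ => ind (ρ i = i ∧ ρ j = j ∧ ρ g ≠ g) * ind (Ω c (unmerge i j g ρ))) := by
    rw [sum_ind_bij _ (fun s => LV σ g s.1 s.2 ∧ s.2 i = i ∧ s.2 j = j ∧ s.2 g ≠ g) _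
      (fun s => (flp i s.1, merge i j g s.2)) (fun s => (flp i s.1, unmerge i j g s.2))]
    · refine Finset.sum_congr rfl (fun s _ => ?_)
      by_cases hB : LV σ g s.1 s.2 ∧ s.2 i = i ∧ s.2 j = j ∧ s.2 g ≠ g
      · obtain ⟨h, hi, hjj, hg⟩ := hB
        have e : Ω (flp i s.1) (unmerge i j g s.2) ↔ Ω s.1 (unmerge i j g s.2) := by
          refine hloc.iff (fun p hp => flp_ne (fun e => ?_) _)
          rw [e, unmerge_i] at hp
          exact (unmerge_facts hig hjg h.1 hi hjj).1 hp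
        simp only [flp_flp, merge_unmerge hij hig hjg h.1 hi hjj hg]
        rw [ind_pos (P := LV σ g s.1 s.2 ∧ _) ⟨h, hi, hjj, hg⟩,
          ind_pos (P := s.2 i = i ∧ _) ⟨hi, hjj, hg⟩, ind_congr e,
          ind_congr (P := Valid σ g s.1 s.2) (and_iff_right h)]
        ring
      · rw [ind_neg hB, zero_mul]
        by_cases hv : Valid σ g s.1 s.2
        · beta_reduce
          rw [ind_neg (P := s.2 i = i ∧ _) (fun v => hB ⟨hv.1, v⟩)]; simp
        · rw [ind_neg hv, zero_mul]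
    · rintro s ⟨h, hi, hg⟩
      refine ⟨LV_merge hj hij hig hjg h hi hg, merge_i, merge_j hij, ?_⟩
      show merge i j g s.2 g ≠ g
      rw [merge_g hig hjg]; exact (merge_facts hij hig h.1 hi hg).2.1
    · rintro s ⟨h, hi, hjj, hg⟩
      refine ⟨LV_unmerge hj hij hig hjg h hi hjj hg, ?_, unmerge_j hij⟩
      show unmerge i j g s.2 i ≠ i
      rw [unmerge_i]; exact (unmerge_facts hig hjg h.1 hi hjj).1
    · rintro s ⟨h, hi, hg⟩
      simp only [flp_flp, unmerge_merge hij hig hjg h.1 hi hg]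
    · rintro s ⟨h, hi, hjj, hg⟩
      simp only [flp_flp, merge_unmerge hij hig hjg h.1 hi hjj hg]
  rw [Tot_add, s1, ← s2]
  unfold Tot
  rw [← Finset.sum_add_distrib, ← Finset.sum_add_distrib]
  exact Finset.sum_congr rfl (fun s _ => swap_point hj hij hig hjg hloc hΩ s.1 s.2)

end Pool.Agent.Lib.MP_061452_co
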