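import Pool.Agent.Lib.MP_061452_co.Cyc
import Pool.Agent.Lib.MP_061452_co.Sum

set_option autoImplicit false

namespace Pool.Agent.Lib.MP_061452_co

open Function

variable {V E : Type} {ends : E → Sym2 V}

theorem deg_union [Fintype E] {X Y : Set E} (h : Disjoint X Y) (x : V) :
    deg ends (X ∪ Y) x = deg ends X x + deg ends Y x := by
  unfold deg
  rw [← Set.ncard_union_eq (h.mono (fun _ k => k.1) (fun _ k => k.1))]
  congr 1
  ext e
  exact ⟨fun k => k.1.imp (fun j => ⟨j, k.2⟩) (fun j => ⟨j, k.2⟩),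
    fun k => k.elim (fun j => ⟨Or.inl j.1, j.2⟩) (fun j => ⟨Or.inr j.1, j.2⟩)⟩

theorem deg_eq_zero {X : Set E} {x : V} (h : ¬ Touches ends X x) : deg ends X x = 0 := by
  unfold deg
  rw [Set.eq_empty_of_forall_notMem (s := {e : E | e ∈ X ∧ x ∈ ends e}) (fun e he => h ⟨e, he⟩),
    Set.ncard_empty]

theorem touches_of_deg {X : Set E} {x : V} (h : deg ends X x ≠ 0) : Touches ends X x := by
  by_contra k; exact h (deg_eq_zero k)

theorem deg_le_three [Fintype E] (hc : ∀ v : V, {e : E | v ∈ ends e}.ncard = 3) (X : Set E)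
    (x : V) : deg ends X x ≤ 3 := by
  rw [← hc x]
  exact Set.ncard_le_ncard (fun _ k => k.2)

theorem Touches.mono {X Y : Set E} (h : X ⊆ Y) {x : V} (k : Touches ends X x) :
    Touches ends Y x := by
  obtain ⟨e, he, hx⟩ := k; exact ⟨e, h he, hx⟩

theorem touches_union {X Y : Set E} {x : V} :
    Touches ends (X ∪ Y) x ↔ Touches ends X x ∨ Touches ends Y x := by
  constructor
  · rintro ⟨e, he | he, hx⟩
    exacts [Or.inl ⟨e, he, hx⟩, Or.inr ⟨e, he, hx⟩]
  · rintro (k | k)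
    exacts [k.mono Set.subset_union_left, k.mono Set.subset_union_right]

theorem IsPath.left {W : Set E} {a b : V} (h : IsPath ends W a b) : Touches ends W a :=
  touches_of_deg (by rw [h.2.1]; decide)

theorem IsPath.right {W : Set E} {a b : V} (h : IsPath ends W a b) : Touches ends W b :=
  touches_of_deg (by rw [h.2.2.1]; decide)

theorem IsPath.symm {W : Set E} {a b : V} (h : IsPath ends W a b) : IsPath ends W b a :=
  ⟨h.1.symm, h.2.2.1, h.2.1, fun v h1 h2 => h.2.2.2.1 v h2 h1, h.2.2.2.2⟩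

theorem IsPath.avoid [Fintype E] (hc : ∀ v : V, {e : E | v ∈ ends e}.ncard = 3) {S W : Set E}
    (hS : IsCircuit ends S) {a b x : V} (h : IsPath ends W a b) (hd : Disjoint W S)
    (hx : Touches ends S x) (ha : x ≠ a) (hb : x ≠ b) : ¬ Touches ends W x := by
  intro k
  have h1 := (h.2.2.2.1 x ha hb).resolve_left (deg_ne_zero k)
  have h2 := (hS.2.1 x).resolve_left (deg_ne_zero hx)
  have h3 := deg_le_three hc (W ∪ S) x
  rw [deg_union hd] at h3
  omega

theorem reach_edge {X : Set E} {e : E} (he : e ∈ X) {a b : V} (h : ends e = s(a, b)) :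
    (SimpleGraph.fromRel (fun a b : V => ∃ e ∈ X, ends e = s(a, b))).Reachable a b := by
  by_cases k : a = b
  · rw [k]
  · exact SimpleGraph.Adj.reachable
      ((SimpleGraph.fromRel_adj _ _ _).2 ⟨k, Or.inl ⟨e, he, h⟩⟩)

theorem reach_mono {X Y : Set E} (h : X ⊆ Y) {a b : V}
    (k : (SimpleGraph.fromRel (fun a b : V => ∃ e ∈ X, ends e = s(a, b))).Reachable a b) :
    (SimpleGraph.fromRel (fun a b : V => ∃ e ∈ Y, ends e = s(a, b))).Reachable a b := by
  refine k.mono (fun a b hab => ?_)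
  rw [SimpleGraph.fromRel_adj] at hab ⊢
  refine ⟨hab.1, hab.2.imp ?_ ?_⟩ <;> exact fun ⟨e, he, k⟩ => ⟨e, h he, k⟩

variable {α : Type}

/-- The edges of the used paths. -/
def Rset (ρ : α → α) (W : α → Set E) : Set E := {e | ∃ p, ρ p ≠ p ∧ e ∈ W p}

/-- The used paths together with the arcs of one colour. -/
def Aset (c : α → Bool) (ρ : α → α) (ε : α → E) (W : α → Set E) (X : Bool) : Set E :=
  Rset ρ W ∪ {e | ∃ p, c p = X ∧ ε p = e}

/-- A cyclic enumeration of a circuit. -/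
def Enum (ends : E → Sym2 V) (S : Set E) (σ : Equiv.Perm α) (v : α → V) (ε : α → E) : Prop :=
  Injective v ∧ Injective ε ∧ (∀ e, e ∈ S ↔ ∃ p, ε p = e) ∧ ∀ p, ends (ε p) = s(v p, v (σ p))

/-- Disjoint paths joining the pairs of used points. -/
def Paths (ends : E → Sym2 V) (S : Set E) (v : α → V) (ρ : α → α) (W : α → Set E) : Prop :=
  (∀ p, ρ p ≠ p → W (ρ p) = W p ∧ Disjoint (W p) S ∧ IsPath ends (W p) (v p) (v (ρ p))) ∧
    ∀ p q, ρ p ≠ p → ρ q ≠ q → q ≠ p → q ≠ ρ p → ∀ x, Touches ends (W p) x → ¬ Touches ends (W q) x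

variable {S : Set E} {σ : Equiv.Perm α} {v : α → V} {ε : α → E} {g : α} {c : α → Bool}
  {ρ : α → α} {W : α → Set E}

theorem Enum.touches (h : Enum ends S σ v ε) {x : V} : Touches ends S x ↔ ∃ p, v p = x := by
  constructor
  · rintro ⟨e, he, hx⟩
    obtain ⟨p, rfl⟩ := (h.2.2.1 e).1 he
    rw [h.2.2.2, Sym2.mem_iff] at hx
    rcases hx with k | k
    exacts [⟨_, k.symm⟩, ⟨_, k.symm⟩]
  · rintro ⟨p, rfl⟩
    exact ⟨ε p, (h.2.2.1 _).2 ⟨p, rfl⟩, by rw [h.2.2.2]; simp⟩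

theorem Enum.mem (h : Enum ends S σ v ε) {p q : α} :
    v p ∈ ends (ε q) ↔ q = p ∨ q = σ.symm p := by
  rw [h.2.2.2, Sym2.mem_iff, h.1.eq_iff, h.1.eq_iff, Equiv.eq_symm_apply]
  exact ⟨fun k => k.imp Eq.symm Eq.symm, fun k => k.imp Eq.symm Eq.symm⟩

theorem Enum.ne (h : Enum ends S σ v ε) (hl : ∀ e, ¬ (ends e).IsDiag) (p : α) :
    σ.symm p ≠ p := by
  intro e
  apply hl (ε p)
  rw [h.2.2.2, Sym2.mk_isDiag_iff, ← (Equiv.symm_apply_eq σ).1 e]

theorem Rset_disjoint (hW : Paths ends S v ρ W) : Disjoint (Rset ρ W) S := by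
  rw [Set.disjoint_left]
  rintro e ⟨p, hp, he⟩
  exact Set.disjoint_left.1 (hW.1 p hp).2.1 he

theorem deg_Rset (hW : Paths ends S v ρ W) {p : α} (hp : ρ p ≠ p) {x : V}
    (hx : Touches ends (W p) x) : deg ends (Rset ρ W) x = deg ends (W p) x := by
  unfold deg
  congr 1
  ext e
  constructor
  · rintro ⟨⟨q, hq, he⟩, k⟩
    refine ⟨?_, k⟩
    by_cases e1 : q = p
    · rwa [e1] at he
    by_cases e2 : q = ρ p
    · rwa [e2, (hW.1 p hp).1] at he
    exact absurd ⟨e, he, k⟩ (hW.2 p q hp hq e1 e2 x hx)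
  · exact fun k => ⟨⟨p, hp, k.1⟩, k.2⟩

theorem touches_Rset {x : V} :
    Touches ends (Rset ρ W) x ↔ ∃ p, ρ p ≠ p ∧ Touches ends (W p) x := by
  constructor
  · rintro ⟨e, ⟨p, hp, he⟩, k⟩; exact ⟨p, hp, e, he, k⟩
  · rintro ⟨p, hp, e, he, k⟩; exact ⟨e, ⟨p, hp, he⟩, k⟩

theorem symmDiff_Aset (h : Enum ends S σ v ε) (hW : Paths ends S v ρ W) :
    symmDiff S (Aset c ρ ε W true) = Aset c ρ ε W false := by
  have hd := Set.disjoint_left.1 (Rset_disjoint hW)
  ext e
  rw [Set.mem_symmDiff]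
  constructor
  · rintro (⟨h1, h2⟩ | ⟨h1 | ⟨p, _, h1⟩, h2⟩)
    · obtain ⟨p, rfl⟩ := (h.2.2.1 e).1 h1
      refine Or.inr ⟨p, ?_, rfl⟩
      by_contra k
      exact h2 (Or.inr ⟨p, by simpa using k, rfl⟩)
    · exact Or.inl h1
    · exact absurd ((h.2.2.1 e).2 ⟨p, h1⟩) h2
  · rintro (h1 | ⟨p, hp, rfl⟩)
    · exact Or.inr ⟨Or.inl h1, hd h1⟩
    · have k := (h.2.2.1 _).2 ⟨p, rfl⟩
      refine Or.inl ⟨k, ?_⟩
      rintro (h1 | ⟨q, hq, h1⟩)
      · exact hd h1 k
      · rw [h.2.1 h1, hp] at hq; exact absurd hq (by decide)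

theorem union_Aset (h : Enum ends S σ v ε) (X : Bool) :
    S ∪ Aset c ρ ε W X = S ∪ Rset ρ W := by
  ext e
  constructor
  · rintro (k | k | ⟨p, _, k⟩)
    exacts [Or.inl k, Or.inr k, Or.inl ((h.2.2.1 e).2 ⟨p, k⟩)]
  · rintro (k | k)
    exacts [Or.inl k, Or.inr (Or.inl k)]

theorem touches_Aset (h : Enum ends S σ v ε) (p : α) :
    Touches ends (Aset c ρ ε W (c p)) (v p) :=
  ⟨ε p, Or.inr ⟨p, rfl, rfl⟩, h.mem.2 (Or.inl rfl)⟩

theorem deg_arcs [Fintype E] (hl : ∀ e, ¬ (ends e).IsDiag) (h : Enum ends S σ v ε) (X : Bool)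
    (p : α) : deg ends {e | ∃ q, c q = X ∧ ε q = e} (v p) =
      (if c p = X then 1 else 0) + (if c (σ.symm p) = X then 1 else 0) := by
  have ne : ε p ≠ ε (σ.symm p) := fun k => h.ne hl p (h.2.1 k).symm
  have key : ∀ e, (e ∈ {e | ∃ q, c q = X ∧ ε q = e} ∧ v p ∈ ends e) ↔
      (c p = X ∧ e = ε p) ∨ (c (σ.symm p) = X ∧ e = ε (σ.symm p)) := by
    intro e
    constructor
    · rintro ⟨⟨q, hq, rfl⟩, k⟩
      rcases h.mem.1 k with rfl | rfl
      exacts [Or.inl ⟨hq, rfl⟩, Or.inr ⟨hq, rfl⟩]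
    · rintro (⟨k, rfl⟩ | ⟨k, rfl⟩)
      exacts [⟨⟨_, k, rfl⟩, h.mem.2 (Or.inl rfl)⟩, ⟨⟨_, k, rfl⟩, h.mem.2 (Or.inr rfl)⟩]
  unfold deg
  simp only [key]
  by_cases k1 : c p = X <;> by_cases k2 : c (σ.symm p) = X
  · simp only [k1, k2, true_and, if_true]
    exact Set.ncard_pair ne
  · simp [k1, k2]
  · simp [k1, k2]
  · simp [k1, k2]

/-- A valid state gives two circuits. -/
theorem circuit_Aset [Fintype E] [DecidableEq α] (hl : ∀ e, ¬ (ends e).IsDiag)
    (hc : ∀ v : V, {e : E | v ∈ ends e}.ncard = 3) (hS : IsCircuit ends S)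
    (h : Enum ends S σ v ε) (hv : Valid σ g c ρ) (hW : Paths ends S v ρ W) {p0 : α}
    (h0 : ρ p0 ≠ p0) (X : Bool) : IsCircuit ends (Aset c ρ ε W X) := by
  have hsub : {e | ∃ q, c q = X ∧ ε q = e} ⊆ S := fun e ⟨q, _, k⟩ => (h.2.2.1 e).2 ⟨q, k⟩
  have hd : Disjoint (Rset ρ W) {e | ∃ q, c q = X ∧ ε q = e} :=
    (Rset_disjoint hW).mono_right hsub
  have sub : ∀ p, ρ p ≠ p → W p ⊆ Aset c ρ ε W X := fun p hp e he => Or.inl ⟨p, hp, he⟩
  refine ⟨?_, fun x => ?_, ?_⟩
  · obtain ⟨e, he, _⟩ := (hW.1 p0 h0).2.2.left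
    exact ⟨e, sub p0 h0 he⟩
  · unfold Aset
    rw [deg_union hd]
    by_cases hx : Touches ends S x
    · obtain ⟨p, rfl⟩ := h.touches.1 hx
      rw [deg_arcs hl h]
      by_cases hp : ρ p = p
      · rw [deg_eq_zero, (hv.1.2.1 p).1 hp]
        · by_cases k : c p = X <;> simp [k]
        · rw [touches_Rset]
          rintro ⟨q, hq, k⟩
          refine (hW.1 q hq).2.2.avoid hc hS (hW.1 q hq).2.1 hx (fun e => ?_) (fun e => ?_) k
          · exact hq (h.1 e ▸ hp)
          · exact hv.1.used' hq (h.1 e ▸ hp)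
      · rw [deg_Rset hW hp (hW.1 p hp).2.2.left, (hW.1 p hp).2.2.2.1]
        have := hv.1.used hp
        right
        revert this; cases c p <;> cases c (σ.symm p) <;> cases X <;> simp
    · rw [deg_eq_zero (X := {e | ∃ q, c q = X ∧ ε q = e})
        (fun k => hx (k.mono hsub)), add_zero]
      by_cases k : Touches ends (Rset ρ W) x
      · obtain ⟨p, hp, k⟩ := touches_Rset.1 k
        rw [deg_Rset hW hp k]
        exact (hW.1 p hp).2.2.2.2.2.1 x (fun e => hx (h.touches.2 ⟨_, e.symm⟩))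
          (fun e => hx (h.touches.2 ⟨_, e.symm⟩))
      · exact Or.inl (deg_eq_zero k)
  · set H := SimpleGraph.fromRel (fun a b : V => ∃ e ∈ Aset c ρ ε W X, ends e = s(a, b)) with hH
    have arc : ∀ p, c p = X → H.Reachable (v p) (v (σ p)) := fun p hp =>
      reach_edge (X := Aset c ρ ε W X) (Or.inr ⟨p, hp, rfl⟩) (h.2.2.2 p)
    have rel : ∀ a b, Rel (gam σ) (the σ c ρ) a b →
        col σ c a = col σ c b ∧ (col σ c a = X → H.Reachable (v a.1) (v b.1)) := by
      intro a b hab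
      refine Rel.ind (fun a b => col σ c a = col σ c b ∧
        (col σ c a = X → H.Reachable (v a.1) (v b.1))) (fun a => ⟨rfl, fun _ => .refl _⟩)
        (fun a b k => ⟨k.1.symm, fun e => (k.2 (k.1.trans e)).symm⟩)
        (fun a b d k k' => ⟨k.1.trans k'.1, fun e => (k.2 e).trans (k'.2 (k.1.symm.trans e))⟩)
        (fun a => ⟨(col_gam a).symm, ?_⟩) (fun a => ⟨(col_the hv.1 a).symm, fun _ => ?_⟩) hab
      · obtain ⟨p, s⟩ := a
        cases s
        · intro e
          have := arc (σ.symm p) e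
          rw [Equiv.apply_symm_apply] at this
          exact this.symm
        · exact arc p
      · obtain ⟨p, s⟩ := a
        by_cases hp : ρ p = p
        · rw [the_fix hp]
        · rw [the_used hp]
          have k := (hW.1 p hp).2.2
          exact reach_mono (sub p hp) (k.2.2.2.2 _ _ k.left k.right)
    have base : ∀ x, Touches ends (Aset c ρ ε W X) x →
        ∃ a, col σ c a = X ∧ H.Reachable x (v a.1) := by
      rintro x ⟨e, ⟨p, hp, he⟩ | ⟨p, hp, rfl⟩, hx⟩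
      · have k := (hW.1 p hp).2.2
        exact ⟨(p, c p == X), col_slot (hv.1.used hp) X,
          reach_mono (sub p hp) (k.2.2.2.2 _ _ ⟨e, he, hx⟩ k.left)⟩
      · rw [h.2.2.2, Sym2.mem_iff] at hx
        refine ⟨(p, true), hp, ?_⟩
        rcases hx with rfl | rfl
        · exact .refl _
        · exact (arc p hp).symm
    intro x y hx hy
    obtain ⟨a, ha, ra⟩ := base x hx
    obtain ⟨b, hb, rb⟩ := base y hy
    exact (ra.trans ((rel a b (hv.2 a b trivial trivial (ha.trans hb.symm))).2 ha)).trans rb.symm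

/-- A set of vertices whose unused points all have one colour lies on one of the two circuits. -/
theorem attach_Aset (h : Enum ends S σ v ε) (hW : Paths ends S v ρ W) {T : V → Prop}
    (hT : ∀ a, T a → Touches ends (S ∪ Rset ρ W) a)
    (hm : ∀ p q, ρ p = p → ρ q = q → T (v p) → T (v q) → c p = c q) :
    (∀ a, T a → Touches ends (Aset c ρ ε W true) a) ∨
      ∀ a, T a → Touches ends (Aset c ρ ε W false) a := by
  have key : ∀ X, (∀ p, ρ p = p → T (v p) → c p = X) →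
      ∀ a, T a → Touches ends (Aset c ρ ε W X) a := by
    intro X hX a ha
    rcases touches_union.1 (hT a ha) with k | k
    · obtain ⟨p, rfl⟩ := h.touches.1 k
      by_cases hp : ρ p = p
      · rw [← hX p hp ha]; exact touches_Aset h p
      · exact (hW.1 p hp).2.2.left.mono (fun e he => Or.inl ⟨p, hp, he⟩)
    · exact k.mono Set.subset_union_left
  by_cases k : ∃ p, ρ p = p ∧ T (v p) ∧ c p = false
  · obtain ⟨p, h1, h2, h3⟩ := k
    exact Or.inr (key false (fun q hq hq' => (hm q p hq h1 hq' h2).trans h3))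
  · refine Or.inl (key true (fun q hq hq' => ?_))
    by_contra e
    exact k ⟨q, hq, hq', by simpa using e⟩

end Pool.Agent.Lib.MP_061452_co
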