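import Pool.Agent.Lib.MP_061452_co.Graph
import Pool.Agent.Lib.MP_061452_co.ParF

set_option autoImplicit false

namespace Pool.Agent.Lib.MP_061452_co

open Function

/-- Three different related points other than the two base points. -/
def Big {α : Type} (g h : α) (Sm : α → α → Prop) (p : α) : Prop :=
  p ≠ g ∧ p ≠ h ∧ ∃ q r, q ≠ g ∧ q ≠ h ∧ r ≠ g ∧ r ≠ h ∧ q ≠ p ∧ r ≠ p ∧ q ≠ r ∧ Sm p q ∧ Sm p r

theorem Big.of_rel {α : Type} {g h : α} {Sm : α → α → Prop} (eqv : Equivalence Sm) {p p' : α}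
    (hb : Big g h Sm p) (h1 : p' ≠ g) (h2 : p' ≠ h) (hs : Sm p p') : Big g h Sm p' := by
  obtain ⟨a1, a2, q, r, b1, b2, b3, b4, b5, b6, b7, b8, b9⟩ := hb
  refine ⟨h1, h2, ?_⟩
  have s := eqv.symm hs
  by_cases e1 : p' = p
  · exact ⟨q, r, b1, b2, b3, b4, e1 ▸ b5, e1 ▸ b6, b7, eqv.trans s b8, eqv.trans s b9⟩
  by_cases e2 : p' = q
  · exact ⟨p, r, a1, a2, b3, b4, Ne.symm e1, e2 ▸ b7.symm, b6.symm, s, eqv.trans s b9⟩
  · exact ⟨p, q, a1, a2, b1, b2, Ne.symm e1, Ne.symm e2, b5.symm, s, eqv.trans s b8⟩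

theorem exists_labelled {α : Type} [Fintype α] [DecidableEq α] {σ : Equiv.Perm α} {g h : α}
    {r : α → ℕ} (hr : ∀ p, p ≠ g → r (σ.symm p) < r p) (hg : h ≠ g) {Sm : α → α → Prop}
    (eqv : Equivalence Sm) (hone : ∀ p q, Big g h Sm p → Big g h Sm q → Sm p q) :
    ∃ c ρ, Valid σ g c ρ ∧ ρ g = h ∧ (∀ p, ρ p ≠ p → ¬ (p = g ∨ p = h) → Sm p (ρ p)) ∧
      (∀ p q, ρ p ≠ p → ρ q ≠ q → ¬ (p = g ∨ p = h) → ¬ (q = g ∨ q = h) → Sm p q →
        q = p ∨ q = ρ p) ∧ ∀ p q, ρ p = p → ρ q = q → Sm p q → c p = c q := by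
  classical
  have ex : ∀ p, ∃ p', (p' = p ∨ (p ≠ g ∧ p ≠ h ∧ ¬ Big g h Sm p ∧ p' ≠ g ∧ p' ≠ h ∧ Sm p p')) ∧
      ∀ q, p ≠ g → p ≠ h → ¬ Big g h Sm p → q ≠ g → q ≠ h → q ≠ p → Sm p q → q = p' := by
    intro p
    by_cases k : ∃ q, p ≠ g ∧ p ≠ h ∧ ¬ Big g h Sm p ∧ q ≠ g ∧ q ≠ h ∧ q ≠ p ∧ Sm p q
    · obtain ⟨q, k1, k2, k3, k4, k5, k6, k7⟩ := k
      refine ⟨q, Or.inr ⟨k1, k2, k3, k4, k5, k7⟩, fun q' _ _ _ j1 j2 j3 j4 => ?_⟩
      by_contra e
      exact k3 ⟨k1, k2, q', q, j1, j2, k4, k5, j3, k6, e, j4, k7⟩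
    · exact ⟨p, Or.inl rfl, fun q k1 k2 k3 k4 k5 k6 k7 =>
        absurd ⟨q, k1, k2, k3, k4, k5, k6, k7⟩ k⟩
  choose π h1 h2 using ex
  have hπ : Involutive π := by
    intro p
    by_cases e : π p = p
    · rw [e, e]
    obtain ⟨k1, k2, k3, k4, k5, k6⟩ := (h1 p).resolve_left e
    exact (h2 (π p) p k4 k5 (fun b => k3 (b.of_rel eqv k1 k2 (eqv.symm k6))) k1 k2 (Ne.symm e)
      (eqv.symm k6)).symm
  let B : Finset α := Finset.univ.filter (Big g h Sm)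
  have hB : ∀ p, p ∈ B ↔ Big g h Sm p := fun p => by simp [B]
  have hs : StrF g π h B :=
    ⟨⟨hπ, (h1 g).resolve_right (fun k => k.1 rfl), fun k => ((hB g).1 k).1 rfl,
      fun p hp => (h1 p).resolve_right (fun k => k.2.2.1 ((hB p).1 hp))⟩,
      (h1 h).resolve_right (fun k => k.2.1 rfl), hg, fun k => ((hB h).1 k).2.1 rfl⟩
  obtain ⟨c, ρ, hv, hF⟩ := exists_F hr hs
  have hρ := hv.1.1
  have ch : ∀ p, π p ≠ p → ρ p = π p ∨ (ρ p = p ∧ ρ (π p) = π p ∧ c p = c (π p)) := by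
    rcases hF.2 with ⟨b, _⟩ | ⟨a, _, _, _, b, _⟩ <;> exact b.1
  have small : ∀ p, ρ p ≠ p → p ≠ g → p ≠ h → ¬ Big g h Sm p → π p ≠ p ∧ ρ p = π p := by
    intro p hp k1 k2 k3
    have e : π p ≠ p := fun e => hp (hF.fix e k1 k2 (fun k => k3 ((hB p).1 k)))
    exact ⟨e, (ch p e).resolve_right (fun k => hp k.1)⟩
  have big : ∃ a, ∀ p, Big g h Sm p → ρ p ≠ p → (p = a ∨ p = ρ a) ∧ Big g h Sm (ρ p) := by
    rcases hF.2 with ⟨b, _⟩ | ⟨a, k1, k2, _, b, _⟩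
    · exact ⟨g, fun p hp k => absurd (b.2 p (hs.1.2.2.2 p ((hB p).2 hp))
        (fun e => e.elim hp.1 hp.2.1)) k⟩
    · refine ⟨a, fun p hp k => ?_⟩
      have : p = a ∨ p = ρ a := by
        by_contra e
        exact k (b.2 p (hs.1.2.2.2 p ((hB p).2 hp))
          (fun j => j.elim hp.1 (fun j => j.elim hp.2.1 e)))
      refine ⟨this, ?_⟩
      rcases this with e | e
      · rw [e]; exact (hB _).1 k2
      · rw [e, hρ a]; exact (hB _).1 k1
  obtain ⟨a, big⟩ := big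
  have ug : ρ g ≠ g := by rw [hF.1]; exact hg
  have uh : ρ h ≠ h := by rw [← hF.1, hρ g, hF.1]; exact hg.symm
  refine ⟨c, ρ, hv, hF.1, fun p hp k => ?_, fun p q hp hq k k' hs' => ?_,
    fun p q hp hq hs' => ?_⟩
  · rw [not_or] at k
    by_cases b : Big g h Sm p
    · exact hone _ _ b (big p b hp).2
    · obtain ⟨e1, e2⟩ := small p hp k.1 k.2 b
      rw [e2]; exact ((h1 p).resolve_left e1).2.2.2.2.2
  · rw [not_or] at k k'
    by_cases b : Big g h Sm p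
    · rcases (big p b hp).1 with e | e <;>
        rcases (big q (b.of_rel eqv k'.1 k'.2 hs') hq).1 with e' | e'
      · left; rw [e, e']
      · right; rw [e, e']
      · right; rw [e, e', hρ a]
      · left; rw [e, e']
    · by_cases e : q = p
      · exact Or.inl e
      · right; rw [(small p hp k.1 k.2 b).2]; exact h2 p q k.1 k.2 b k'.1 k'.2 e hs'
  · have p1 : p ≠ g := fun e => ug (e ▸ hp)
    have p2 : p ≠ h := fun e => uh (e ▸ hp)
    have q1 : q ≠ g := fun e => ug (e ▸ hq)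
    have q2 : q ≠ h := fun e => uh (e ▸ hq)
    by_cases b : Big g h Sm p
    · have b' := b.of_rel eqv q1 q2 hs'
      rcases hF.2 with ⟨_, m⟩ | ⟨a, _, _, k3, _, m⟩
      · exact m p ((hB p).2 b) q ((hB q).2 b')
      · have nn : ∀ x, ρ x = x → x ≠ a ∧ x ≠ ρ a := fun x hx =>
          ⟨fun e => k3 (e ▸ hx), fun e => k3 (by rw [← e, ← hρ a, ← e, hx])⟩
        rw [m p ((hB p).2 b) (nn p hp).1 (nn p hp).2, m q ((hB q).2 b') (nn q hq).1 (nn q hq).2]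
    · by_cases e : q = p
      · rw [e]
      have e' := h2 p q p1 p2 b q1 q2 e hs'
      rcases ch p (e' ▸ e) with k | k
      · exact absurd (e'.trans (k.symm.trans hp)) e
      · rw [e']; exact k.2.2

variable {V E : Type} {ends : E → Sym2 V}

theorem three_le_ncard [Finite V] {T : Set V} {a b d : V} (ha : a ∈ T) (hb : b ∈ T) (hd : d ∈ T)
    (h1 : a ≠ b) (h2 : a ≠ d) (h3 : b ≠ d) : 3 ≤ T.ncard := by
  rw [← Set.ncard_eq_three.2 ⟨a, b, d, h1, h2, h3, rfl⟩]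
  refine Set.ncard_le_ncard (fun x hx => ?_)
  rcases hx with rfl | rfl | rfl
  exacts [ha, hb, hd]

theorem three_attach [Finite V] {α : Type} {S X : Set E} {σ : Equiv.Perm α} {v : α → V}
    {ε t : α → E} {w : α → V} (h : Enum ends S σ v ε) (ht : Third ends S v t w) (hX : S ⊆ X)
    {p q r : α} (h1 : q ≠ p) (h2 : r ≠ p) (h3 : q ≠ r) (s1 : Same ends X t w p q)
    (s2 : Same ends X t w p r) : ¬ Touches ends X (w p) ∧
      3 ≤ (Attach ends X (w p) ∩ {a | Touches ends S a}).ncard := by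
  have hon : ∀ p, Touches ends X (v p) := fun p => (h.touches.2 ⟨p, rfl⟩).mono hX
  have n : ¬ Touches ends X (w p) := by
    intro k
    have e1 := (ht.chord h (s1.resolve_right (fun j => j.1 k))).resolve_left h1
    have e2 := (ht.chord h (s2.resolve_right (fun j => j.1 k))).resolve_left h2
    exact h3 (h.1 (e1.symm.trans e2))
  have m : ∀ q, Same ends X t w p q → v q ∈ Attach ends X (w p) ∩ {a | Touches ends S a} := by
    intro q s
    refine ⟨⟨hon q, w q, ?_⟩, h.touches.2 ⟨q, rfl⟩⟩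
    have e : ∃ e, ends e = s(w q, v q) := ⟨t q, by rw [(ht q).2.1, Sym2.eq_swap]⟩
    rcases s with k | ⟨_, k⟩
    · rcases ht.chord h k with j | j
      · rw [j] at e ⊢; exact ⟨n, .refl _, e⟩
      · exact absurd (j ▸ hon q) n
    · exact ⟨outside_reach k n, k, e⟩
  exact ⟨n, three_le_ncard (m p (Or.inl rfl)) (m q s1) (m r s2) (fun k => h1 (h.1 k).symm)
    (fun k => h2 (h.1 k).symm) (fun k => h3 (h.1 k))⟩

theorem rooted [Fintype V] [Fintype E] (hl : ∀ e, ¬ (ends e).IsDiag)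
    (hc : ∀ v : V, {e : E | v ∈ ends e}.ncard = 3) {S P : Set E} {x y : V}
    (hS : IsCircuit ends S) (hP : IsPath ends P x y) (hd : Disjoint P S)
    (hx : Touches ends S x) (hy : Touches ends S y)
    (hone : ∀ q₁ q₂ : V, ¬ Touches ends (S ∪ P) q₁ → ¬ Touches ends (S ∪ P) q₂ →
      3 ≤ (Attach ends (S ∪ P) q₁ ∩ {a | Touches ends S a}).ncard →
      3 ≤ (Attach ends (S ∪ P) q₂ ∩ {a | Touches ends S a}).ncard →
      (Outside ends (S ∪ P)).Reachable q₁ q₂) :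
    ∃ F, P ⊆ F ∧ F ≠ S ∧ IsCircuit ends F ∧ IsCircuit ends (symmDiff S F) ∧
      BridgesAttach ends S F := by
  classical
  obtain ⟨α, _, σ, g, r, v, ε, e1, e2, e3, e4, e5, hr⟩ := exists_enum hl hS hx
  have h : Enum ends S σ v ε := ⟨e2, e3, e4, e5⟩
  obtain ⟨b, rfl⟩ := h.touches.1 hy
  subst e1
  have hg : b ≠ g := fun e => hP.1 (by rw [e])
  choose t w ht using fun p => exists_third hc hS (h.touches.2 ⟨p, rfl⟩)
  have eqv := same_equiv h ht (X := S ∪ P) Set.subset_union_left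
  obtain ⟨c, ρ, hv, k0, k1, k2, k3⟩ := exists_labelled hr hg eqv (by
    rintro p q ⟨_, _, a1, a2, _, _, _, _, n1, n2, n3, s1, s2⟩
      ⟨_, _, b1, b2, _, _, _, _, m1, m2, m3, u1, u2⟩
    have i := three_attach h ht Set.subset_union_left n1 n2 n3 s1 s2
    have j := three_attach h ht Set.subset_union_left m1 m2 m3 u1 u2
    exact Or.inr ⟨i.1, hone _ _ i.1 j.1 i.2 j.2⟩)
  have k0' : ρ b = g := by rw [← k0, hv.1.1 g]
  refine realise (Root := fun p => p = g ∨ p = b) (p0 := g) hl hc hS h ht hv hd ?_ ?_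
    (Or.inr ⟨g, Or.inl rfl⟩) k1 k2 k3 (by rw [k0]; exact hg)
  · rintro p (rfl | rfl)
    · rw [k0]; exact ⟨hg, Or.inr rfl, hP⟩
    · rw [k0']; exact ⟨hg.symm, Or.inl rfl, hP.symm⟩
  · rintro p q (rfl | rfl) (rfl | rfl)
    exacts [Or.inl rfl, Or.inr k0.symm, Or.inr k0'.symm, Or.inl rfl]

end Pool.Agent.Lib.MP_061452_co
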