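import Mathlib

set_option autoImplicit false

namespace Pool.Agent.Lib.MP_061452_co

open Function

variable {Z : Type}

/-- The equivalence relation generated by two self-maps. -/
def Rel (γ θ : Z → Z) : Z → Z → Prop := Relation.EqvGen (fun x y => y = γ x ∨ y = θ x)

theorem Rel.refl (γ θ : Z → Z) (x : Z) : Rel γ θ x x := Relation.EqvGen.refl x

theorem Rel.symm {γ θ : Z → Z} {x y : Z} (h : Rel γ θ x y) : Rel γ θ y x :=
  Relation.EqvGen.symm _ _ h

theorem Rel.trans {γ θ : Z → Z} {x y z : Z} (h : Rel γ θ x y) (h' : Rel γ θ y z) :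
    Rel γ θ x z := Relation.EqvGen.trans _ _ _ h h'

theorem Rel.gam (γ θ : Z → Z) (x : Z) : Rel γ θ x (γ x) := Relation.EqvGen.rel _ _ (Or.inl rfl)

theorem Rel.the (γ θ : Z → Z) (x : Z) : Rel γ θ x (θ x) := Relation.EqvGen.rel _ _ (Or.inr rfl)

theorem Rel.ind {γ θ : Z → Z} (R : Z → Z → Prop) (hr : ∀ x, R x x)
    (hs : ∀ x y, R x y → R y x) (ht : ∀ x y z, R x y → R y z → R x z)
    (hγ : ∀ x, R x (γ x)) (hθ : ∀ x, R x (θ x)) {x y : Z} (h : Rel γ θ x y) : R x y := by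
  induction h with
  | rel x y h => rcases h with rfl | rfl; exacts [hγ x, hθ x]
  | refl x => exact hr x
  | symm x y _ ih => exact hs _ _ ih
  | trans x y z _ _ ih1 ih2 => exact ht _ _ _ ih1 ih2

theorem Rel.inv {γ θ : Z → Z} {β : Type} (f : Z → β) (hγ : ∀ x, f (γ x) = f x)
    (hθ : ∀ x, f (θ x) = f x) {x y : Z} (h : Rel γ θ x y) : f x = f y :=
  Rel.ind (fun x y => f x = f y) (fun _ => rfl) (fun _ _ h => h.symm)
    (fun _ _ _ h h' => h.trans h') (fun x => (hγ x).symm) (fun x => (hθ x).symm) h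

theorem Rel.mono {γ θ θ' : Z → Z} (hθ : ∀ x, Rel γ θ' x (θ x)) {x y : Z} (h : Rel γ θ x y) :
    Rel γ θ' x y :=
  Rel.ind (Rel γ θ') (Rel.refl _ _) (fun _ _ h => h.symm) (fun _ _ _ h h' => h.trans h')
    (Rel.gam _ _) hθ h

/-- A class of the relation contains an even number of fixed points of the second involution. -/
theorem exists_other_fixed [Fintype Z] {γ θ : Z → Z} (hγ : Involutive γ) (hθ : Involutive θ)
    (hfree : ∀ x, γ x ≠ x) {a : Z} (ha : θ a = a) : ∃ b, b ≠ a ∧ θ b = b ∧ Rel γ θ a b := by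
  classical
  by_contra hno
  push Not at hno
  let O : Finset Z := Finset.univ.filter (fun x => Rel γ θ a x)
  have hO : ∀ x, x ∈ O ↔ Rel γ θ a x := by intro x; simp [O]
  have h1 : ∑ _x ∈ O, (1 : ZMod 2) = 0 := by
    apply Finset.sum_involution (fun x _ => γ x)
    · intro x _; decide
    · intro x _ _; exact hfree x
    · intro x hx; exact (hO _).2 (((hO _).1 hx).trans (Rel.gam _ _ _))
    · intro x _; exact hγ x
  have h2 : ∑ _x ∈ O.erase a, (1 : ZMod 2) = 0 := by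
    apply Finset.sum_involution (fun x _ => θ x)
    · intro x _; decide
    · intro x hx _ hfix
      rw [Finset.mem_erase] at hx
      exact hno x hx.1 hfix ((hO _).1 hx.2)
    · intro x hx
      rw [Finset.mem_erase] at hx ⊢
      refine ⟨fun h => hx.1 ?_, (hO _).2 (((hO _).1 hx.2).trans (Rel.the _ _ _))⟩
      have := congrArg θ h
      rwa [hθ x, ha] at this
    · intro x _; exact hθ x
  have h3 := Finset.add_sum_erase O (fun _ => (1 : ZMod 2)) ((hO a).2 (Rel.refl _ _ _))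
  rw [h1, h2] at h3
  exact absurd h3 (by decide)

/-- A class of the relation contains at most two fixed points of the second involution. -/
theorem at_most_two_fixed {γ θ : Z → Z} (hγ : Involutive γ) (hθ : Involutive θ)
    {a b c : Z} (ha : θ a = a) (hb : θ b = b) (hc : θ c = c)
    (hab : Rel γ θ a b) (hac : Rel γ θ a c) : b = a ∨ c = a ∨ b = c := by
  let G : Equiv.Perm Z := hγ.toPerm γ
  let T : Equiv.Perm Z := hθ.toPerm θ
  let ψ : Equiv.Perm Z := G * T
  have hG : G * G = 1 := by ext x; exact hγ x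
  have hT : T * T = 1 := by ext x; exact hθ x
  have hTinv : T⁻¹ = T := inv_eq_of_mul_eq_one_right hT
  have hGinv : G⁻¹ = G := inv_eq_of_mul_eq_one_right hG
  have hconj : T * ψ * T⁻¹ = ψ⁻¹ := by
    simp only [ψ, mul_inv_rev, hTinv, hGinv]
    rw [mul_assoc, mul_assoc, hT, mul_one]
  have hk : ∀ k : ℤ, θ ((ψ ^ k) a) = (ψ ^ (-k)) a := by
    intro k
    have h1 : T * ψ ^ k * T⁻¹ = ψ ^ (-k) := by
      rw [← conj_zpow, hconj, inv_zpow']
    have h2 : (T * ψ ^ k * T⁻¹) a = (ψ ^ (-k)) a := by rw [h1]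
    rw [hTinv] at h2
    have h3 : T a = a := ha
    show T ((ψ ^ k) a) = _
    rw [← h2, Equiv.Perm.mul_apply, Equiv.Perm.mul_apply, h3]
  have hgk : ∀ x, γ x = ψ (θ x) := by
    intro x
    show γ x = γ (θ (θ x))
    rw [hθ x]
  have horb : ∀ x, Rel γ θ a x → ∃ k : ℤ, x = (ψ ^ k) a := by
    intro x hx
    have := Rel.inv (fun x => ∃ k : ℤ, x = (ψ ^ k) a) ?_ ?_ hx
    · exact this ▸ ⟨0, by simp⟩
    · have key : ∀ x, (∃ k : ℤ, x = (ψ ^ k) a) → ∃ k : ℤ, γ x = (ψ ^ k) a := by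
        rintro x ⟨k, rfl⟩
        refine ⟨1 + -k, ?_⟩
        rw [hgk ((ψ ^ k) a), hk k, zpow_add, zpow_one]
        rfl
      intro x
      apply propext
      constructor
      · intro h
        have := key _ h
        rwa [hγ x] at this
      · exact key x
    · have key : ∀ x, (∃ k : ℤ, x = (ψ ^ k) a) → ∃ k : ℤ, θ x = (ψ ^ k) a := by
        rintro x ⟨k, rfl⟩
        exact ⟨-k, hk k⟩
      intro x
      apply propext
      constructor
      · intro h
        have := key _ h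
        rwa [hθ x] at this
      · exact key x
  obtain ⟨k, rfl⟩ := horb b hab
  obtain ⟨l, rfl⟩ := horb c hac
  rw [hk] at hb hc
  have hiff : ∀ m n : ℤ, (ψ ^ m) a = (ψ ^ n) a ↔ (MulAction.period ψ a : ℤ) ∣ m - n := by
    intro m n
    rw [MulAction.period_eq_minimalPeriod, ← MulAction.zpow_smul_eq_iff_minimalPeriod_dvd]
    constructor
    · intro h
      have : (ψ ^ (m - n)) a = (ψ ^ (-n)) ((ψ ^ m) a) := by
        rw [← Equiv.Perm.mul_apply, ← zpow_add]; congr 2; ring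
      show (ψ ^ (m - n)) a = a
      rw [this, h, ← Equiv.Perm.mul_apply, ← zpow_add]; simp
    · intro h
      have h' : (ψ ^ (m - n)) a = a := h
      have : (ψ ^ m) a = (ψ ^ n) ((ψ ^ (m - n)) a) := by
        rw [← Equiv.Perm.mul_apply, ← zpow_add]; congr 2; ring
      rw [this, h']
  have e0 : a = (ψ ^ (0 : ℤ)) a := by simp
  obtain ⟨u, hu⟩ := (hiff _ _).1 hb
  obtain ⟨w, hw⟩ := (hiff _ _).1 hc
  set N : ℤ := (MulAction.period ψ a : ℤ) with hN
  rcases Int.even_or_odd' u with ⟨u', hu' | hu'⟩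
  · left
    conv_rhs => rw [e0]
    rw [hiff]
    exact ⟨-u', by rw [hu'] at hu; linarith⟩
  rcases Int.even_or_odd' w with ⟨w', hw' | hw'⟩
  · right; left
    conv_rhs => rw [e0]
    rw [hiff]
    exact ⟨-w', by rw [hw'] at hw; linarith⟩
  · right; right
    rw [hiff]
    exact ⟨w' - u', by rw [hu'] at hu; rw [hw'] at hw; linarith⟩

/-- All points of `Y` of the same colour are related. -/
def ConnOn (Y : Z → Prop) (γ θ : Z → Z) (col : Z → Bool) : Prop :=
  ∀ x y, Y x → Y y → col x = col y → Rel γ θ x y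

theorem tri_aux {γ θ0 θ1 θ2 θ3 : Z → Z} {Y : Z → Prop} {col : Z → Bool} {a b c d : Z}
    (h0a : θ0 a = a) (h0b : θ0 b = b) (h0c : θ0 c = c) (h0d : θ0 d = d)
    (h1 : ∀ x, x ≠ a → x ≠ b → x ≠ c → x ≠ d → θ1 x = θ0 x)
    (h2 : ∀ x, x ≠ a → x ≠ b → x ≠ c → x ≠ d → θ2 x = θ0 x)
    (h3 : ∀ x, x ≠ a → x ≠ b → x ≠ c → x ≠ d → θ3 x = θ0 x)
    (h1a : θ1 a = b) (h1b : θ1 b = a) (h1c : θ1 c = d) (h1d : θ1 d = c)
    (h2a : θ2 a = c) (h2b : θ2 b = d) (h2c : θ2 c = a) (h2d : θ2 d = b)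
    (h3a : θ3 a = d) (h3b : θ3 b = c) (h3c : θ3 c = b) (h3d : θ3 d = a)
    (hab : Rel γ θ0 a b) (hcd : Rel γ θ0 c d) (hac : ¬ Rel γ θ0 a c)
    (Ya : Y a) (Yc : Y c) (hcol : col a = col c) :
    ¬ ConnOn Y γ θ1 col ∧ (ConnOn Y γ θ2 col ↔ ConnOn Y γ θ3 col) := by
  have sub : ∀ θ : Z → Z, (∀ x, x ≠ a → x ≠ b → x ≠ c → x ≠ d → θ x = θ0 x) →
      ∀ x y, Rel γ θ0 x y → Rel γ θ x y := by
    intro θ h x y hxy
    refine Rel.mono (fun x => ?_) hxy
    by_cases ea : x = a
    · rw [ea, h0a]; exact Rel.refl _ _ _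
    by_cases eb : x = b
    · rw [eb, h0b]; exact Rel.refl _ _ _
    by_cases ec : x = c
    · rw [ec, h0c]; exact Rel.refl _ _ _
    by_cases ed : x = d
    · rw [ed, h0d]; exact Rel.refl _ _ _
    rw [← h x ea eb ec ed]; exact Rel.the _ _ _
  have swap : ∀ θ θ' : Z → Z, (∀ x, x ≠ a → x ≠ b → x ≠ c → x ≠ d → θ x = θ0 x) →
      (∀ x, x ≠ a → x ≠ b → x ≠ c → x ≠ d → θ' x = θ0 x) → Rel γ θ' a c →
      (θ a = c ∨ θ a = d) → (θ b = c ∨ θ b = d) → (θ c = a ∨ θ c = b) → (θ d = a ∨ θ d = b) →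
      ∀ x y, Rel γ θ x y → Rel γ θ' x y := by
    intro θ θ' h h' r ka kb kc kd x y hxy
    have rab := sub θ' h' _ _ hab
    have rcd := sub θ' h' _ _ hcd
    refine Rel.mono (fun x => ?_) hxy
    by_cases ea : x = a
    · rw [ea]; rcases ka with k | k <;> rw [k]
      exacts [r, r.trans rcd]
    by_cases eb : x = b
    · rw [eb]; rcases kb with k | k <;> rw [k]
      exacts [rab.symm.trans r, (rab.symm.trans r).trans rcd]
    by_cases ec : x = c
    · rw [ec]; rcases kc with k | k <;> rw [k]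
      exacts [r.symm, r.symm.trans rab]
    by_cases ed : x = d
    · rw [ed]; rcases kd with k | k <;> rw [k]
      exacts [rcd.symm.trans r.symm, (rcd.symm.trans r.symm).trans rab]
    rw [h x ea eb ec ed, ← h' x ea eb ec ed]; exact Rel.the _ _ _
  have r2 : Rel γ θ2 a c := h2a ▸ Rel.the _ _ _
  have r3 : Rel γ θ3 a c := (h3a ▸ Rel.the γ θ3 a : Rel γ θ3 a d).trans (sub θ3 h3 _ _ hcd).symm
  refine ⟨fun h => hac ?_, fun h x y hx hy hc => ?_, fun h x y hx hy hc => ?_⟩
  · refine Rel.mono (fun x => ?_) (h a c Ya Yc hcol)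
    by_cases ea : x = a
    · rw [ea, h1a]; exact hab
    by_cases eb : x = b
    · rw [eb, h1b]; exact hab.symm
    by_cases ec : x = c
    · rw [ec, h1c]; exact hcd
    by_cases ed : x = d
    · rw [ed, h1d]; exact hcd.symm
    rw [h1 x ea eb ec ed]; exact Rel.the _ _ _
  · exact swap θ2 θ3 h2 h3 r3 (Or.inl h2a) (Or.inr h2b) (Or.inl h2c) (Or.inr h2d) _ _
      (h x y hx hy hc)
  · exact swap θ3 θ2 h3 h2 r2 (Or.inr h3a) (Or.inl h3b) (Or.inr h3c) (Or.inl h3d) _ _
      (h x y hx hy hc)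

open Classical in
/-- The indicator of a proposition, modulo two. -/
noncomputable def ind (P : Prop) : ZMod 2 := if P then 1 else 0

theorem ind_pos {P : Prop} (h : P) : ind P = 1 := if_pos h
theorem ind_neg {P : Prop} (h : ¬ P) : ind P = 0 := if_neg h
theorem ind_congr {P Q : Prop} (h : P ↔ Q) : ind P = ind Q := by rw [propext h]
theorem zmod2_add_self (x : ZMod 2) : x + x = 0 := by revert x; decide

/-- Of the three ways of pairing four loose ends, an even number gives a connected structure. -/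
theorem tri [Fintype Z] {γ θ1 θ2 θ3 : Z → Z} {Y : Z → Prop} {col : Z → Bool} {a b c d : Z}
    (hγ : Involutive γ) (hfree : ∀ x, γ x ≠ x) (hθ : Involutive θ1)
    (hf1 : ∀ x, θ1 x ≠ x)
    (nab : a ≠ b) (nac : a ≠ c) (nad : a ≠ d) (nbc : b ≠ c) (nbd : b ≠ d) (ncd : c ≠ d)
    (h2 : ∀ x, x ≠ a → x ≠ b → x ≠ c → x ≠ d → θ2 x = θ1 x)
    (h3 : ∀ x, x ≠ a → x ≠ b → x ≠ c → x ≠ d → θ3 x = θ1 x)
    (h1a : θ1 a = b) (h1b : θ1 b = a) (h1c : θ1 c = d) (h1d : θ1 d = c)
    (h2a : θ2 a = c) (h2b : θ2 b = d) (h2c : θ2 c = a) (h2d : θ2 d = b)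
    (h3a : θ3 a = d) (h3b : θ3 b = c) (h3c : θ3 c = b) (h3d : θ3 d = a)
    (Ya : Y a) (Yb : Y b) (Yc : Y c) (cb : col a = col b) (cc : col a = col c) :
    ind (ConnOn Y γ θ1 col) + ind (ConnOn Y γ θ2 col) = ind (ConnOn Y γ θ3 col) := by
  classical
  let θ0 : Z → Z := fun x => if x = a ∨ x = b ∨ x = c ∨ x = d then x else θ1 x
  have h0a : θ0 a = a := by simp [θ0]
  have h0b : θ0 b = b := by simp [θ0]
  have h0c : θ0 c = c := by simp [θ0]
  have h0d : θ0 d = d := by simp [θ0]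
  have h1 : ∀ x, x ≠ a → x ≠ b → x ≠ c → x ≠ d → θ1 x = θ0 x := by
    intro x e1 e2 e3 e4; simp [θ0, e1, e2, e3, e4]
  have h2' : ∀ x, x ≠ a → x ≠ b → x ≠ c → x ≠ d → θ2 x = θ0 x := by
    intro x e1 e2 e3 e4; rw [h2 x e1 e2 e3 e4, h1 x e1 e2 e3 e4]
  have h3' : ∀ x, x ≠ a → x ≠ b → x ≠ c → x ≠ d → θ3 x = θ0 x := by
    intro x e1 e2 e3 e4; rw [h3 x e1 e2 e3 e4, h1 x e1 e2 e3 e4]
  have hθ0 : Involutive θ0 := by
    intro x
    by_cases hx : x = a ∨ x = b ∨ x = c ∨ x = d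
    · have : θ0 x = x := by simp only [θ0, if_pos hx]
      rw [this, this]
    · have e : θ0 x = θ1 x := by simp only [θ0, if_neg hx]
      have hy : ¬ (θ1 x = a ∨ θ1 x = b ∨ θ1 x = c ∨ θ1 x = d) := by
        intro h
        apply hx
        have hx' : x = θ1 (θ1 x) := (hθ x).symm
        rcases h with h | h | h | h <;> rw [h] at hx'
        · rw [hx', h1a]; simp
        · rw [hx', h1b]; simp
        · rw [hx', h1c]; simp
        · rw [hx', h1d]; simp
      rw [e]; simp only [θ0, if_neg hy]; exact hθ x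
  have hfix : ∀ x, θ0 x = x → x = a ∨ x = b ∨ x = c ∨ x = d := by
    intro x hx
    by_contra hn
    simp only [θ0, if_neg hn] at hx
    exact hf1 x hx
  have two := fun (x y z : Z) (hx : θ0 x = x) (hy : θ0 y = y) (hz : θ0 z = z) =>
    at_most_two_fixed hγ hθ0 hx hy hz
  obtain ⟨x, hxa, hx, rx⟩ := exists_other_fixed hγ hθ0 hfree h0a
  rcases hfix x hx with rfl | rfl | rfl | rfl
  · exact absurd rfl hxa
  · have nc : ¬ Rel γ θ0 a c := fun h => by
      rcases two _ _ _ h0a h0b h0c rx h with e | e | e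
      exacts [nab e.symm, nac e.symm, nbc e]
    obtain ⟨y, hyc, hy, ry⟩ := exists_other_fixed hγ hθ0 hfree h0c
    have rcd : Rel γ θ0 c d := by
      rcases hfix y hy with rfl | rfl | rfl | rfl
      · exact absurd ry.symm nc
      · exact absurd (rx.trans ry.symm) nc
      · exact absurd rfl hyc
      · exact ry
    obtain ⟨k1, k2⟩ := tri_aux (Y := Y) (col := col) h0a h0b h0c h0d h1 h2' h3' h1a h1b h1c h1d
      h2a h2b h2c h2d h3a h3b h3c h3d rx rcd nc Ya Yc cc
    rw [ind_neg k1, zero_add, ind_congr k2]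
  · have nc : ¬ Rel γ θ0 a b := fun h => by
      rcases two _ _ _ h0a h0b h0c h rx with e | e | e
      exacts [nab e.symm, nac e.symm, nbc e]
    obtain ⟨y, hyc, hy, ry⟩ := exists_other_fixed hγ hθ0 hfree h0b
    have rcd : Rel γ θ0 b d := by
      rcases hfix y hy with rfl | rfl | rfl | rfl
      · exact absurd ry.symm nc
      · exact absurd rfl hyc
      · exact absurd (rx.trans ry.symm) nc
      · exact ry
    obtain ⟨k1, k2⟩ := tri_aux (Y := Y) (col := col) (θ1 := θ2) (θ2 := θ1) (θ3 := θ3)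
      h0a h0c h0b h0d (fun x e1 e2 e3 e4 => h2' x e1 e3 e2 e4)
      (fun x e1 e2 e3 e4 => h1 x e1 e3 e2 e4) (fun x e1 e2 e3 e4 => h3' x e1 e3 e2 e4)
      h2a h2c h2b h2d h1a h1c h1b h1d h3a h3c h3b h3d rx rcd nc Ya Yb cb
    rw [ind_neg k1, add_zero, ind_congr k2]
  · have nc : ¬ Rel γ θ0 a b := fun h => by
      rcases two _ _ _ h0a h0b h0d h rx with e | e | e
      exacts [nab e.symm, nad e.symm, nbd e]
    obtain ⟨y, hyc, hy, ry⟩ := exists_other_fixed hγ hθ0 hfree h0b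
    have rcd : Rel γ θ0 b c := by
      rcases hfix y hy with rfl | rfl | rfl | rfl
      · exact absurd ry.symm nc
      · exact absurd rfl hyc
      · exact ry
      · exact absurd (rx.trans ry.symm) nc
    obtain ⟨k1, k2⟩ := tri_aux (Y := Y) (col := col) (θ1 := θ3) (θ2 := θ1) (θ3 := θ2)
      h0a h0d h0b h0c (fun x e1 e2 e3 e4 => h3' x e1 e3 e4 e2)
      (fun x e1 e2 e3 e4 => h1 x e1 e3 e4 e2) (fun x e1 e2 e3 e4 => h2' x e1 e3 e4 e2)
      h3a h3d h3b h3c h1a h1d h1b h1c h2a h2d h2b h2c rx rcd nc Ya Yb cb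
    rw [ind_neg k1, ind_congr k2, zmod2_add_self]

/-- The second map with the pair `t1, t2` cut out. -/
def cut [DecidableEq Z] (θ : Z → Z) (t1 t2 : Z) : Z → Z := fun x =>
  if x = t1 then t2 else if x = t2 then t1 else if x = θ t1 then θ t2
  else if x = θ t2 then θ t1 else θ x

/-- Cutting out a short piece does not change connectivity. -/
theorem conn_cut [DecidableEq Z] {γ θ : Z → Z} {col col' : Z → Bool} {t1 t2 : Z}
    (hγ : Involutive γ) (hθ : Involutive θ) (h12 : γ t1 = t2) (n12 : t1 ≠ t2)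
    (u1 : θ t1 ≠ t1) (u2 : θ t1 ≠ t2) (w2 : θ t2 ≠ t2)
    (c1 : col (θ t1) = col t1) (c2 : col t2 = col t1)
    (hc : ∀ x, x ≠ t1 → x ≠ t2 → col' x = col x) :
    ConnOn (fun _ => True) γ θ col ↔ ConnOn (fun x => x ≠ t1 ∧ x ≠ t2) γ (cut θ t1 t2) col' := by
  have h21 : γ t2 = t1 := by rw [← h12, hγ t1]
  have w1 : θ t2 ≠ t1 := fun h => u2 (by rw [← h, hθ t2])
  have r12 : Rel γ θ t1 t2 := h12 ▸ Rel.gam _ _ _
  have ruw : Rel γ (cut θ t1 t2) (θ t1) (θ t2) := by
    have : cut θ t1 t2 (θ t1) = θ t2 := by simp [cut, u1, u2]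
    rw [← this]; exact Rel.the _ _ _
  let f : Z → Z := fun x => if x = t1 ∨ x = t2 then θ t1 else x
  have f1 : f t1 = θ t1 := by simp [f]
  have f2 : f t2 = θ t1 := by simp [f]
  have fo : ∀ x, x ≠ t1 → x ≠ t2 → f x = x := by intro x e1 e2; simp [f, e1, e2]
  constructor
  · intro h x y hx hy hxy
    have r := h x y trivial trivial (by rw [← hc x hx.1 hx.2, ← hc y hy.1 hy.2, hxy])
    have : Rel γ (cut θ t1 t2) (f x) (f y) := by
      refine Rel.ind (fun x y => Rel γ (cut θ t1 t2) (f x) (f y)) (fun _ => Rel.refl _ _ _)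
        (fun _ _ h => h.symm) (fun _ _ _ h h' => h.trans h') (fun x => ?_) (fun x => ?_) r
      · by_cases e1 : x = t1
        · rw [e1, h12, f1, f2]; exact Rel.refl _ _ _
        by_cases e2 : x = t2
        · rw [e2, h21, f1, f2]; exact Rel.refl _ _ _
        rw [fo x e1 e2, fo (γ x) (fun h => e2 (by rw [← h12, ← h, hγ x]))
          (fun h => e1 (by rw [← h21, ← h, hγ x]))]
        exact Rel.gam _ _ _
      · by_cases e1 : x = t1
        · rw [e1, f1, fo _ u1 u2]; exact Rel.refl _ _ _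
        by_cases e2 : x = t2
        · rw [e2, f2, fo _ w1 w2]; exact ruw
        by_cases e3 : x = θ t1
        · rw [e3, hθ t1, f1, fo _ u1 u2]; exact Rel.refl _ _ _
        by_cases e4 : x = θ t2
        · rw [e4, hθ t2, f2, fo _ w1 w2]; exact ruw.symm
        rw [fo x e1 e2, fo (θ x) (fun h => e3 (by rw [← h, hθ x]))
          (fun h => e4 (by rw [← h, hθ x]))]
        have : cut θ t1 t2 x = θ x := by simp [cut, e1, e2, e3, e4]
        rw [← this]; exact Rel.the _ _ _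
    rwa [fo x hx.1 hx.2, fo y hy.1 hy.2] at this
  · intro h x y _ _ hxy
    have rf : ∀ x, Rel γ θ x (f x) := by
      intro x
      by_cases e1 : x = t1
      · rw [e1, f1]; exact Rel.the _ _ _
      by_cases e2 : x = t2
      · rw [e2, f2]; exact r12.symm.trans (Rel.the _ _ _)
      rw [fo x e1 e2]; exact Rel.refl _ _ _
    have nf : ∀ x, f x ≠ t1 ∧ f x ≠ t2 := by
      intro x
      by_cases e1 : x = t1
      · rw [e1, f1]; exact ⟨u1, u2⟩
      by_cases e2 : x = t2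
      · rw [e2, f2]; exact ⟨u1, u2⟩
      rw [fo x e1 e2]; exact ⟨e1, e2⟩
    have cf : ∀ x, col' (f x) = col x := by
      intro x
      rw [hc _ (nf x).1 (nf x).2]
      by_cases e1 : x = t1
      · rw [e1, f1, c1]
      by_cases e2 : x = t2
      · rw [e2, f2, c1, c2]
      rw [fo x e1 e2]
    have r := h (f x) (f y) (nf x) (nf y) (by rw [cf, cf, hxy])
    have r' : Rel γ θ (f x) (f y) := by
      refine Rel.mono (fun x => ?_) r
      by_cases e1 : x = t1
      · have : cut θ t1 t2 x = t2 := by simp [cut, e1]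
        rw [this, e1]; exact r12
      by_cases e2 : x = t2
      · have : cut θ t1 t2 x = t1 := by simp [cut, e2, n12.symm]
        rw [this, e2]; exact r12.symm
      by_cases e3 : x = θ t1
      · have : cut θ t1 t2 x = θ t2 := by simp [cut, e3, u1, u2]
        rw [this, e3]
        exact ((Rel.the γ θ t1).symm.trans r12).trans (Rel.the _ _ _)
      by_cases e4 : x = θ t2
      · have : cut θ t1 t2 x = θ t1 := by
          simp only [cut, if_neg e1, if_neg e2, if_neg e3, if_pos e4]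
        rw [this, e4]
        exact ((Rel.the γ θ t2).symm.trans r12.symm).trans (Rel.the _ _ _)
      have : cut θ t1 t2 x = θ x := by simp [cut, e1, e2, e3, e4]
      rw [this]; exact Rel.the _ _ _
    exact ((rf x).trans r').trans (rf y).symm

end Pool.Agent.Lib.MP_061452_co
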