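import Pool.Agent.Lib.MP_061452_co.Slots

set_option autoImplicit false

namespace Pool.Agent.Lib.MP_061452_co

open Function

section cutlemmas
variable {Z : Type} [DecidableEq Z] {θ : Z → Z} {t1 t2 : Z}

theorem cut_t1 : cut θ t1 t2 t1 = t2 := by simp [cut]
theorem cut_t2 (n12 : t1 ≠ t2) : cut θ t1 t2 t2 = t1 := by simp [cut, n12.symm]
theorem cut_a {x y : Z} (h1 : θ t1 = x) (h2 : θ t2 = y) (u1 : x ≠ t1) (u2 : x ≠ t2) :
    cut θ t1 t2 x = y := by simp [cut, u1, u2, h1, h2]
theorem cut_b {x y : Z} (h1 : θ t1 = x) (h2 : θ t2 = y) (u1 : y ≠ t1) (u2 : y ≠ t2) :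
    cut θ t1 t2 y = x := by
  by_cases h : y = x
  · simp [cut, h ▸ u1, h ▸ u2, h1, h2, h]
  · simp [cut, u1, u2, h1, h2, h]
theorem cut_o {x : Z} (e1 : x ≠ t1) (e2 : x ≠ t2) (e3 : x ≠ θ t1) (e4 : x ≠ θ t2) :
    cut θ t1 t2 x = θ x := by simp [cut, e1, e2, e3, e4]

theorem cut_invol (hθ : Involutive θ) (n12 : t1 ≠ t2) (u1 : θ t1 ≠ t1) (u2 : θ t1 ≠ t2)
    (w2 : θ t2 ≠ t2) : Involutive (cut θ t1 t2) := by
  have w1 : θ t2 ≠ t1 := fun h => u2 (by rw [← h, hθ t2])
  intro x
  by_cases e1 : x = t1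
  · rw [e1, cut_t1, cut_t2 n12]
  by_cases e2 : x = t2
  · rw [e2, cut_t2 n12, cut_t1]
  by_cases e3 : x = θ t1
  · rw [e3, cut_a rfl rfl u1 u2, cut_b rfl rfl w1 w2]
  by_cases e4 : x = θ t2
  · rw [e4, cut_b rfl rfl w1 w2, cut_a rfl rfl u1 u2]
  rw [cut_o e1 e2 e3 e4, cut_o, hθ x]
  · exact fun h => e3 (by rw [← h, hθ x])
  · exact fun h => e4 (by rw [← h, hθ x])
  · exact fun h => e1 (hθ.injective h)
  · exact fun h => e2 (hθ.injective h)

theorem cut_free (hθ : Involutive θ) (hf : ∀ x, θ x ≠ x) (n12 : t1 ≠ t2) (u2 : θ t1 ≠ t2)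
    (x : Z) : cut θ t1 t2 x ≠ x := by
  have w1 : θ t2 ≠ t1 := fun h => u2 (by rw [← h, hθ t2])
  by_cases e1 : x = t1
  · rw [e1, cut_t1]; exact n12.symm
  by_cases e2 : x = t2
  · rw [e2, cut_t2 n12]; exact n12
  by_cases e3 : x = θ t1
  · rw [e3, cut_a rfl rfl (hf _) u2]; exact fun h => n12 (hθ.injective h).symm
  by_cases e4 : x = θ t2
  · rw [e4, cut_b rfl rfl w1 (hf _)]; exact fun h => n12 (hθ.injective h)
  rw [cut_o e1 e2 e3 e4]; exact hf x

end cutlemmas

variable {α : Type} [DecidableEq α]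

/-- Running along the arc that starts or ends at a slot. -/
def gam (σ : Equiv.Perm α) : α × Bool → α × Bool := fun x =>
  if x.2 = true then (σ x.1, false) else (σ.symm x.1, true)

/-- The colour of the arc at a slot. -/
def col (σ : Equiv.Perm α) (c : α → Bool) : α × Bool → Bool := fun x =>
  if x.2 = true then c x.1 else c (σ.symm x.1)

/-- Passing through a point, or along the path that starts at it. -/
def the (σ : Equiv.Perm α) (c : α → Bool) (ρ : α → α) : α × Bool → α × Bool := fun x =>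
  if ρ x.1 = x.1 then (x.1, !x.2) else (ρ x.1, c (ρ x.1) == col σ c x)

/-- The colour changes exactly at the used points. -/
def LV (σ : Equiv.Perm α) (g : α) (c : α → Bool) (ρ : α → α) : Prop :=
  Involutive ρ ∧ (∀ p, ρ p = p ↔ c (σ.symm p) = c p) ∧ c (σ.symm g) = true

/-- Both colour classes are connected. -/
def Conn (σ : Equiv.Perm α) (c : α → Bool) (ρ : α → α) : Prop :=
  ConnOn (fun _ => True) (gam σ) (the σ c ρ) (col σ c)

variable {σ : Equiv.Perm α} {g : α} {c : α → Bool} {ρ : α → α}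

omit [DecidableEq α] in
@[simp] theorem gam_true (p : α) : gam σ (p, true) = (σ p, false) := by simp [gam]
omit [DecidableEq α] in
@[simp] theorem gam_false (p : α) : gam σ (p, false) = (σ.symm p, true) := by simp [gam]
omit [DecidableEq α] in
@[simp] theorem col_true (p : α) : col σ c (p, true) = c p := by simp [col]
omit [DecidableEq α] in
@[simp] theorem col_false (p : α) : col σ c (p, false) = c (σ.symm p) := by simp [col]

theorem the_fix {p : α} (h : ρ p = p) (s : Bool) : the σ c ρ (p, s) = (p, !s) := by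
  simp [the, h]
theorem the_used {p : α} (h : ρ p ≠ p) (s : Bool) :
    the σ c ρ (p, s) = (ρ p, c (ρ p) == col σ c (p, s)) := by
  simp [the, h]

omit [DecidableEq α] in
theorem gam_invol : Involutive (gam σ) := by
  rintro ⟨p, s⟩; cases s <;> simp
omit [DecidableEq α] in
theorem gam_free (x : α × Bool) : gam σ x ≠ x := by
  obtain ⟨p, s⟩ := x; cases s <;> simp
omit [DecidableEq α] in
theorem col_gam (x : α × Bool) : col σ c (gam σ x) = col σ c x := by
  obtain ⟨p, s⟩ := x; cases s <;> simp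

omit [DecidableEq α] in
theorem col_slot {q : α} (h : c (σ.symm q) ≠ c q) (X : Bool) : col σ c (q, c q == X) = X := by
  cases hq : c q <;> cases X <;> simp_all

omit [DecidableEq α] in
theorem slot_col {q : α} (h : c (σ.symm q) ≠ c q) (s : Bool) : (c q == col σ c (q, s)) = s := by
  cases hq : c q <;> cases s <;> simp_all

omit [DecidableEq α] in
theorem LV.used (h : LV σ g c ρ) {p : α} (hp : ρ p ≠ p) : c (σ.symm p) ≠ c p :=
  fun e => hp ((h.2.1 p).2 e)

omit [DecidableEq α] in
theorem LV.used' (h : LV σ g c ρ) {p : α} (hp : ρ p ≠ p) : ρ (ρ p) ≠ ρ p := by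
  rw [h.1 p]; exact hp.symm

theorem col_the (h : LV σ g c ρ) (x : α × Bool) : col σ c (the σ c ρ x) = col σ c x := by
  obtain ⟨p, s⟩ := x
  by_cases hp : ρ p = p
  · rw [the_fix hp]
    have := (h.2.1 p).1 hp
    cases s <;> simp [this]
  · rw [the_used hp, col_slot (h.used (h.used' hp))]

theorem the_invol (h : LV σ g c ρ) : Involutive (the σ c ρ) := by
  rintro ⟨p, s⟩
  by_cases hp : ρ p = p
  · rw [the_fix hp, the_fix hp]; simp
  · rw [the_used hp, the_used (h.used' hp), h.1 p, col_slot (h.used (h.used' hp)),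
      slot_col (h.used hp)]

theorem the_free (x : α × Bool) : the σ c ρ x ≠ x := by
  obtain ⟨p, s⟩ := x
  by_cases hp : ρ p = p
  · rw [the_fix hp]; cases s <;> simp
  · rw [the_used hp]; exact fun e => hp (congrArg Prod.fst e)

/-- Away from the two neighbouring points nothing changes. -/
theorem the_other {c' : α → Bool} {ρ' : α → α} {i j p : α} (hj : j = σ i)
    (hc : ∀ q, q ≠ i → c' q = c q) (hpi : p ≠ i) (hpj : p ≠ j) (hρ : ρ' p = ρ p)
    (hi : ρ p ≠ i) (s : Bool) : the σ c' ρ' (p, s) = the σ c ρ (p, s) := by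
  have hs : σ.symm p ≠ i := fun e => hpj (by rw [hj, ← e]; simp)
  have : col σ c' (p, s) = col σ c (p, s) := by cases s <;> simp [hc _ hpi, hc _ hs]
  by_cases hp : ρ p = p
  · rw [the_fix hp, the_fix (hρ.trans hp)]
  · rw [the_used hp, the_used (by rw [hρ]; exact hp), hρ, this, hc _ hi]

theorem conn_iff_cut {i j : α} (h : LV σ g c ρ) (hj : j = σ i) (hij : i ≠ j) (hρ : ρ i ≠ j)
    {c' : α → Bool} (hc : ∀ q, q ≠ i → c' q = c q) :
    Conn σ c ρ ↔ ConnOn (fun x => x ≠ (i, true) ∧ x ≠ (j, false)) (gam σ)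
      (cut (the σ c ρ) (i, true) (j, false)) (col σ c') := by
  apply conn_cut gam_invol (the_invol h)
  · rw [gam_true, hj]
  · simp
  · exact the_free _
  · by_cases hp : ρ i = i
    · rw [the_fix hp]; exact fun e => hij (congrArg Prod.fst e)
    · rw [the_used hp]; exact fun e => hρ (congrArg Prod.fst e)
  · exact the_free _
  · exact col_the h _
  · simp [hj]
  · rintro ⟨p, s⟩ e1 e2
    cases s
    · have : σ.symm p ≠ i := fun e => e2 (by rw [hj, ← e]; simp)
      simp [hc _ this]
    · have : p ≠ i := fun e => e1 (by rw [e])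
      simp [hc _ this]

theorem bool_slot (a X s : Bool) : s = (a == X) ∨ s = (a == !X) := by
  cases a <;> cases X <;> cases s <;> simp

/-- Moving an unused point across a used one does not change connectivity. -/
theorem conn_slide {c' : α → Bool} {ρ' : α → α} {i j k : α} (h : LV σ g c ρ)
    (h' : LV σ g c' ρ') (hj : j = σ i) (hij : i ≠ j) (hi : ρ i = k) (hki : k ≠ i) (hjj : ρ j = j)
    (hi' : ρ' i = i) (hj' : ρ' j = k) (ho : ∀ p, p ≠ i → p ≠ j → p ≠ k → ρ' p = ρ p)
    (hc : ∀ q, q ≠ i → c' q = c q) : Conn σ c ρ ↔ Conn σ c' ρ' := by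
  have hkj : k ≠ j := fun e => hij (by rw [← h.1 i, hi, e, hjj])
  have hsj : σ.symm j = i := by rw [hj]; simp
  have hsi : σ.symm i ≠ i := fun e => hij (by rw [hj]; exact (Equiv.symm_apply_eq σ).1 e)
  have c1 : c (σ.symm i) = !c i := by
    have := h.used (p := i) (by rw [hi]; exact hki)
    revert this; cases c (σ.symm i) <;> cases c i <;> simp
  have c2 : c j = c i := by have := (h.2.1 j).1 hjj; rw [hsj] at this; exact this.symm
  have c3 : c' i = !c i := by have := (h'.2.1 i).1 hi'; rw [hc _ hsi, c1] at this; exact this.symm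
  have ui : ρ i ≠ i := by rw [hi]; exact hki
  have uj : ρ' j ≠ j := by rw [hj']; exact hkj
  have a1 : the σ c ρ (i, true) = (k, c k == c i) := by rw [the_used ui, hi]; simp
  have a2 : the σ c ρ (j, false) = (j, true) := by rw [the_fix hjj]; simp
  have a3 : the σ c ρ (i, false) = (k, c k == !c i) := by rw [the_used ui, hi]; simp [c1]
  have b1 : the σ c' ρ' (i, true) = (i, false) := by rw [the_fix hi']; simp
  have b2 : the σ c' ρ' (j, false) = (k, c k == !c i) := by
    rw [the_used uj, hj', hc _ hki]; simp [hsj, c3]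
  have b3 : the σ c' ρ' (j, true) = (k, c k == c i) := by
    rw [the_used uj, hj', hc _ hki]; simp [hc _ hij.symm, c2]
  have a3' : the σ c ρ (k, c k == !c i) = (i, false) := by rw [← a3, the_invol h]
  have b3' : the σ c' ρ' (k, c k == c i) = (j, true) := by rw [← b3, the_invol h']
  have nn : (c k == c i) ≠ (c k == !c i) := by cases c k <;> cases c i <;> simp
  rw [conn_iff_cut (c' := c) h hj hij (by rw [hi]; exact hkj) (fun _ _ => rfl),
    conn_iff_cut (c' := c) h' hj hij (by rw [hi']; exact hij) (fun q hq => (hc q hq).symm)]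
  have : cut (the σ c ρ) (i, true) (j, false) = cut (the σ c' ρ') (i, true) (j, false) := by
    funext ⟨p, s⟩
    by_cases e1 : p = i
    · subst e1
      cases s
      · rw [cut_a b1 b2 (by simp) (by simp [hij]), cut_o (by simp) (by simp [hij])
          (by rw [a1]; simp [hki.symm]) (by rw [a2]; simp), a3]
      · rw [cut_t1, cut_t1]
    by_cases e2 : p = j
    · subst e2
      cases s
      · rw [cut_t2 (by simp), cut_t2 (by simp)]
      · rw [cut_b a1 a2 (by simp [e1]) (by simp), cut_o (by simp [e1]) (by simp)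
          (by rw [b1]; simp) (by rw [b2]; simp [hkj.symm]), b3]
    by_cases e3 : p = k
    · subst e3
      rcases bool_slot (c p) (c i) s with rfl | rfl
      · rw [cut_a a1 a2 (by simp [e1]) (by simp [e2]), cut_o (by simp [e1]) (by simp [e2])
          (by rw [b1]; simp [e1]) (by rw [b2]; simp [nn]), b3']
      · rw [cut_b b1 b2 (by simp [e1]) (by simp [e2]), cut_o (by simp [e1]) (by simp [e2])
          (by rw [a1]; simp [nn.symm]) (by rw [a2]; simp [e2]), a3']
    have hk : ρ k = i := by rw [← hi, h.1 i]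
    rw [cut_o (by simp [e1]) (by simp [e2]) (by rw [a1]; simp [e3]) (by rw [a2]; simp [e2]),
      cut_o (by simp [e1]) (by simp [e2]) (by rw [b1]; simp [e1]) (by rw [b2]; simp [e3]),
      the_other hj hc e1 e2 (ho p e1 e2 e3) (fun e => e3 (by rw [← h.1 p, e, hi]))]
  rw [this]

/-- Exchanging two neighbouring used points. -/
theorem conn_tri [Fintype α] {c3 : α → Bool} {ρ2 ρ3 : α → α} {i j k l : α} (h : LV σ g c ρ)
    (h2 : LV σ g c ρ2) (h3 : LV σ g c3 ρ3) (hj : j = σ i) (hij : i ≠ j)
    (hi : ρ i = k) (hjl : ρ j = l) (hki : k ≠ i) (hkj : k ≠ j) (hlj : l ≠ j)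
    (hi2 : ρ2 i = l) (hj2 : ρ2 j = k)
    (ho2 : ∀ p, p ≠ i → p ≠ j → p ≠ k → p ≠ l → ρ2 p = ρ p)
    (hi3 : ρ3 i = i) (hj3 : ρ3 j = j) (hk3 : ρ3 k = l)
    (ho3 : ∀ p, p ≠ i → p ≠ j → p ≠ k → p ≠ l → ρ3 p = ρ p)
    (hc : ∀ q, q ≠ i → c3 q = c q) :
    ind (Conn σ c ρ) + ind (Conn σ c ρ2) = ind (Conn σ c3 ρ3) := by
  have hli : l ≠ i := fun e => hkj (by rw [← hi, ← e, ← hjl, h.1 j])
  have hkl : k ≠ l := fun e => hij (h.1.injective (by rw [hi, hjl, e]))
  have hsj : σ.symm j = i := by rw [hj]; simp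
  have ui : ρ i ≠ i := by rw [hi]; exact hki
  have uj : ρ j ≠ j := by rw [hjl]; exact hlj
  have ui2 : ρ2 i ≠ i := by rw [hi2]; exact hli
  have uj2 : ρ2 j ≠ j := by rw [hj2]; exact hkj
  have uk3 : ρ3 k ≠ k := by rw [hk3]; exact hkl.symm
  have hk : ρ k = i := by rw [← hi, h.1 i]
  have hl : ρ l = j := by rw [← hjl, h.1 j]
  have uk : ρ k ≠ k := by rw [hk]; exact hki.symm
  have ul : ρ l ≠ l := by rw [hl]; exact hlj.symm
  have c1 : c (σ.symm i) = !c i := by
    have := h.used ui
    revert this; cases c (σ.symm i) <;> cases c i <;> simp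
  have c2 : c j = !c i := by
    have := h.used uj
    rw [hsj] at this
    revert this; cases c j <;> cases c i <;> simp
  have hsk : σ.symm k ≠ i := fun e => hkj (by rw [hj, ← e]; simp)
  have a1 : the σ c ρ (i, true) = (k, c k == c i) := by rw [the_used ui, hi]; simp
  have a2 : the σ c ρ (j, false) = (l, c l == c i) := by rw [the_used uj, hjl]; simp [hsj]
  have a3 : the σ c ρ (i, false) = (k, c k == !c i) := by rw [the_used ui, hi]; simp [c1]
  have a4 : the σ c ρ (j, true) = (l, c l == !c i) := by rw [the_used uj, hjl]; simp [c2]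
  have a3' : the σ c ρ (k, c k == !c i) = (i, false) := by rw [← a3, the_invol h]
  have a4' : the σ c ρ (l, c l == !c i) = (j, true) := by rw [← a4, the_invol h]
  have b1 : the σ c ρ2 (i, true) = (l, c l == c i) := by rw [the_used ui2, hi2]; simp
  have b2 : the σ c ρ2 (j, false) = (k, c k == c i) := by rw [the_used uj2, hj2]; simp [hsj]
  have b3 : the σ c ρ2 (i, false) = (l, c l == !c i) := by rw [the_used ui2, hi2]; simp [c1]
  have b4 : the σ c ρ2 (j, true) = (k, c k == !c i) := by rw [the_used uj2, hj2]; simp [c2]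
  have b3' : the σ c ρ2 (l, c l == !c i) = (i, false) := by rw [← b3, the_invol h2]
  have b4' : the σ c ρ2 (k, c k == !c i) = (j, true) := by rw [← b4, the_invol h2]
  have d1 : the σ c3 ρ3 (i, true) = (i, false) := by rw [the_fix hi3]; simp
  have d2 : the σ c3 ρ3 (j, false) = (j, true) := by rw [the_fix hj3]; simp
  have d3 : ∀ X, the σ c3 ρ3 (k, c k == X) = (l, c l == X) := by
    intro X
    have : col σ c3 (k, c k == X) = X := by
      rw [← hc k hki]; exact col_slot (h3.used uk3) X
    rw [the_used uk3, hk3, this, hc l hli]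
  have d3' : ∀ X, the σ c3 ρ3 (l, c l == X) = (k, c k == X) := by
    intro X; rw [← d3, the_invol h3]
  have nk : (c k == c i) ≠ (c k == !c i) := by cases c k <;> cases c i <;> simp
  have nl : (c l == c i) ≠ (c l == !c i) := by cases c l <;> cases c i <;> simp
  rw [ind_congr (conn_iff_cut (c' := c) h hj hij (by rw [hi]; exact hkj) (fun _ _ => rfl)),
    ind_congr (conn_iff_cut (c' := c) h2 hj hij (by rw [hi2]; exact hlj) (fun _ _ => rfl)),
    ind_congr (conn_iff_cut (c' := c) h3 hj hij (by rw [hi3]; exact hij)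
      (fun q hq => (hc q hq).symm))]
  apply tri (a := (i, false)) (b := (k, c k == !c i)) (c := (l, c l == !c i)) (d := (j, true))
    gam_invol gam_free
    (cut_invol (the_invol h) (by simp) (the_free _) (by rw [a1]; simp [hkj]) (the_free _))
    (cut_free (the_invol h) the_free (by simp) (by rw [a1]; simp [hkj]))
    (by simp [hki.symm]) (by simp [hli.symm]) (by simp) (by simp [hkl]) (by simp [hkj])
    (by simp [hlj])
  · rintro ⟨p, s⟩ n1 n2 n3 n4
    by_cases e1 : p = i
    · subst e1; cases s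
      · exact absurd rfl n1
      · rw [cut_t1, cut_t1]
    by_cases e2 : p = j
    · subst e2; cases s
      · rw [cut_t2 (by simp), cut_t2 (by simp)]
      · exact absurd rfl n4
    by_cases e3 : p = k
    · subst e3
      rcases bool_slot (c p) (c i) s with rfl | rfl
      · rw [cut_b b1 b2 (by simp [e1]) (by simp [e2]), cut_a a1 a2 (by simp [e1]) (by simp [e2])]
      · exact absurd rfl n2
    by_cases e4 : p = l
    · subst e4
      rcases bool_slot (c p) (c i) s with rfl | rfl
      · rw [cut_a b1 b2 (by simp [e1]) (by simp [e2]), cut_b a1 a2 (by simp [e1]) (by simp [e2])]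
      · exact absurd rfl n3
    rw [cut_o (by simp [e1]) (by simp [e2]) (by rw [b1]; simp [e4]) (by rw [b2]; simp [e3]),
      cut_o (by simp [e1]) (by simp [e2]) (by rw [a1]; simp [e3]) (by rw [a2]; simp [e4]),
      the_other hj (fun _ _ => rfl) e1 e2 (ho2 p e1 e2 e3 e4)
        (fun e => e3 (by rw [← h.1 p, e, hi]))]
  · rintro ⟨p, s⟩ n1 n2 n3 n4
    by_cases e1 : p = i
    · subst e1; cases s
      · exact absurd rfl n1
      · rw [cut_t1, cut_t1]
    by_cases e2 : p = j
    · subst e2; cases s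
      · rw [cut_t2 (by simp), cut_t2 (by simp)]
      · exact absurd rfl n4
    by_cases e3 : p = k
    · subst e3
      rcases bool_slot (c p) (c i) s with rfl | rfl
      · rw [cut_o (by simp [e1]) (by simp [e2]) (by rw [d1]; simp [e1]) (by rw [d2]; simp [e2]),
          d3, cut_a a1 a2 (by simp [e1]) (by simp [e2])]
      · exact absurd rfl n2
    by_cases e4 : p = l
    · subst e4
      rcases bool_slot (c p) (c i) s with rfl | rfl
      · rw [cut_o (by simp [e1]) (by simp [e2]) (by rw [d1]; simp [e1]) (by rw [d2]; simp [e2]),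
          d3', cut_b a1 a2 (by simp [e1]) (by simp [e2])]
      · exact absurd rfl n3
    rw [cut_o (by simp [e1]) (by simp [e2]) (by rw [d1]; simp [e1]) (by rw [d2]; simp [e2]),
      cut_o (by simp [e1]) (by simp [e2]) (by rw [a1]; simp [e3]) (by rw [a2]; simp [e4]),
      the_other hj hc e1 e2 (ho3 p e1 e2 e3 e4) (fun e => e3 (by rw [← h.1 p, e, hi]))]
  · rw [cut_o (by simp) (by simp [hij]) (by rw [a1]; simp [hki.symm])
      (by rw [a2]; simp [hli.symm]), a3]
  · rw [cut_o (by simp [hki]) (by simp [hkj]) (by rw [a1]; simp [nk.symm])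
      (by rw [a2]; simp [hkl]), a3']
  · rw [cut_o (by simp [hli]) (by simp [hlj]) (by rw [a1]; simp [hkl.symm])
      (by rw [a2]; simp [nl.symm]), a4']
  · rw [cut_o (by simp [hij.symm]) (by simp) (by rw [a1]; simp [hkj.symm])
      (by rw [a2]; simp [hlj.symm]), a4]
  · rw [cut_o (by simp) (by simp [hij]) (by rw [b1]; simp [hli.symm])
      (by rw [b2]; simp [hki.symm]), b3]
  · rw [cut_o (by simp [hki]) (by simp [hkj]) (by rw [b1]; simp [hkl])
      (by rw [b2]; simp [nk.symm]), b4']
  · rw [cut_o (by simp [hli]) (by simp [hlj]) (by rw [b1]; simp [nl.symm])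
      (by rw [b2]; simp [hkl.symm]), b3']
  · rw [cut_o (by simp [hij.symm]) (by simp) (by rw [b1]; simp [hlj.symm])
      (by rw [b2]; simp [hkj.symm]), b4]
  · rw [cut_a d1 d2 (by simp) (by simp [hij])]
  · rw [cut_o (by simp [hki]) (by simp [hkj]) (by rw [d1]; simp [hki]) (by rw [d2]; simp [hkj]),
      d3]
  · rw [cut_o (by simp [hli]) (by simp [hlj]) (by rw [d1]; simp [hli]) (by rw [d2]; simp [hlj]),
      d3']
  · rw [cut_b d1 d2 (by simp [hij.symm]) (by simp)]
  · simp [hij]
  · simp [hki, hkj]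
  · simp [hli, hlj]
  · rw [col_slot (h.used uk)]; simp [c1]
  · rw [col_slot (h.used ul)]; simp [c1]

end Pool.Agent.Lib.MP_061452_co
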